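import Pool.Agent.H15.AV.LCo
import Pool.Agent.H82.LK.Split
import Pool.Agent.H48.NE.Mxw

/-!
# The Landau operator, case (L), pointwise form (MP_c15324_an, THEOREM V for (L)): definitions

`landauQ γ g = ab[g] : D² g + cb[g] g`, `ab γ g i j v = (a_ij * g)(v)` (H15/AV/LCo), `cb γ g v = (d-1)(d+γ) (|·|^γ * g)(v)`.
`ctr γ g φ v = Σ_ij ab γ g i j v ∂_i ∂_j φ(v)`.
Weights `Wp q v = (1+|v|²)^(-q)` (H48/PR/Defs).
-/

set_option autoImplicit false

open MeasureTheory Set Filter Topology Pool.Agent.H25.Kin Pool.Agent.H48.PR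
open Pool.Agent.H15.AV (ab)

namespace Pool.Agent.H48.LN

variable {d : ℕ}

/-- the coefficient of order zero `(d-1)(d+γ) (|·|^γ * g)(v)` -/
noncomputable def cb (γ : ℝ) (g : Vec d → ℝ) (v : Vec d) : ℝ :=
  ((d : ℝ) - 1) * ((d : ℝ) + γ) * ∫ z, len z ^ γ * g (v - z)

/-- the contraction of the diffusion matrix of `g` with the Hessian matrix of `φ` -/
noncomputable def ctr (γ : ℝ) (g φ : Vec d → ℝ) (v : Vec d) : ℝ :=
  ∑ i, ∑ j, ab γ g i j v * pd i (pd j φ) v

/-- continuous functions bounded by `C Wp q` -/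
structure CW (q : ℕ) (C : ℝ) (g : Vec d → ℝ) : Prop where
  cont : Continuous g
  le : ∀ v, |g v| ≤ C * Wp q v

end Pool.Agent.H48.LN
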