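import Pool.Agent.H48.NE.ReA
import Pool.Agent.H15.AV.LH
import Pool.Agent.H48.LN.Defs

/-!
# Module ReL: the relative entropy does not increase, case (L)

Copy of `re_anti` (H48/NE/ReA.lean) with `Q = landauQ γ`: `hth_landau h1 h2` (H15/AV/LH) in place of `hth_boltz`, and the invariants `landauQ_mass`, `landauQ_momentum`, `landauQ_energy` (see `IsKineticSol.inv`, H25/Kin/Amplify.lean). The private lemma `reA_mom` must be copied.
-/

set_option autoImplicit false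

open MeasureTheory Set Filter Topology Pool.Agent.H25.Kin Pool.Agent.H48.PR Pool.Agent.H48.NE
open Pool.Agent.H48.PD (FB)
open Pool.Agent.H15.AV (ab)

namespace Pool.Agent.H48.LN

variable {d : ℕ} {γ : ℝ}

open Pool.Agent.H48.PL Pool.Agent.H48.PD Pool.Agent.H82.BK Pool.Agent.H82.CM in
private theorem ReL_pos1 : Pos (fun _ : Vec d => (1 : ℝ)) 1 where
  per := fun _ _ => rfl
  smooth := contDiff_const
  le0 := fun _ => by simp
  le1 := fun x => by
    have h : fderiv ℝ (fun _ : Vec d => (1 : ℝ)) x = 0 := by simp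
    rw [h, norm_zero]
    exact zero_le_one

open Pool.Agent.H48.PL Pool.Agent.H48.PD Pool.Agent.H82.BK Pool.Agent.H82.CM in
private theorem ReL_mom {T : ℝ} {f Q' : ℝ → Vec d → Vec d → ℝ} (hf : IsClassicalSol T Q' f)
    {p : Vec d → ℝ} (hp : PG p) (hpc : Continuous p)
    (hQ : ∀ s ∈ Ioo 0 T, ∀ x, ∫ v, Q' s x v * p v = 0) {t : ℝ} (ht : t ∈ Ico 0 T) :
    mom (fun _ => 1) p f t = mom (fun _ => 1) p f 0 := by
  rcases ht.1.eq_or_lt with h0 | h0
  · rw [← h0]
  · have hd : ∀ s ∈ Ioo 0 t, HasDerivAt (mom (fun _ => 1) p f) 0 s := by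
      intro s hs
      have h1 := mom_hasDerivAt ReL_pos1 hp hpc hf ⟨hs.1, hs.2.trans ht.2⟩
        (hQ s ⟨hs.1, hs.2.trans ht.2⟩)
      refine h1.congr_deriv ?_
      simp
    obtain ⟨c, -, hc⟩ := exists_hasDerivAt_eq_slope (mom (fun _ => 1) p f) (fun _ => 0) h0
      (mom_cont ReL_pos1 hp hpc hf ht.2) hd
    rw [sub_zero, eq_comm, div_eq_zero_iff] at hc
    rcases hc with hc | hc
    · linarith
    · exact absurd hc h0.ne'

theorem landau_inv (hd : 2 ≤ d) (h1 : -2 < γ) (h2 : γ ≤ 0) {T : ℝ} {f : ℝ → Vec d → Vec d → ℝ}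
    (hf : IsLandauSol γ T f) : HasInvariants T (fun t x => landauQ γ (f t x)) := by
  have _ := hd
  intro t ht x
  have hn := IsClassicalSol.nice hf ht x
  exact ⟨landauQ_mass h1 h2 hn, landauQ_momentum h1 h2 hn, landauQ_energy h1 h2 hn⟩

theorem re_antiL (hd : 2 ≤ d) (h1 : -2 < γ) (h2 : γ ≤ 0) {a k : ℝ} (ha : 0 < a) (hk : 0 < k) (u : Vec d)
    {T : ℝ} {f : ℝ → Vec d → Vec d → ℝ} (hf : IsLandauSol γ T f) {t : ℝ} (ht : t ∈ Ico 0 T) :
    RE a k u (f t) ≤ RE a k u (f 0) := by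
  have h0 : (0 : ℝ) ∈ Ico 0 T := ⟨le_rfl, ht.1.trans_lt ht.2⟩
  have hI := landau_inv hd h1 h2 hf
  have e1 := Pool.Agent.H15.AV.entropy_le (Q := landauQ γ)
    (Pool.Agent.H15.AV.hth_landau h1 h2) hf hI ht
  have e2 := Pool.Agent.H15.AV.mass_const (Q := landauQ γ) hf hI ht
  have e3 := Pool.Agent.H15.AV.energy_const (Q := landauQ γ) hf hI ht
  have e4 : ∀ i : Fin d, ∫ q, f t q.2 q.1 * q.1 i ∂(nu d) =
      ∫ q, f 0 q.2 q.1 * q.1 i ∂(nu d) := by
    intro i
    have h5 := ReL_mom hf (p := fun v => v i) (PG.coord i) (continuous_apply i)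
      (fun s hs x => (hI s hs x).2.1 i) ht
    unfold mom at h5
    simp only [one_mul] at h5
    have e : ∀ r : ℝ, ∫ q, f r q.2 q.1 * q.1 i ∂(nu d) =
        ∫ q, q.1 i * f r q.2 q.1 ∂(nu d) :=
      fun r => integral_congr_ae (Eventually.of_forall fun q => mul_comm _ _)
    rw [e t, e 0, h5]
  rw [re_formula ha hk u (Pool.Agent.H15.AV.sol_slice hf ht),
    re_formula ha hk u (Pool.Agent.H15.AV.sol_slice hf h0), e2, e3]
  simp only [e4]
  linarith

end Pool.Agent.H48.LN
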