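import Pool.Agent.H15.KM.Defs
import Pool.Agent.H48.LN.Defs

/-!
# Module KMd: the kinetic modulus of continuity (interface with H15/KM)

`KMod d` is the statement of the theorem of H15/KM (helper15); the modules `ModL`, `BootL`, `NearL` use it as a hypothesis `hK : KMod d`, discharged in the final assembly.
-/

set_option autoImplicit false

open MeasureTheory Set Filter Topology Pool.Agent.H25.Kin Pool.Agent.H48.PR Pool.Agent.H48.NE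
open Pool.Agent.H48.PD (FB)
open Pool.Agent.H15.AV (ab)

namespace Pool.Agent.H48.LN

variable {d : ℕ} {γ : ℝ}

/-- the kinetic modulus of continuity for diffusions with a small oscillation of the matrix -/
def KMod (d : ℕ) : Prop := ∃ C₀ : ℝ, 1 ≤ C₀ ∧ ∃ m₀ : ℕ, ∀ (lam G η r T t₀ : ℝ), 0 < lam → lam ≤ 1 →
  1 ≤ G → 0 < η → η ≤ 1 → 0 < r → r ≤ 1 → r ^ 2 < t₀ → t₀ < T → ∀ (v₀ : Vec d)
  (u : ℝ → Vec d → Vec d → ℝ) (A : ℝ → Vec d → Vec d → Fin d → Fin d → ℝ), C2On T u →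
  (∀ t ∈ Ioo 0 T, ∀ x v i, u t (x + Pi.single i 1) v = u t x v) →
  (∀ t ∈ Icc (t₀ - r ^ 2) t₀, ∀ x v, len (v - v₀) ≤ r → |u t x v| ≤ 1) →
  (∀ t ∈ Icc (t₀ - r ^ 2) t₀, ∀ x v, len (v - v₀) ≤ r → (∀ i j, A t x v i j = A t x v j i) ∧
    (∀ ξ : Vec d, 2 * lam * nsq ξ ≤ ∑ i, ∑ j, A t x v i j * (ξ i * ξ j)) ∧
    ∑ i, A t x v i i ≤ 1 / lam) →
  (∀ t ∈ Icc (t₀ - r ^ 2) t₀, ∀ x v y w, len (v - v₀) ≤ r → len (w - v₀) ≤ r → ∀ ξ : Vec d,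
    |∑ i, ∑ j, A t x v i j * (ξ i * ξ j) - ∑ i, ∑ j, A t y w i j * (ξ i * ξ j)| ≤
      lam ^ 2 / C₀ * nsq ξ) →
  (∀ t ∈ Icc (t₀ - r ^ 2) t₀, ∀ x v, len (v - v₀) ≤ r →
    |transport u t x v - ∑ i, ∑ j, A t x v i j * pd i (pd j (u t x)) v| ≤ G / r ^ 2) →
  ∀ x y w, len (x - y) ≤ (lam * η / G) ^ m₀ / C₀ * r ^ 3 →
    len (w - v₀) ≤ (lam * η / G) ^ m₀ / C₀ * r → |u t₀ x v₀ - u t₀ y w| ≤ η

end Pool.Agent.H48.LN
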