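import Pool.Agent.H48.LN.Defs

/-!
# Module MxL: Maxwellians are stationary solutions of the Landau equation

`M = mx a k u`. `pd j M v = -2 k (v j - u j) M v`, so `M(w) ∂_j M(v) - M(v) ∂_j M(w) = -2 k (v_j - w_j) M(v) M(w)` and `Σ_j a_ij(v-w) (v_j - w_j) = 0` (`landauA`: `(z_i nsq z - z_i nsq z) .. = 0`): `landauFlux γ M i = 0`, `landauQ γ M = 0`. `mx_solL`: as `mx_sol` (H48/NE/Mxw.lean): all fields except `solves` do not depend on the operator (take them from `mx_sol ha hk γ (fun _ => 0) u T`, which is `IsClassicalSol` with another right side), `solves`: `transport = 0 = landauQ`.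
`mx_hs`: second derivatives of `M`: `mx_nice` gives `RD (fderiv (fderiv M))`, `|pd i (pd j M) v| ≤ ‖fderiv (fderiv M) v‖ ≤ C (1+‖v‖)^(-2q) ≤ K Wp q v` (`pd_le`; `Dc0_le` of H15/NE0/Near0.lean).
-/

set_option autoImplicit false

open MeasureTheory Set Filter Topology Pool.Agent.H25.Kin Pool.Agent.H48.PR Pool.Agent.H48.NE
open Pool.Agent.H48.PD (FB)
open Pool.Agent.H15.AV (ab)

namespace Pool.Agent.H48.LN

variable {d : ℕ} {γ : ℝ}

private lemma MxL_nsq_line (z : Vec d) (j : Fin d) (s : ℝ) :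
    nsq (z + s • (Pi.single j (1 : ℝ) : Vec d)) = nsq z + 2 * s * z j + s ^ 2 := by
  unfold nsq
  have h : ∀ i : Fin d, (z + s • (Pi.single j (1 : ℝ) : Vec d)) i ^ 2 =
      z i ^ 2 + (if i = j then 2 * s * z j + s ^ 2 else 0) := by
    intro i
    by_cases hi : i = j
    · subst hi
      simp only [Pi.add_apply, Pi.smul_apply, Pi.single_eq_same, smul_eq_mul, if_true]
      ring
    · simp [hi]
  simp_rw [h]
  rw [Finset.sum_add_distrib, Finset.sum_ite_eq' Finset.univ j]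
  simp only [Finset.mem_univ, if_true]
  ring

private lemma MxL_pd {a k : ℝ} (ha : 0 < a) (hk : 0 < k) (u : Vec d) (j : Fin d) (v : Vec d) :
    pd j (mx a k u) v = -(2 * k * (v j - u j)) * mx a k u v := by
  have hd : DifferentiableAt ℝ (mx a k u) v := (mx_nice ha hk u).diff v
  have h1 : HasDerivAt (fun s : ℝ => mx a k u (v + s • (Pi.single j (1 : ℝ) : Vec d)))
      (fderiv ℝ (mx a k u) v (Pi.single j 1)) 0 := by
    have h2 : HasDerivAt (fun s : ℝ => v + s • (Pi.single j (1 : ℝ) : Vec d))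
        (Pi.single j (1 : ℝ) : Vec d) 0 := by
      have := ((hasDerivAt_id (0 : ℝ)).smul_const (Pi.single j (1 : ℝ) : Vec d)).const_add v
      simpa using this
    have h3 : HasFDerivAt (mx a k u) (fderiv ℝ (mx a k u) v)
        (v + (0 : ℝ) • (Pi.single j (1 : ℝ) : Vec d)) := by
      rw [zero_smul, add_zero]
      exact hd.hasFDerivAt
    exact h3.comp_hasDerivAt 0 h2
  have h4 : HasDerivAt (fun s : ℝ => mx a k u (v + s • (Pi.single j (1 : ℝ) : Vec d)))
      (-(2 * k * (v j - u j)) * mx a k u v) 0 := by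
    have e : (fun s : ℝ => mx a k u (v + s • (Pi.single j (1 : ℝ) : Vec d))) =
        fun s : ℝ => a * Real.exp (-(k * (nsq (v - u) + 2 * s * (v j - u j) + s ^ 2))) := by
      funext s
      unfold mx
      have e2 : v + s • (Pi.single j (1 : ℝ) : Vec d) - u =
          (v - u) + s • (Pi.single j (1 : ℝ) : Vec d) := by abel
      rw [e2, MxL_nsq_line]
      rfl
    rw [e]
    have h5 : HasDerivAt (fun s : ℝ => nsq (v - u) + 2 * s * (v j - u j) + s ^ 2)
        (2 * (v j - u j)) 0 := by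
      have h6 := (((hasDerivAt_id (0 : ℝ)).const_mul 2).mul_const (v j - u j)).const_add
        (nsq (v - u))
      have h7 := h6.add ((hasDerivAt_id (0 : ℝ)).pow 2)
      have h8 := h7.congr_deriv (g' := 2 * (v j - u j)) (by simp)
      exact h8
    have h9 := (((h5.const_mul k).neg).exp).const_mul a
    refine h9.congr_deriv ?_
    unfold mx
    have e3 : (-fun y : ℝ => k * (nsq (v - u) + 2 * y * (v j - u j) + y ^ 2)) 0 =
        -(k * nsq (v - u)) := by simp
    rw [e3]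
    ring
  unfold pd
  exact h1.unique h4

private lemma MxL_alg (z : Vec d) (i : Fin d) (c : ℝ) :
    ∑ j, landauA γ z i j * (c * z j) = 0 := by
  unfold landauA
  have h : ∀ j : Fin d, ((if i = j then nsq z else 0) - z i * z j) * nsq z ^ (γ / 2) * (c * z j) =
      (if i = j then nsq z * nsq z ^ (γ / 2) * (c * z j) else 0) -
        z i * nsq z ^ (γ / 2) * c * z j ^ 2 := by
    intro j
    by_cases hj : i = j
    · rw [if_pos hj, if_pos hj]
      ring
    · rw [if_neg hj, if_neg hj]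
      ring
  simp_rw [h]
  rw [Finset.sum_sub_distrib, Finset.sum_ite_eq Finset.univ i, ← Finset.mul_sum]
  simp only [Finset.mem_univ, if_true]
  have e : ∑ j, z j ^ 2 = nsq z := rfl
  rw [e]
  ring

private lemma MxL_flux {a k : ℝ} (ha : 0 < a) (hk : 0 < k) (u : Vec d) (i : Fin d) :
    landauFlux γ (mx a k u) i = fun _ => 0 := by
  funext v
  unfold landauFlux
  have h : ∀ w : Vec d, ∑ j, landauA γ (v - w) i j *
      (mx a k u w * pd j (mx a k u) v - mx a k u v * pd j (mx a k u) w) = 0 := by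
    intro w
    rw [← MxL_alg (γ := γ) (v - w) i (-(2 * k) * (mx a k u w * mx a k u v))]
    refine Finset.sum_congr rfl fun j _ => ?_
    rw [MxL_pd ha hk, MxL_pd ha hk, Pi.sub_apply]
    ring
  simp_rw [h]
  exact integral_zero _ _

theorem mx_QL {a k : ℝ} (ha : 0 < a) (hk : 0 < k) (u v : Vec d) : landauQ γ (mx a k u) v = 0 := by
  unfold landauQ
  refine Finset.sum_eq_zero fun i _ => ?_
  rw [MxL_flux ha hk]
  unfold pd
  simp

theorem mx_solL {a k : ℝ} (ha : 0 < a) (hk : 0 < k) (u : Vec d) (T : ℝ) :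
    IsLandauSol γ T (fun _ _ => mx a k u) := by
  have S := mx_sol ha hk γ (fun _ => 0) u T
  refine ⟨S.nonneg, S.periodic, S.isCont, S.isC2, S.decay, S.decay12, fun t ht x v => ?_⟩
  have h := S.solves t ht x v
  rw [h]
  change boltzQ γ (fun _ => 0) (mx a k u) v = landauQ γ (mx a k u) v
  rw [mx_QL ha hk, (mx_Q ha hk γ (fun _ => 0) u v).1]

private lemma MxL_Wp_le (p : ℕ) (v : Vec d) :
    ((1 + ‖v‖) ^ (2 * p))⁻¹ ≤ ((d : ℝ) + 1) ^ p * Wp p v := by
  unfold Wp
  have h1 : (1 + nsq v) ^ p ≤ ((d : ℝ) + 1) ^ p * (1 + ‖v‖) ^ (2 * p) := by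
    have h2 := pow_le_pow_left₀ (by have := sq_nonneg' v; linarith) (one_add_sq_le v) p
    rwa [mul_pow, ← pow_mul] at h2
  have h3 : 0 < (1 + nsq v) ^ p := by
    have := sq_nonneg' v
    positivity
  have h4 : 0 < (1 + ‖v‖) ^ (2 * p) := by
    have := norm_nonneg v
    positivity
  rw [inv_le_comm₀ h4 (by positivity), mul_inv, inv_inv]
  rw [inv_mul_le_iff₀ (by positivity)]
  exact h1

private lemma MxL_le {C b : ℝ} (hC : 0 ≤ C) (q : ℕ) (v : Vec d)
    (h : (1 + ‖v‖) ^ (2 * q) * b ≤ C) : b ≤ C * ((d : ℝ) + 1) ^ q * Wp q v := by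
  have hp : 0 < (1 + ‖v‖) ^ (2 * q) := by
    have := norm_nonneg v
    positivity
  have h1 : b ≤ C * ((1 + ‖v‖) ^ (2 * q))⁻¹ := by
    rw [← div_eq_mul_inv, le_div_iff₀ hp, mul_comm]
    exact h
  have h2 := mul_le_mul_of_nonneg_left (MxL_Wp_le q v) hC
  rw [mul_assoc]
  exact h1.trans h2

private lemma MxL_pdpd {g : Vec d → ℝ} (hg : Differentiable ℝ (fderiv ℝ g)) (i j : Fin d)
    (v : Vec d) : |pd i (pd j g) v| ≤ ‖fderiv ℝ (fderiv ℝ g) v‖ := by
  have e : pd j g = fun v => fderiv ℝ g v (Pi.single j (1 : ℝ) : Vec d) := rfl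
  have h1 := ((hg v).hasFDerivAt.clm_apply
    (hasFDerivAt_const (Pi.single j (1 : ℝ) : Vec d) v)).fderiv
  have h2 : pd i (pd j g) v =
      fderiv ℝ (fderiv ℝ g) v (Pi.single i (1 : ℝ) : Vec d) (Pi.single j (1 : ℝ) : Vec d) := by
    rw [e]
    unfold pd
    rw [h1]
    simp
  rw [h2, ← Real.norm_eq_abs]
  have h3 : ∀ i : Fin d, ‖(Pi.single i (1 : ℝ) : Vec d)‖ ≤ 1 := fun i => by
    rw [pi_norm_le_iff_of_nonneg zero_le_one]
    intro m
    by_cases hm : m = i
    · subst hm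
      simp
    · simp [hm]
  calc ‖fderiv ℝ (fderiv ℝ g) v (Pi.single i (1 : ℝ) : Vec d) (Pi.single j (1 : ℝ) : Vec d)‖
      ≤ ‖fderiv ℝ (fderiv ℝ g) v (Pi.single i (1 : ℝ) : Vec d)‖ *
          ‖(Pi.single j (1 : ℝ) : Vec d)‖ := ContinuousLinearMap.le_opNorm _ _
    _ ≤ ‖fderiv ℝ (fderiv ℝ g) v (Pi.single i (1 : ℝ) : Vec d)‖ * 1 :=
        mul_le_mul_of_nonneg_left (h3 j) (norm_nonneg _)
    _ ≤ ‖fderiv ℝ (fderiv ℝ g) v‖ * ‖(Pi.single i (1 : ℝ) : Vec d)‖ := by
        rw [mul_one]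
        exact ContinuousLinearMap.le_opNorm _ _
    _ ≤ ‖fderiv ℝ (fderiv ℝ g) v‖ * 1 :=
        mul_le_mul_of_nonneg_left (h3 i) (norm_nonneg (fderiv ℝ (fderiv ℝ g) v))
    _ = ‖fderiv ℝ (fderiv ℝ g) v‖ := mul_one _

theorem mx_hs {a k : ℝ} (ha : 0 < a) (hk : 0 < k) (u : Vec d) (q : ℕ) : ∃ K : ℝ, 0 ≤ K ∧
    ∀ (i j : Fin d) (v : Vec d), |pd i (pd j (mx a k u)) v| ≤ K * Wp q v := by
  have hN := mx_nice ha hk u
  obtain ⟨C, hC⟩ := hN.rd2 (2 * q)
  have hC0 : 0 ≤ C := le_trans (by positivity) (hC 0)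
  refine ⟨C * ((d : ℝ) + 1) ^ q, by positivity, fun i j v => ?_⟩
  have hdf : Differentiable ℝ (fderiv ℝ (mx a k u)) := fun z => hN.diff1 z
  exact (MxL_pdpd hdf i j v).trans (MxL_le hC0 q v (hC v))

theorem mx_cw {a k : ℝ} (ha : 0 < a) (hk : 0 < k) (u : Vec d) (q : ℕ) : ∃ K : ℝ, 0 ≤ K ∧
    CW q K (mx a k u) := by
  have hN := mx_nice ha hk u
  obtain ⟨C, hC⟩ := hN.rd (2 * q)
  have hC0 : 0 ≤ C := le_trans (by positivity) (hC 0)
  refine ⟨C * ((d : ℝ) + 1) ^ q, by positivity, ⟨?_, fun v => ?_⟩⟩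
  · exact continuous_iff_continuousAt.2 fun v => (hN.diff v).continuousAt
  · have h := hC v
    rw [Real.norm_eq_abs] at h
    exact MxL_le hC0 q v h

end Pool.Agent.H48.LN
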