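import Pool.Agent.H48.LN.NearL

/-!
# Module NearB: stability of Maxwellians for the Landau equation, with decay constants and a lower bound of the mass

The basin `ε` does not depend on the decay constants `B` of the data.
-/

set_option autoImplicit false

open MeasureTheory Set Filter Topology Pool.Agent.H25.Kin Pool.Agent.H48.PR Pool.Agent.H48.NE
open Pool.Agent.H48.PD (FB)
open Pool.Agent.H15.AV (ab)

namespace Pool.Agent.H48.LN

variable {d : ℕ} {γ : ℝ}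

private lemma NearB_Wint {q : ℕ} (hq : d + 1 ≤ 2 * q) : Integrable (Wp q : Vec d → ℝ) := by
  have hc : Continuous (Wp q : Vec d → ℝ) := Wp_cont q
  refine ((integrable_wt (d := d)).const_mul (2 ^ q)).mono' hc.aestronglyMeasurable ?_
  refine Eventually.of_forall fun v => ?_
  have hW := Wp_pos q v
  rw [Real.norm_eq_abs, abs_of_pos hW]
  have hn := norm_nonneg v
  have hs : ‖v‖ ^ 2 ≤ nsq v := norm_sq_le_sq v
  have h2 : (1 + ‖v‖) ^ (d + 1) ≤ 2 ^ q * (1 + nsq v) ^ q := by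
    calc (1 + ‖v‖) ^ (d + 1) ≤ (1 + ‖v‖) ^ (2 * q) := pow_le_pow_right₀ (by linarith) hq
      _ = ((1 + ‖v‖) ^ 2) ^ q := pow_mul _ _ _
      _ ≤ (2 * (1 + nsq v)) ^ q := by
          refine pow_le_pow_left₀ (by positivity) ?_ q
          nlinarith [sq_nonneg (1 - ‖v‖)]
      _ = 2 ^ q * (1 + nsq v) ^ q := mul_pow _ _ _
  unfold wt Wp
  have h3 : (0 : ℝ) < (1 + nsq v) ^ q := by
    have := sq_nonneg' v
    positivity
  have h4 : (0 : ℝ) < (1 + ‖v‖) ^ (d + 1) := by positivity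
  rw [← div_eq_mul_inv, inv_eq_one_div, div_le_div_iff₀ h3 h4, one_mul]
  exact h2

private lemma NearB_int {T : ℝ} {Q f : ℝ → Vec d → Vec d → ℝ} (hf : IsClassicalSol T Q f) {t : ℝ}
    (ht : t ∈ Ico 0 T) (x : Vec d) : Integrable (f t x) := by
  obtain ⟨C, hC⟩ := hf.decay t ht.2 (d + 1)
  have hc : Continuous (f t x) :=
    (IsClassicalSol.cont_slice hf ht).comp (continuous_const.prodMk continuous_id)
  refine ((integrable_wt (d := d)).const_mul C).mono' hc.aestronglyMeasurable ?_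
  refine Eventually.of_forall fun v => ?_
  rw [Real.norm_eq_abs, abs_of_nonneg (hf.nonneg t ht x v)]
  unfold wt
  have h1 : 0 < (1 + ‖v‖) ^ (d + 1) := pow_pos (w_pos v) _
  rw [← div_eq_mul_inv, le_div_iff₀ h1]
  have h2 := hC t ⟨ht.1, le_rfl⟩ x v
  linarith

/-- stability of Maxwellians; the basin does not depend on the decay constants -/
theorem near_L (hK : KMod d) (hd : 2 ≤ d) (h1 : -2 < γ) (h2 : γ ≤ 0) {p : ℕ} (hp : d + 3 ≤ p)
    {a k : ℝ} (ha : 0 < a) (hk : 0 < k) (u : Vec d) : ∃ ε > 0, ∀ B : ℕ → ℝ, ∃ U : ℕ → ℝ, ∃ m₀ > 0,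
      ∀ (T : ℝ) (f : ℝ → Vec d → Vec d → ℝ), IsLandauSol γ T f →
      (∀ (N : ℕ) (x v : Vec d), (1 + ‖v‖) ^ N * f 0 x v ≤ B N) →
      (∀ x v, |f 0 x v - mx a k u v| ≤ ε * Wp p v) →
      ∀ t ∈ Ico 0 T, ∀ x, (∀ (N : ℕ) (v : Vec d), (1 + ‖v‖) ^ N * f t x v ≤ U N) ∧
        m₀ ≤ ∫ v, f t x v := by
  obtain ⟨Λ₀, hΛ₀, hdec⟩ := decL hd h1 h2 hp ha hk u
  obtain ⟨m, hmdef⟩ : ∃ m : ℝ, m = ∫ v, mx a k u v := ⟨_, rfl⟩
  have hm : 0 < m := by rw [hmdef]; exact mx_mass ha hk u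
  obtain ⟨I, hI⟩ : ∃ I : ℝ, I = ∫ v : Vec d, Wp p v := ⟨_, rfl⟩
  have hI0 : 0 ≤ I := by rw [hI]; exact integral_nonneg fun z => (Wp_pos p z).le
  obtain ⟨Λ, hΛ, hL0, hL1⟩ : ∃ Λ : ℝ, 0 < Λ ∧ Λ ≤ Λ₀ ∧ Λ * I ≤ m / 2 := by
    refine ⟨min Λ₀ (m / 2 / (I + 1)), by positivity, min_le_left _ _, ?_⟩
    refine (mul_le_mul_of_nonneg_right (min_le_right _ _) hI0).trans ?_
    rw [div_mul_eq_mul_div, div_le_iff₀ (by positivity)]
    nlinarith
  obtain ⟨ε, hε, hnear⟩ := near_eqL hK hd h1 h2 hp ha hk u hΛ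
  refine ⟨ε, hε, fun B => ?_⟩
  obtain ⟨Cl, hCl⟩ := hdec B
  refine ⟨Cl, m / 2, half_pos hm, fun T f hf hf0 hd0 t ht x => ?_⟩
  have key := hnear T f hf hd0
  refine ⟨fun N v => (hCl T f hf hf0 fun τ hτ y w => (key τ hτ y w).trans
    (mul_le_mul_of_nonneg_right hL0 (Wp_pos p w).le)).1 t ht N x v, ?_⟩
  have hf' : IsClassicalSol T (fun t x => landauQ γ (f t x)) f := hf
  have hg : IsClassicalSol T (fun _ _ => landauQ γ (mx a k u)) (fun _ _ => mx a k u) :=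
    mx_solL ha hk u T
  have hi : Integrable (Wp p : Vec d → ℝ) := NearB_Wint (by omega)
  have hM : Integrable (mx a k u) := NearB_int hg ht x
  have h3 : (∫ v, mx a k u v) - Λ * ∫ v : Vec d, Wp p v ≤ ∫ v, f t x v := by
    rw [← integral_const_mul, ← integral_sub hM (hi.const_mul Λ)]
    refine integral_mono (hM.sub (hi.const_mul Λ)) (NearB_int hf' ht x) fun v => ?_
    have := (abs_le.1 (key t ht x v)).1
    show mx a k u v - Λ * Wp p v ≤ f t x v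
    linarith
  rw [← hI, ← hmdef] at h3
  linarith

end Pool.Agent.H48.LN
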