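import Pool.Agent.H48.LN.Defs

/-!
# Module HsW: derivatives of the weights

`Wp p v = ((1+nsq v)^p)⁻¹`. `∂_j Wp p v = -2 p v_j (1+nsq v)^(-p-1)`, `∂_i∂_j Wp p v = -2 p δ_ij (1+nsq v)^(-p-1) + 4 p (p+1) v_i v_j (1+nsq v)^(-p-2)`, i.e. with `Wp (p+1)`, `Wp (p+2)`. Smoothness: composition of `nsq` (polynomial) with the inverse of a positive function. The bound: `|v_i v_j| ≤ nsq v ≤ 1 + nsq v`, `Wp (p+1) v = Wp p v / (1+nsq v)`.
-/

set_option autoImplicit false

open MeasureTheory Set Filter Topology Pool.Agent.H25.Kin Pool.Agent.H48.PR Pool.Agent.H48.NE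
open Pool.Agent.H48.PD (FB)
open Pool.Agent.H15.AV (ab)

namespace Pool.Agent.H48.LN

variable {d : ℕ} {γ : ℝ}

private theorem HsW_nonneg (v : Vec d) : 0 ≤ nsq v := by
  unfold nsq
  exact Finset.sum_nonneg (fun i _ => sq_nonneg _)

private theorem HsW_nsq (v : Vec d) : HasFDerivAt (fun v : Vec d => nsq v)
    (∑ i, (2 * v i) • ContinuousLinearMap.proj (R := ℝ) (φ := fun _ : Fin d => ℝ) i) v := by
  unfold nsq
  refine HasFDerivAt.fun_sum (fun i _ => ?_)
  have h0 : HasFDerivAt (fun v : Vec d => v i)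
      (ContinuousLinearMap.proj (R := ℝ) (φ := fun _ : Fin d => ℝ) i) v :=
    (ContinuousLinearMap.proj (R := ℝ) (φ := fun _ : Fin d => ℝ) i).hasFDerivAt
  have h1 : HasDerivAt (fun t : ℝ => t ^ 2) (2 * v i) (v i) := by
    simpa using hasDerivAt_pow 2 (v i)
  exact h1.comp_hasFDerivAt v h0

private theorem HsW_pd_nsq (i : Fin d) (v : Vec d) :
    (∑ k, (2 * v k) • ContinuousLinearMap.proj (R := ℝ) (φ := fun _ : Fin d => ℝ) k)
      (Pi.single i (1 : ℝ)) = 2 * v i := by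
  rw [_root_.sum_apply]
  simp [Pi.single_apply]

private theorem HsW_one (p : ℕ) (t : ℝ) (ht : 0 ≤ t) :
    HasDerivAt (fun t : ℝ => ((1 + t) ^ p)⁻¹) (-(p : ℝ) * ((1 + t) ^ (p + 1))⁻¹) t := by
  have h0 : HasDerivAt (fun t : ℝ => (1 + t) ^ p) (p * (1 + t) ^ (p - 1)) t := by
    have h := ((hasDerivAt_id' t).const_add 1).fun_pow p
    simpa using h
  have hp : (1 + t : ℝ) ≠ 0 := by linarith
  have h1 := h0.fun_inv (pow_ne_zero p hp)
  refine h1.congr_deriv ?_
  rcases p with _ | q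
  · simp
  · simp only [Nat.add_sub_cancel]
    field_simp
    ring

private theorem HsW_fd (p : ℕ) (v : Vec d) : HasFDerivAt (Wp p : Vec d → ℝ)
    ((-(p : ℝ) * Wp (p + 1) v) •
      ∑ k, (2 * v k) • ContinuousLinearMap.proj (R := ℝ) (φ := fun _ : Fin d => ℝ) k) v :=
  (HsW_one p (nsq v) (HsW_nonneg v)).comp_hasFDerivAt v (HsW_nsq v)

private theorem HsW_pd (p : ℕ) (i : Fin d) (v : Vec d) :
    pd i (Wp p) v = -(2 * (p : ℝ)) * (Wp (p + 1) v * v i) := by
  unfold pd
  rw [(HsW_fd p v).fderiv, _root_.smul_apply, HsW_pd_nsq, smul_eq_mul]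
  ring

theorem wp_smooth (p : ℕ) : ContDiff ℝ 2 (Wp p : Vec d → ℝ) := by
  unfold Wp
  refine ContDiff.inv ?_ (fun v => (pow_pos (by linarith [HsW_nonneg v]) p).ne')
  refine ContDiff.pow (contDiff_const.add ?_) p
  unfold nsq
  exact ContDiff.sum (fun i _ => (contDiff_apply ℝ ℝ i).pow 2)

theorem wp_pd (p : ℕ) (i j : Fin d) (v : Vec d) : pd i (pd j (Wp p)) v =
    -(2 * p * (if i = j then 1 else 0)) * Wp (p + 1) v + 4 * p * (p + 1) * (v i * v j) * Wp (p + 2) v := by
  have e : pd j (Wp p) = fun v : Vec d => -(2 * (p : ℝ)) * (Wp (p + 1) v * v j) := by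
    funext v
    exact HsW_pd p j v
  rw [e]
  have h1 := ((HsW_fd (p + 1) v).mul
    (ContinuousLinearMap.proj (R := ℝ) (φ := fun _ : Fin d => ℝ) j).hasFDerivAt).const_mul
    (-(2 * (p : ℝ)))
  unfold pd
  have h2 := h1.fderiv
  change fderiv ℝ (fun v : Vec d => -(2 * (p : ℝ)) * (Wp (p + 1) v * v j)) v = _ at h2
  rw [h2]
  simp only [_root_.smul_apply, _root_.add_apply, HsW_pd_nsq,
    ContinuousLinearMap.proj_apply, smul_eq_mul, Pi.single_apply]
  push_cast
  by_cases hij : i = j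
  · subst hij
    simp
    ring
  · simp [hij, Ne.symm hij]
    ring

theorem wp_pd_le (p : ℕ) (i j : Fin d) (v : Vec d) :
    |pd i (pd j (Wp p)) v| ≤ 8 * (p + 1) ^ 2 * (Wp p v / (1 + nsq v)) := by
  have hn := HsW_nonneg v
  have hpos : 0 < 1 + nsq v := by linarith
  have hi : ∀ k : Fin d, v k ^ 2 ≤ nsq v := fun k => by
    unfold nsq
    exact Finset.single_le_sum (f := fun k => v k ^ 2) (fun k _ => sq_nonneg _) (Finset.mem_univ k)
  have hvv : |v i * v j| ≤ 1 + nsq v := by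
    rw [abs_le]
    constructor <;> nlinarith [hi i, hi j, sq_nonneg (v i + v j), sq_nonneg (v i - v j)]
  have e1 : Wp (p + 1) v = Wp p v / (1 + nsq v) := by
    unfold Wp
    rw [pow_succ]
    field_simp
  have e2 : Wp (p + 2) v = Wp p v / (1 + nsq v) / (1 + nsq v) := by
    unfold Wp
    rw [pow_succ, pow_succ]
    field_simp
  have hW : 0 < Wp p v / (1 + nsq v) := div_pos (Wp_pos p v) hpos
  rw [wp_pd, e1, e2]
  have hp : (0 : ℝ) ≤ p := Nat.cast_nonneg p
  set W := Wp p v / (1 + nsq v) with hWd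
  have h2 : |v i * v j| * (W / (1 + nsq v)) ≤ W := by
    rw [← mul_div_assoc, div_le_iff₀ hpos, mul_comm]
    exact mul_le_mul_of_nonneg_left hvv hW.le
  calc |-(2 * (p : ℝ) * (if i = j then 1 else 0)) * W +
        4 * p * (p + 1) * (v i * v j) * (W / (1 + nsq v))|
      ≤ |-(2 * (p : ℝ) * (if i = j then 1 else 0)) * W| +
        |4 * (p : ℝ) * (p + 1) * (v i * v j) * (W / (1 + nsq v))| := abs_add_le _ _
    _ ≤ 2 * p * W + 4 * p * (p + 1) * W := by
        refine add_le_add ?_ ?_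
        · split_ifs
          · rw [mul_one, abs_mul, abs_neg, abs_of_nonneg (by positivity : 0 ≤ 2 * (p : ℝ)),
              abs_of_pos hW]
          · simp
            positivity
        · have e3 : 4 * (p : ℝ) * (p + 1) * (v i * v j) * (W / (1 + nsq v)) =
              (4 * (p : ℝ) * (p + 1)) * ((v i * v j) * (W / (1 + nsq v))) := by ring
          rw [e3, abs_mul, abs_of_nonneg (by positivity : 0 ≤ 4 * (p : ℝ) * (p + 1)),
            abs_mul, abs_of_pos (div_pos hW hpos)]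
          exact mul_le_mul_of_nonneg_left h2 (by positivity)
    _ ≤ 8 * (p + 1) ^ 2 * W := by
        nlinarith [mul_nonneg hp hW.le, mul_nonneg (mul_nonneg hp hp) hW.le]

end Pool.Agent.H48.LN
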