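import Pool.Agent.H48.LN.Bd
import Pool.Agent.H48.LN.HsW

/-!
# Module Drf: the drift for large velocities

`g ≥ 0`, `g ≤ A Wp q`, `ρ = ∫ g ≥ m`. By `wp_pd`: `ctr γ g (Wp p) v = -2p Wp(p+1) tr + 4p(p+1) Wp(p+2) (ab v,v)`, `tr = Σ_i ab γ g i i v = (d-1) ∫ |z|^(γ+2) g(v-z) dz` (`Σ_i a_ii(z) = (d-1) nsq z nsq z^(γ/2)`), `(ab v,v) = Σ_ij ab_ij v_i v_j = ∫ (nsq z nsq v - (z·v)²) nsq z^(γ/2) g(v-z) dz` (`landauA_form`), and for `z = v - w`: `nsq z nsq v - (z·v)² = nsq w nsq v - (w·v)² ≤ nsq w nsq v`, so `(ab v,v) ≤ nsq v ∫ nsq w |v-w|^γ g(w) dw ≤ nsq v K A (1+nsq v)^(γ/2)` (`len_loc` with `q-1`).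
Let `e = 1/16`. `R₁` with `∫_{|w|>R₁} A Wp q ≤ e m`. For `len v ≥ R₁/e`: on `|w| ≤ R₁`: `(1-e)|v| ≤ |v-w| ≤ (1+e)|v|`, hence `tr ≥ (d-1) ((1-e)|v|)^(γ+2) (ρ - e m) ≥ (d-1) (1-e)^3 |v|^(γ+2) ρ`.
`∫ |v-w|^γ g(w) dw ≤ ((1-e)|v|)^γ ρ + ∫_{|w| > e|v|} |v-w|^γ A Wp q(w) dw` (split at `|w| = e|v|`, where `|v-w| ≥ (1-e)|v|`), the second part: `Wp q w ≤ Wp 1 w · Wp (q-1) w ≤ (1+e²nsq v)^(-1) Wp (q-1) w`, so `≤ A (1 + e² nsq v)^(-1) K (1+nsq v)^(γ/2)`; `(1-e)^γ ≤ (1-e)^(-2)`.
Sum divided by `Wp p v`: with `X = (nsq v)^(γ/2) = |v|^γ`, `|v|^(γ+2)/(1+|v|²) ≥ (1-e) X` for `|v| ≥ 4`: `≤ (d-1) ρ X [-2p (1-e)^4 + (d+γ)(1-e)^(-2)] + C(A,p) X/(1+e² nsq v)`. `p ≥ d`: `-2d (15/16)^4 + d (16/15)^2 ≤ -1.54 d + 1.14 d = -0.4 d`. For `|v| ≥ R` (depends on `A, m, p`) the last term is `≤ 0.1 d (d-1) m X`; so the sum is `≤ -0.3 d (d-1) m X Wp p v ≤ -c (1+nsq v)^(γ/2) Wp p v` (`X ≥ (1+nsq v)^(γ/2)`).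
-/

set_option autoImplicit false

open MeasureTheory Set Filter Topology Pool.Agent.H25.Kin Pool.Agent.H48.PR Pool.Agent.H48.NE
open Pool.Agent.H48.PD (FB)
open Pool.Agent.H15.AV (ab)

namespace Pool.Agent.H48.LN

variable {d : ℕ} {γ : ℝ}

private lemma drf_len_add (u v : Vec d) : len (u + v) ≤ len u + len v := by
  have h := norm_add_le (WithLp.toLp 2 u : EuclideanSpace ℝ (Fin d)) (WithLp.toLp 2 v)
  rw [← len_ofLp, ← len_ofLp, ← len_ofLp] at h
  exact h

private lemma drf_Wint {q : ℕ} (hq : d + 1 ≤ 2 * q) : Integrable (Wp q : Vec d → ℝ) := by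
  refine Integrable.mono' ((integrable_wt (d := d)).const_mul ((2 : ℝ) ^ q))
    (Wp_cont q).aestronglyMeasurable (Eventually.of_forall fun v => ?_)
  have hn := norm_nonneg v
  have h1 : (1 + ‖v‖) ^ 2 ≤ 2 * (1 + nsq v) := by
    have := norm_sq_le_sq v
    nlinarith [sq_nonneg (1 - ‖v‖)]
  have h2 : (1 + ‖v‖) ^ (d + 1) ≤ 2 ^ q * (1 + nsq v) ^ q := by
    calc (1 + ‖v‖) ^ (d + 1) ≤ (1 + ‖v‖) ^ (2 * q) := pow_le_pow_right₀ (by linarith) hq
      _ = ((1 + ‖v‖) ^ 2) ^ q := pow_mul _ _ _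
      _ ≤ (2 * (1 + nsq v)) ^ q := pow_le_pow_left₀ (by positivity) h1 q
      _ = 2 ^ q * (1 + nsq v) ^ q := mul_pow _ _ _
  have h3 : 0 < (1 + nsq v) ^ q := by
    have := sq_nonneg' v
    positivity
  rw [Real.norm_of_nonneg (Wp_pos q v).le, Wp, wt, ← div_eq_mul_inv, ← one_div,
    div_le_div_iff₀ h3 (by positivity), one_mul]
  exact h2

private lemma drf_rp (z : Vec d) : len z ^ γ = nsq z ^ (γ / 2) := by
  unfold len
  rw [Real.sqrt_eq_rpow, ← Real.rpow_mul (sq_nonneg' z)]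
  congr 1
  ring

private lemma drf_W (q : ℕ) (v : Vec d) : Wp (q + 1) v * (1 + nsq v) = Wp q v := by
  have h := nsq_nn v
  have h1 : (1 + nsq v) ≠ 0 := by positivity
  unfold Wp
  rw [pow_succ, mul_inv, mul_assoc, inv_mul_cancel₀ h1, mul_one]

/-- the function `u ↦ u^(γ/2)` at and above `(15/16)² N` -/
private lemma drf_u (h1 : -2 < γ) (h2 : γ ≤ 0) {N u : ℝ} (hN : 0 < N)
    (hu : (15 / 16) ^ 2 * N ≤ u) :
    (15 / 16) ^ 2 * N * N ^ (γ / 2) ≤ u * u ^ (γ / 2) ∧
      u ^ (γ / 2) ≤ (16 / 15) ^ 2 * N ^ (γ / 2) := by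
  have hc : (0 : ℝ) < (15 / 16) ^ 2 := by norm_num
  have hu0 : 0 < (15 / 16) ^ 2 * N := by positivity
  have hup : 0 < u := hu0.trans_le hu
  have hg : γ / 2 ≤ 0 := by linarith
  have hX : 0 < N ^ (γ / 2) := Real.rpow_pos_of_pos hN _
  have e0 : ((15 / 16) ^ 2 * N) ^ (γ / 2) = ((15 / 16) ^ 2 : ℝ) ^ (γ / 2) * N ^ (γ / 2) :=
    Real.mul_rpow hc.le hN.le
  have hb1 : (1 : ℝ) ≤ ((15 / 16) ^ 2 : ℝ) ^ (γ / 2) :=
    Real.one_le_rpow_of_pos_of_le_one_of_nonpos hc (by norm_num) hg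
  have hb2 : ((15 / 16) ^ 2 : ℝ) ^ (γ / 2) ≤ (16 / 15) ^ 2 := by
    calc ((15 / 16) ^ 2 : ℝ) ^ (γ / 2) ≤ ((15 / 16) ^ 2 : ℝ) ^ (-1 : ℝ) :=
          Real.rpow_le_rpow_of_exponent_ge hc (by norm_num) (by linarith)
      _ = (16 / 15) ^ 2 := by
          rw [Real.rpow_neg_one]
          norm_num
  constructor
  · have e1 : ∀ x : ℝ, 0 < x → x * x ^ (γ / 2) = x ^ (1 + γ / 2) := by
      intro x hx
      rw [Real.rpow_add hx, Real.rpow_one]
    calc (15 / 16) ^ 2 * N * N ^ (γ / 2) ≤ (15 / 16) ^ 2 * N *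
          (((15 / 16) ^ 2 : ℝ) ^ (γ / 2) * N ^ (γ / 2)) := by
          refine mul_le_mul_of_nonneg_left ?_ hu0.le
          exact le_mul_of_one_le_left hX.le hb1
      _ = ((15 / 16) ^ 2 * N) * ((15 / 16) ^ 2 * N) ^ (γ / 2) := by rw [e0]
      _ = ((15 / 16) ^ 2 * N) ^ (1 + γ / 2) := e1 _ hu0
      _ ≤ u ^ (1 + γ / 2) := Real.rpow_le_rpow hu0.le hu (by linarith)
      _ = u * u ^ (γ / 2) := (e1 u hup).symm
  · calc u ^ (γ / 2) ≤ ((15 / 16) ^ 2 * N) ^ (γ / 2) :=
          Real.rpow_le_rpow_of_nonpos hu0 hu hg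
      _ = ((15 / 16) ^ 2 : ℝ) ^ (γ / 2) * N ^ (γ / 2) := e0
      _ ≤ (16 / 15) ^ 2 * N ^ (γ / 2) := mul_le_mul_of_nonneg_right hb2 hX.le

/-- either `w` is small against `v` and `v - w` is large, or the weight of `w` is small -/
private lemma drf_split {q : ℕ} {A : ℝ} {g : Vec d → ℝ} (hg : CW (q + 1) A g)
    (h0 : ∀ v, 0 ≤ g v) (v z : Vec d) :
    (15 / 16) ^ 2 * nsq v ≤ nsq z ∨
      g (v - z) ≤ A / (1 + nsq v / 256) * Wp q (v - z) := by
  have hz := len_nonneg z
  have hv := len_nonneg v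
  have hw := len_nonneg (v - z)
  by_cases h : 16 * len (v - z) ≤ len v
  · left
    have h3 : len v ≤ len z + len (v - z) := by
      have := drf_len_add z (v - z)
      rwa [add_sub_cancel] at this
    rw [← len_sq z, ← len_sq v, ← mul_pow]
    exact pow_le_pow_left₀ (by positivity) (by linarith) 2
  · right
    push Not at h
    have h3 : nsq v / 256 ≤ nsq (v - z) := by
      rw [← len_sq (v - z), ← len_sq v]
      nlinarith
    have h4 := nsq_nn v
    have h5 := nsq_nn (v - z)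
    have hW := Wp_pos (q + 1) (v - z)
    have hA : 0 ≤ A := by
      have h6 := (abs_nonneg _).trans (hg.le (v - z))
      by_contra hA
      push Not at hA
      have := mul_neg_of_neg_of_pos hA hW
      linarith
    calc g (v - z) ≤ A * Wp (q + 1) (v - z) := (le_abs_self _).trans (hg.le _)
      _ ≤ A / (1 + nsq v / 256) * Wp q (v - z) := by
          rw [← drf_W q (v - z), div_mul_eq_mul_div, le_div_iff₀ (by positivity)]
          have h7 : 0 ≤ A * Wp (q + 1) (v - z) := mul_nonneg hA hW.le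
          nlinarith [mul_le_mul_of_nonneg_left h3 h7]

private lemma drf_ab (g : Vec d → ℝ) (i j : Fin d) (v : Vec d) :
    ab γ g i j v = ∫ z, landauA γ z i j * g (v - z) := rfl

private lemma drf_tr (z : Vec d) :
    ∑ i, landauA γ z i i = ((d : ℝ) - 1) * (nsq z * nsq z ^ (γ / 2)) := by
  unfold landauA
  simp only [if_true]
  rw [← Finset.sum_mul, Finset.sum_sub_distrib]
  have h1 : ∑ i : Fin d, z i * z i = nsq z := Finset.sum_congr rfl fun i _ => (sq (z i)).symm
  rw [h1, Finset.sum_const, Finset.card_univ, Fintype.card_fin, nsmul_eq_mul]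
  ring

private lemma drf_quad (v w : Vec d) : nsq (v - w) * nsq v - (∑ i, (v - w) i * v i) ^ 2 =
    nsq w * nsq v - (∑ i, w i * v i) ^ 2 := by
  have e1 : nsq (v - w) = nsq v - 2 * (∑ i, w i * v i) + nsq w := by
    unfold nsq
    rw [Finset.mul_sum, ← Finset.sum_sub_distrib, ← Finset.sum_add_distrib]
    exact Finset.sum_congr rfl fun i _ => by
      rw [Pi.sub_apply]
      ring
  have e2 : ∑ i, (v - w) i * v i = nsq v - ∑ i, w i * v i := by
    unfold nsq
    rw [← Finset.sum_sub_distrib]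
    exact Finset.sum_congr rfl fun i _ => by
      rw [Pi.sub_apply]
      ring
  rw [e1, e2]
  ring

/-- the kernels are integrable against `g` -/
private lemma drf_int (h1 : -2 < γ) (h2 : γ ≤ 0) {q : ℕ} {A : ℝ} {g : Vec d → ℝ}
    (hg : CW (q + 1) A g) (h0 : ∀ v, 0 ≤ g v) (v : Vec d)
    (hI : Integrable fun z => nsq z ^ (γ / 2) * Wp q (v - z)) :
    Integrable (fun z => nsq z ^ (γ / 2) * g (v - z)) ∧
    Integrable (fun z => nsq z * nsq z ^ (γ / 2) * g (v - z)) ∧
    ∀ i j, Integrable fun z => landauA γ z i j * g (v - z) := by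
  have hm : Measurable (nsq : Vec d → ℝ) := continuous_sq.measurable
  have hgm : Measurable fun z => g (v - z) :=
    (hg.cont.comp (continuous_const.sub continuous_id)).measurable
  have hle : ∀ w, g w * (1 + nsq w) ≤ A * Wp q w := by
    intro w
    have h3 := (le_abs_self _).trans (hg.le w)
    have h4 := nsq_nn w
    calc g w * (1 + nsq w) ≤ A * Wp (q + 1) w * (1 + nsq w) :=
          mul_le_mul_of_nonneg_right h3 (by positivity)
      _ = A * Wp q w := by rw [mul_assoc, drf_W]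
  have hle1 : ∀ w, g w ≤ A * Wp q w := by
    intro w
    refine le_trans ?_ (hle w)
    have h4 := nsq_nn w
    exact le_mul_of_one_le_right (h0 w) (by linarith)
  have hr : ∀ z : Vec d, 0 ≤ nsq z ^ (γ / 2) := fun z => Real.rpow_nonneg (nsq_nn z) _
  have i1 : Integrable (fun z => nsq z ^ (γ / 2) * g (v - z)) := by
    refine Integrable.mono' (hI.const_mul A)
      ((hm.pow_const (γ / 2)).mul hgm).aestronglyMeasurable (Eventually.of_forall fun z => ?_)
    rw [Real.norm_of_nonneg (mul_nonneg (hr z) (h0 _))]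
    calc nsq z ^ (γ / 2) * g (v - z) ≤ nsq z ^ (γ / 2) * (A * Wp q (v - z)) :=
          mul_le_mul_of_nonneg_left (hle1 _) (hr z)
      _ = A * (nsq z ^ (γ / 2) * Wp q (v - z)) := by ring
  have i2 : Integrable (fun z => nsq z * nsq z ^ (γ / 2) * g (v - z)) := by
    refine Integrable.mono' (hI.const_mul (2 * (1 + nsq v) * A))
      ((hm.mul (hm.pow_const (γ / 2))).mul hgm).aestronglyMeasurable
      (Eventually.of_forall fun z => ?_)
    rw [Real.norm_of_nonneg (mul_nonneg (mul_nonneg (nsq_nn z) (hr z)) (h0 _))]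
    have h3 : nsq z ≤ 2 * (1 + nsq v) * (1 + nsq (v - z)) := by
      have h4 : nsq z ≤ 2 * nsq v + 2 * nsq (v - z) := by
        unfold nsq
        rw [Finset.mul_sum, Finset.mul_sum, ← Finset.sum_add_distrib]
        refine Finset.sum_le_sum fun i _ => ?_
        rw [Pi.sub_apply]
        nlinarith [sq_nonneg (2 * v i - z i)]
      nlinarith [mul_nonneg (nsq_nn v) (nsq_nn (v - z)), nsq_nn v, nsq_nn (v - z)]
    calc nsq z * nsq z ^ (γ / 2) * g (v - z)
        ≤ (2 * (1 + nsq v) * (1 + nsq (v - z))) * nsq z ^ (γ / 2) * g (v - z) := by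
          gcongr
          · exact h0 _
          · exact hr z
      _ = (2 * (1 + nsq v) * nsq z ^ (γ / 2)) * (g (v - z) * (1 + nsq (v - z))) := by ring
      _ ≤ (2 * (1 + nsq v) * nsq z ^ (γ / 2)) * (A * Wp q (v - z)) := by
          refine mul_le_mul_of_nonneg_left (hle _) ?_
          have := nsq_nn v
          have := hr z
          positivity
      _ = 2 * (1 + nsq v) * A * (nsq z ^ (γ / 2) * Wp q (v - z)) := by ring
  refine ⟨i1, i2, fun i j => ?_⟩
  refine Integrable.mono' (i2.const_mul 2)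
    ((measurable_landauA γ i j).mul hgm).aestronglyMeasurable (Eventually.of_forall fun z => ?_)
  rw [norm_mul, Real.norm_eq_abs, Real.norm_of_nonneg (h0 _)]
  calc |landauA γ z i j| * g (v - z) ≤ 2 * (nsq z * nsq z ^ (γ / 2)) * g (v - z) :=
        mul_le_mul_of_nonneg_right (landauA_le γ z i j) (h0 _)
    _ = 2 * (nsq z * nsq z ^ (γ / 2) * g (v - z)) := by ring

/-- the three integrals -/
private lemma drf_three (hd : 2 ≤ d) (h1 : -2 < γ) (h2 : γ ≤ 0) {q : ℕ} (hq : d + 2 ≤ q) (A : ℝ) :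
    ∃ L M : ℝ, 0 ≤ L ∧ 0 ≤ M ∧ ∀ g : Vec d → ℝ, CW (q + 1) A g → (∀ v, 0 ≤ g v) →
      ∀ v : Vec d, 0 < nsq v →
      ((d : ℝ) - 1) * ((15 / 16) ^ 2 * nsq v * nsq v ^ (γ / 2) *
        ((∫ w, g w) - M / (1 + nsq v / 256))) ≤ ∑ i, ab γ g i i v ∧
      ∫ z, len z ^ γ * g (v - z) ≤ (16 / 15) ^ 2 * nsq v ^ (γ / 2) * (∫ w, g w) +
        L / (1 + nsq v / 256) * (1 + nsq v) ^ (γ / 2) ∧
      ∑ i, ∑ j, ab γ g i j v * (v i * v j) ≤ nsq v * (L * (1 + nsq v) ^ (γ / 2)) := by
  obtain ⟨K, hK, hloc⟩ := len_loc (d := d) hd h1 h2 (q := q) (by omega)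
  have hWi : Integrable (Wp q : Vec d → ℝ) := drf_Wint (by omega)
  have hWn : 0 ≤ ∫ w : Vec d, Wp q w := integral_nonneg fun w => (Wp_pos q w).le
  refine ⟨K * |A|, |A| * ∫ w : Vec d, Wp q w, by positivity, by positivity, ?_⟩
  intro g hg h0 v hv
  have hA : 0 ≤ A := by
    have h6 := (abs_nonneg _).trans (hg.le v)
    have hW := Wp_pos (q + 1) v
    by_contra hA
    push Not at hA
    have := mul_neg_of_neg_of_pos hA hW
    linarith
  rw [abs_of_nonneg hA]
  have hI : Integrable fun z => nsq z ^ (γ / 2) * Wp q (v - z) := by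
    refine (hloc v).1.congr (Eventually.of_forall fun z => ?_)
    simp only
    rw [drf_rp]
  have hIb : ∫ z, nsq z ^ (γ / 2) * Wp q (v - z) ≤ K * (1 + nsq v) ^ (γ / 2) := by
    have e : ∫ z, nsq z ^ (γ / 2) * Wp q (v - z) = ∫ z, len z ^ γ * Wp q (v - z) :=
      integral_congr_ae (Eventually.of_forall fun z => by simp only; rw [drf_rp])
    rw [e]
    exact (hloc v).2
  obtain ⟨i1, i2, i3⟩ := drf_int h1 h2 hg h0 v hI
  have hr : ∀ z : Vec d, 0 ≤ nsq z ^ (γ / 2) := fun z => Real.rpow_nonneg (nsq_nn z) _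
  have hX : 0 < nsq v ^ (γ / 2) := Real.rpow_pos_of_pos hv _
  have hB : 0 < 1 + nsq v / 256 := by positivity
  have hd1 : (0 : ℝ) ≤ (d : ℝ) - 1 := by
    have : (2 : ℝ) ≤ d := by exact_mod_cast hd
    linarith
  have hgi : Integrable g := by
    refine Integrable.mono' ((drf_Wint (d := d) (q := q + 1) (by omega)).const_mul A)
      hg.cont.aestronglyMeasurable (Eventually.of_forall fun w => ?_)
    rw [Real.norm_eq_abs]
    exact hg.le w
  have hgi' : Integrable fun z => g (v - z) := hgi.comp_sub_left v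
  have hWi' : Integrable fun z => Wp q (v - z) := hWi.comp_sub_left v
  have eg : ∫ z, g (v - z) = ∫ w, g w := integral_sub_left_eq_self g volume v
  have eW : ∫ z, Wp q (v - z) = ∫ w : Vec d, Wp q w := integral_sub_left_eq_self (Wp q) volume v
  refine ⟨?_, ?_, ?_⟩
  · have e1 : ∑ i, ab γ g i i v = ((d : ℝ) - 1) * ∫ z, nsq z * nsq z ^ (γ / 2) * g (v - z) := by
      rw [Finset.sum_congr rfl fun i _ => drf_ab g i i v,
        ← integral_finsetSum _ fun i _ => i3 i i, ← integral_const_mul]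
      refine integral_congr_ae (Eventually.of_forall fun z => ?_)
      simp only
      rw [← Finset.sum_mul, drf_tr]
      ring
    rw [e1]
    refine mul_le_mul_of_nonneg_left ?_ hd1
    have e2 : (15 / 16) ^ 2 * nsq v * nsq v ^ (γ / 2) *
        ((∫ w, g w) - (A * ∫ w : Vec d, Wp q w) / (1 + nsq v / 256)) =
        ∫ z, (15 / 16) ^ 2 * nsq v * nsq v ^ (γ / 2) *
          (g (v - z) - A / (1 + nsq v / 256) * Wp q (v - z)) := by
      rw [integral_const_mul, integral_sub hgi' (hWi'.const_mul _), integral_const_mul, eg, eW]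
      ring
    rw [e2]
    refine integral_mono ((hgi'.sub (hWi'.const_mul _)).const_mul _) i2 fun z => ?_
    simp only
    have hc : 0 ≤ (15 / 16) ^ 2 * nsq v * nsq v ^ (γ / 2) := by positivity
    have hWp := Wp_pos q (v - z)
    rcases drf_split hg h0 v z with h | h
    · have h3 := (drf_u h1 h2 hv h).1
      calc (15 / 16) ^ 2 * nsq v * nsq v ^ (γ / 2) *
            (g (v - z) - A / (1 + nsq v / 256) * Wp q (v - z))
          ≤ (15 / 16) ^ 2 * nsq v * nsq v ^ (γ / 2) * g (v - z) := by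
            refine mul_le_mul_of_nonneg_left ?_ hc
            have : 0 ≤ A / (1 + nsq v / 256) * Wp q (v - z) := by positivity
            linarith
        _ ≤ nsq z * nsq z ^ (γ / 2) * g (v - z) := mul_le_mul_of_nonneg_right h3 (h0 _)
    · refine le_trans (mul_nonpos_of_nonneg_of_nonpos hc (by linarith)) ?_
      exact mul_nonneg (mul_nonneg (nsq_nn z) (hr z)) (h0 _)
  · have e1 : ∫ z, len z ^ γ * g (v - z) = ∫ z, nsq z ^ (γ / 2) * g (v - z) :=
      integral_congr_ae (Eventually.of_forall fun z => by simp only; rw [drf_rp])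
    rw [e1]
    have h3 : ∫ z, nsq z ^ (γ / 2) * g (v - z) ≤
        ∫ z, ((16 / 15) ^ 2 * nsq v ^ (γ / 2) * g (v - z) +
          A / (1 + nsq v / 256) * (nsq z ^ (γ / 2) * Wp q (v - z))) := by
      refine integral_mono i1 ((hgi'.const_mul _).add (hI.const_mul _)) fun z => ?_
      simp only
      have hWp := Wp_pos q (v - z)
      have hz := hr z
      rcases drf_split hg h0 v z with h | h
      · have h4 := (drf_u h1 h2 hv h).2
        have h5 : 0 ≤ A / (1 + nsq v / 256) * (nsq z ^ (γ / 2) * Wp q (v - z)) := by positivity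
        have h6 := mul_le_mul_of_nonneg_right h4 (h0 (v - z))
        linarith
      · have h6 := mul_le_mul_of_nonneg_left h hz
        have h7 : 0 ≤ (16 / 15) ^ 2 * nsq v ^ (γ / 2) * g (v - z) :=
          mul_nonneg (by positivity) (h0 _)
        calc nsq z ^ (γ / 2) * g (v - z)
            ≤ nsq z ^ (γ / 2) * (A / (1 + nsq v / 256) * Wp q (v - z)) := h6
          _ = A / (1 + nsq v / 256) * (nsq z ^ (γ / 2) * Wp q (v - z)) := by ring
          _ ≤ _ := by linarith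
    refine h3.trans ?_
    rw [integral_add (hgi'.const_mul _) (hI.const_mul _), integral_const_mul, integral_const_mul,
      eg]
    have h4 : A / (1 + nsq v / 256) * ∫ z, nsq z ^ (γ / 2) * Wp q (v - z) ≤
        A / (1 + nsq v / 256) * (K * (1 + nsq v) ^ (γ / 2)) :=
      mul_le_mul_of_nonneg_left hIb (by positivity)
    calc (16 / 15) ^ 2 * nsq v ^ (γ / 2) * (∫ w, g w) +
          A / (1 + nsq v / 256) * ∫ z, nsq z ^ (γ / 2) * Wp q (v - z)
        ≤ (16 / 15) ^ 2 * nsq v ^ (γ / 2) * (∫ w, g w) +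
          A / (1 + nsq v / 256) * (K * (1 + nsq v) ^ (γ / 2)) := by linarith
      _ = _ := by ring
  · have e1 : ∀ i j, ab γ g i j v * (v i * v j) =
        ∫ z, landauA γ z i j * (v i * v j) * g (v - z) := by
      intro i j
      rw [drf_ab, ← integral_mul_const]
      refine integral_congr_ae (Eventually.of_forall fun z => ?_)
      simp only
      ring
    have i4 : ∀ i j, Integrable fun z => landauA γ z i j * (v i * v j) * g (v - z) := by
      intro i j
      refine ((i3 i j).mul_const (v i * v j)).congr (Eventually.of_forall fun z => ?_)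
      simp only
      ring
    have e2 : ∑ i, ∑ j, ab γ g i j v * (v i * v j) =
        ∫ z, (∑ i, ∑ j, landauA γ z i j * (v i * v j)) * g (v - z) := by
      rw [Finset.sum_congr rfl fun i _ => Finset.sum_congr rfl fun j _ => e1 i j]
      have e3 : ∀ z, (∑ i, ∑ j, landauA γ z i j * (v i * v j)) * g (v - z) =
          ∑ i, ∑ j, landauA γ z i j * (v i * v j) * g (v - z) := by
        intro z
        rw [Finset.sum_mul]
        exact Finset.sum_congr rfl fun i _ => Finset.sum_mul _ _ _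
      rw [integral_congr_ae (Eventually.of_forall e3),
        integral_finsetSum _ fun i _ => integrable_finsetSum _ fun j _ => i4 i j]
      exact Finset.sum_congr rfl fun i _ => (integral_finsetSum _ fun j _ => i4 i j).symm
    have i5 : Integrable fun z => (∑ i, ∑ j, landauA γ z i j * (v i * v j)) * g (v - z) := by
      refine (integrable_finsetSum Finset.univ fun i _ => integrable_finsetSum Finset.univ
        fun j _ => i4 i j).congr (Eventually.of_forall fun z => ?_)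
      simp only
      rw [Finset.sum_mul]
      exact Finset.sum_congr rfl fun i _ => (Finset.sum_mul _ _ _).symm
    rw [e2]
    have h3 : ∫ z, (∑ i, ∑ j, landauA γ z i j * (v i * v j)) * g (v - z) ≤
        ∫ z, nsq v * A * (nsq z ^ (γ / 2) * Wp q (v - z)) := by
      refine integral_mono i5 (hI.const_mul _) fun z => ?_
      simp only
      rw [Pool.Agent.H15.AV.landauA_form]
      have hz := hr z
      have h5 : nsq z * nsq v - (∑ i, z i * v i) ^ 2 ≤ nsq (v - z) * nsq v := by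
        have h6 := drf_quad v (v - z)
        rw [sub_sub_cancel] at h6
        rw [h6]
        have := sq_nonneg (∑ i, (v - z) i * v i)
        linarith
      have h7 : nsq (v - z) * g (v - z) ≤ A * Wp q (v - z) := by
        have h8 := (le_abs_self _).trans (hg.le (v - z))
        have h9 := nsq_nn (v - z)
        calc nsq (v - z) * g (v - z) ≤ (1 + nsq (v - z)) * g (v - z) :=
              mul_le_mul_of_nonneg_right (by linarith) (h0 _)
          _ ≤ (1 + nsq (v - z)) * (A * Wp (q + 1) (v - z)) :=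
              mul_le_mul_of_nonneg_left h8 (by positivity)
          _ = A * (Wp (q + 1) (v - z) * (1 + nsq (v - z))) := by ring
          _ = A * Wp q (v - z) := by rw [drf_W]
      calc (nsq z * nsq v - (∑ i, z i * v i) ^ 2) * nsq z ^ (γ / 2) * g (v - z)
          ≤ (nsq (v - z) * nsq v) * nsq z ^ (γ / 2) * g (v - z) :=
            mul_le_mul_of_nonneg_right (mul_le_mul_of_nonneg_right h5 hz) (h0 _)
        _ = (nsq v * nsq z ^ (γ / 2)) * (nsq (v - z) * g (v - z)) := by ring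
        _ ≤ (nsq v * nsq z ^ (γ / 2)) * (A * Wp q (v - z)) :=
            mul_le_mul_of_nonneg_left h7 (by positivity)
        _ = nsq v * A * (nsq z ^ (γ / 2) * Wp q (v - z)) := by ring
    refine h3.trans ?_
    rw [integral_const_mul]
    calc nsq v * A * ∫ z, nsq z ^ (γ / 2) * Wp q (v - z)
        ≤ nsq v * A * (K * (1 + nsq v) ^ (γ / 2)) :=
          mul_le_mul_of_nonneg_left hIb (by positivity)
      _ = nsq v * (K * A * (1 + nsq v) ^ (γ / 2)) := by ring

/-- the contraction with the Hessian matrix of the weight -/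
private lemma drf_ctr (g : Vec d → ℝ) (p : ℕ) (v : Vec d) :
    ctr γ g (Wp p) v = -(2 * p) * Wp (p + 1) v * (∑ i, ab γ g i i v) +
      4 * p * (p + 1) * Wp (p + 2) v * ∑ i, ∑ j, ab γ g i j v * (v i * v j) := by
  unfold ctr
  have e : ∀ i : Fin d, ∑ j, ab γ g i j v * pd i (pd j (Wp p)) v =
      -(2 * p) * Wp (p + 1) v * ab γ g i i v +
        4 * p * (p + 1) * Wp (p + 2) v * ∑ j, ab γ g i j v * (v i * v j) := by
    intro i
    have e1 : ∀ j : Fin d, ab γ g i j v * pd i (pd j (Wp p)) v =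
        (if i = j then -(2 * p) * Wp (p + 1) v * ab γ g i j v else 0) +
          4 * p * (p + 1) * Wp (p + 2) v * (ab γ g i j v * (v i * v j)) := by
      intro j
      rw [wp_pd]
      split_ifs <;> ring
    rw [Finset.sum_congr rfl fun j _ => e1 j, Finset.sum_add_distrib, Finset.sum_ite_eq,
      if_pos (Finset.mem_univ i), Finset.mul_sum]
  rw [Finset.sum_congr rfl fun i _ => e i, Finset.sum_add_distrib, ← Finset.mul_sum,
    ← Finset.mul_sum]

/-- the final inequality -/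
private lemma drf_fin {N X Y D dd ρ m L M T Q I P e : ℝ} (hN : 15 ≤ N) (hX : 0 < X) (hY : 0 ≤ Y)
    (hYX : Y ≤ X) (hD : 1 ≤ D) (hdd : 2 ≤ dd) (hm : 0 < m) (hρ : m ≤ ρ) (hL : 0 ≤ L)
    (hP : dd ≤ P) (he : e = 1 + N / 256) (h1 : 16 * M ≤ m * e)
    (h2 : 10 * ((4 * P * (P + 1) + D * dd) * L) ≤ dd * D * m * e)
    (hT : D * ((15 / 16) ^ 2 * N * X * (ρ - M / e)) ≤ T)
    (hI : I ≤ (16 / 15) ^ 2 * X * ρ + L / e * Y) (hQ : Q ≤ N * (L * Y)) {c : ℝ} (hc0 : 0 ≤ c)
    (hc : c ≤ dd) :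
    -(2 * P) * T / (1 + N) + 4 * P * (P + 1) * Q / (1 + N) ^ 2 + D * c * I ≤
      -(3 / 10 * (dd * D * m)) * Y := by
  have hP0 : 0 < P := by linarith
  have hepos : 0 < e := by rw [he]; positivity
  have hN1 : 0 < 1 + N := by linarith
  -- the first term
  have a1 : M / e ≤ ρ / 16 := by
    rw [div_le_iff₀ hepos]
    have : m * e ≤ ρ * e := mul_le_mul_of_nonneg_right hρ hepos.le
    linarith
  have a2 : D * ((15 / 16) ^ 2 * N * X * (15 / 16 * ρ)) ≤ T := by
    refine le_trans ?_ hT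
    refine mul_le_mul_of_nonneg_left ?_ (by linarith)
    refine mul_le_mul_of_nonneg_left (by linarith) (by positivity)
  have a3 : D * X * ρ * (15 / 16) ^ 4 ≤ T / (1 + N) := by
    rw [le_div_iff₀ hN1]
    refine le_trans ?_ a2
    have h3 : 15 / 16 * (1 + N) ≤ N := by linarith
    have hρ0 : 0 < ρ := by linarith
    have hDX : 0 ≤ D * X * ρ * (15 / 16) ^ 3 := by positivity
    calc D * X * ρ * (15 / 16) ^ 4 * (1 + N) = D * X * ρ * (15 / 16) ^ 3 * (15 / 16 * (1 + N)) := by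
          ring
      _ ≤ D * X * ρ * (15 / 16) ^ 3 * N := mul_le_mul_of_nonneg_left h3 hDX
      _ = D * ((15 / 16) ^ 2 * N * X * (15 / 16 * ρ)) := by ring
  have hρ0 : 0 < ρ := by linarith
  have a4 : -(2 * P) * T / (1 + N) ≤ -(2 * dd) * (D * X * ρ * (15 / 16) ^ 4) := by
    have h3 : 0 ≤ D * X * ρ * (15 / 16) ^ 4 := by positivity
    have h4 : 2 * dd * (D * X * ρ * (15 / 16) ^ 4) ≤ 2 * P * (T / (1 + N)) := by
      refine mul_le_mul (by linarith) a3 h3 (by linarith)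
    have h5 : -(2 * P) * T / (1 + N) = -(2 * P * (T / (1 + N))) := by ring
    rw [h5]
    linarith
  -- the second term
  have a5 : 4 * P * (P + 1) * Q / (1 + N) ^ 2 ≤ 4 * P * (P + 1) * L / e * X := by
    have h3 : Q ≤ N * (L * X) := hQ.trans (by gcongr)
    have h4 : 0 ≤ 4 * P * (P + 1) := by positivity
    have h6 : N * e ≤ (1 + N) ^ 2 := by
      rw [he]
      nlinarith
    rw [div_le_iff₀ (by positivity)]
    calc 4 * P * (P + 1) * Q ≤ 4 * P * (P + 1) * (N * (L * X)) := mul_le_mul_of_nonneg_left h3 h4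
      _ = 4 * P * (P + 1) * L / e * X * (N * e) := by field_simp
      _ ≤ 4 * P * (P + 1) * L / e * X * (1 + N) ^ 2 :=
          mul_le_mul_of_nonneg_left h6 (by positivity)
  -- the third term
  have a6 : D * c * I ≤ D * dd * ((16 / 15) ^ 2 * X * ρ) + D * dd * L / e * X := by
    have h3 : I ≤ (16 / 15) ^ 2 * X * ρ + L / e * X := by
      refine hI.trans ?_
      have : L / e * Y ≤ L / e * X := mul_le_mul_of_nonneg_left hYX (by positivity)
      linarith
    have h4 : 0 ≤ (16 / 15) ^ 2 * X * ρ + L / e * X := by positivity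
    calc D * c * I ≤ D * c * ((16 / 15) ^ 2 * X * ρ + L / e * X) :=
          mul_le_mul_of_nonneg_left h3 (by positivity)
      _ ≤ D * dd * ((16 / 15) ^ 2 * X * ρ + L / e * X) := by
          refine mul_le_mul_of_nonneg_right ?_ h4
          exact mul_le_mul_of_nonneg_left hc (by linarith)
      _ = D * dd * ((16 / 15) ^ 2 * X * ρ) + D * dd * L / e * X := by ring
  -- the small terms
  have a7 : 4 * P * (P + 1) * L / e * X + D * dd * L / e * X ≤ 1 / 10 * (dd * D * m) * X := by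
    have h3 : 4 * P * (P + 1) * L / e * X + D * dd * L / e * X =
        (4 * P * (P + 1) + D * dd) * L / e * X := by ring
    rw [h3]
    refine mul_le_mul_of_nonneg_right ?_ hX.le
    rw [div_le_iff₀ hepos]
    linarith
  have a8 : -(2 * dd) * (D * X * ρ * (15 / 16) ^ 4) + D * dd * ((16 / 15) ^ 2 * X * ρ) ≤
      -(4 / 10) * (dd * D * X * m) := by
    have h3 : -(2 * dd) * (D * X * ρ * (15 / 16) ^ 4) + D * dd * ((16 / 15) ^ 2 * X * ρ) =
        -((2 * (15 / 16) ^ 4 - (16 / 15) ^ 2) * (dd * D * X * ρ)) := by ring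
    have h4 : dd * D * X * m ≤ dd * D * X * ρ := mul_le_mul_of_nonneg_left hρ (by positivity)
    have h5 : 0 ≤ dd * D * X * m := by positivity
    have h6 : (4 / 10 : ℝ) ≤ 2 * (15 / 16) ^ 4 - (16 / 15) ^ 2 := by norm_num
    have h7 : (4 / 10) * (dd * D * X * m) ≤
        (2 * (15 / 16) ^ 4 - (16 / 15) ^ 2) * (dd * D * X * ρ) :=
      mul_le_mul h6 h4 h5 (by norm_num)
    rw [h3]
    linarith
  have a9 : 3 / 10 * (dd * D * m) * Y ≤ 3 / 10 * (dd * D * m) * X :=
    mul_le_mul_of_nonneg_left hYX (by positivity)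
  nlinarith

theorem drift (hd : 2 ≤ d) (h1 : -2 < γ) (h2 : γ ≤ 0) {p q : ℕ} (hp : d ≤ p) (hq : d + 3 ≤ q) (A : ℝ)
    {m : ℝ} (hm : 0 < m) : ∃ c > 0, ∃ R : ℝ, ∀ g : Vec d → ℝ, CW q A g → (∀ v, 0 ≤ g v) →
      m ≤ ∫ v, g v → ∀ v : Vec d, R ≤ len v →
      ctr γ g (Wp p) v + cb γ g v * Wp p v ≤ -c * (1 + nsq v) ^ (γ / 2) * Wp p v := by
  obtain ⟨q, rfl⟩ : ∃ k, q = k + 1 := ⟨q - 1, by omega⟩
  obtain ⟨L, M, hL, hM, hthree⟩ := drf_three (γ := γ) hd h1 h2 (q := q) (by omega) A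
  have hd2 : (2 : ℝ) ≤ d := by exact_mod_cast hd
  have hpd : (d : ℝ) ≤ p := by exact_mod_cast hp
  have hD : (1 : ℝ) ≤ (d : ℝ) - 1 := by linarith
  have hp0 : (0 : ℝ) ≤ p := by linarith
  have hdm : 0 < (d : ℝ) * ((d : ℝ) - 1) * m := by positivity
  set C : ℝ := 10 * ((4 * (p : ℝ) * (p + 1) + ((d : ℝ) - 1) * d) * L) with hC
  have hC0 : 0 ≤ C := by
    rw [hC]
    have : (0 : ℝ) ≤ (d : ℝ) - 1 := by linarith
    positivity
  set B : ℝ := 15 + 256 * (16 * M / m + C / ((d : ℝ) * ((d : ℝ) - 1) * m)) with hB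
  have hB0 : 15 ≤ B := by
    have h3 : 0 ≤ 16 * M / m + C / ((d : ℝ) * ((d : ℝ) - 1) * m) := by positivity
    linarith
  refine ⟨3 / 10 * ((d : ℝ) * ((d : ℝ) - 1) * m), by positivity, 1 + B, ?_⟩
  intro g hg h0 hmg v hv
  have hlen : B ≤ nsq v := by
    rw [← len_sq]
    nlinarith
  have hN : 15 ≤ nsq v := hB0.trans hlen
  have hN0 : 0 < nsq v := by linarith
  obtain ⟨hT, hI, hQ⟩ := hthree g hg h0 v hN0
  have hX : 0 < nsq v ^ (γ / 2) := Real.rpow_pos_of_pos hN0 _
  have hY : 0 ≤ (1 + nsq v) ^ (γ / 2) := Real.rpow_nonneg (by linarith) _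
  have hYX : (1 + nsq v) ^ (γ / 2) ≤ nsq v ^ (γ / 2) :=
    Real.rpow_le_rpow_of_nonpos hN0 (by linarith) (by linarith)
  have hM1 : 16 * M ≤ m * (1 + nsq v / 256) := by
    have h3 : 0 ≤ C / ((d : ℝ) * ((d : ℝ) - 1) * m) := by positivity
    have h4 : 16 * M / m ≤ nsq v / 256 := by linarith
    rw [div_le_iff₀ hm] at h4
    nlinarith
  have hC1 : C ≤ (d : ℝ) * ((d : ℝ) - 1) * m * (1 + nsq v / 256) := by
    have h3 : 0 ≤ 16 * M / m := by positivity
    have h4 : C / ((d : ℝ) * ((d : ℝ) - 1) * m) ≤ nsq v / 256 := by linarith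
    rw [div_le_iff₀ hdm] at h4
    nlinarith
  have key := drf_fin (e := 1 + nsq v / 256) hN hX hY hYX hD hd2 hm hmg hL hpd rfl hM1 hC1 hT hI
    hQ (c := (d : ℝ) + γ) (by linarith) (by linarith)
  have hW := Wp_pos p v
  have hn1 : 1 + nsq v ≠ 0 := by positivity
  have e1 : Wp (p + 1) v = Wp p v / (1 + nsq v) := by
    rw [eq_div_iff hn1, drf_W]
  have e2 : Wp (p + 2) v = Wp p v / (1 + nsq v) ^ 2 := by
    have h3 : Wp (p + 1 + 1) v = Wp (p + 1) v / (1 + nsq v) := by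
      rw [eq_div_iff hn1, drf_W]
    change Wp (p + 1 + 1) v = _
    rw [h3, e1, div_div, sq]
  rw [drf_ctr, e1, e2]
  unfold cb
  have e3 : -(2 * (p : ℝ)) * (Wp p v / (1 + nsq v)) * (∑ i, ab γ g i i v) +
      4 * p * (p + 1) * (Wp p v / (1 + nsq v) ^ 2) * (∑ i, ∑ j, ab γ g i j v * (v i * v j)) +
      ((d : ℝ) - 1) * ((d : ℝ) + γ) * (∫ z, len z ^ γ * g (v - z)) * Wp p v =
      (-(2 * (p : ℝ)) * (∑ i, ab γ g i i v) / (1 + nsq v) +
        4 * p * (p + 1) * (∑ i, ∑ j, ab γ g i j v * (v i * v j)) / (1 + nsq v) ^ 2 +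
        ((d : ℝ) - 1) * ((d : ℝ) + γ) * ∫ z, len z ^ γ * g (v - z)) * Wp p v := by ring
  rw [e3]
  exact mul_le_mul_of_nonneg_right key hW.le

end Pool.Agent.H48.LN
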