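import Pool.Agent.H48.LN.LimE
import Pool.Agent.H82.LK.Refl

/-!
# Module Nd: the pointwise form of the Landau operator

`landauQ_eq` (H82/LK/Split): `landauQ γ g v = Σ_ij (conv a_ij g v * ∂_i∂_j g v - g v * conv a_ij (∂_i∂_j g) v)`. First part = `ctr γ g g v` (`ab` is `conv`). Second part: `conv a_ij (∂_i∂_j g) v = ∫ a_ij(z) (∂_i∂_j g)(v - z) dz = ∫ a_ij(z) ∂_i∂_j φ(z) dz` for `φ z = g (v - z)` (`pd_pd_refl`, `nice_refl` of H82/LK/Refl), and `lim_eq` for `φ`: `Σ = -(d-1)(d+γ) ∫ g(v-z) len z ^ γ dz`.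
-/

set_option autoImplicit false

open MeasureTheory Set Filter Topology Pool.Agent.H25.Kin Pool.Agent.H48.PR Pool.Agent.H48.NE
open Pool.Agent.H48.PD (FB)
open Pool.Agent.H15.AV (ab)

namespace Pool.Agent.H48.LN

variable {d : ℕ} {γ : ℝ}

theorem landau_nd (hd : 2 ≤ d) (h1 : -2 < γ) (h2 : γ ≤ 0) {g : Vec d → ℝ} (hg : Nice g) (v : Vec d) :
    landauQ γ g v = ctr γ g g v + cb γ g v * g v := by
  have h3 := lim_eq hd h1 h2 (Pool.Agent.H82.LK.nice_refl hg v)
  have h4 : ∑ i, ∑ j, conv (fun z => landauA γ z i j) (pd i (pd j g)) v =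
      -(((d : ℝ) - 1) * ((d : ℝ) + γ)) * ∫ z, g (v - z) * len z ^ γ := by
    rw [← h3]
    refine Finset.sum_congr rfl fun i _ => Finset.sum_congr rfl fun j _ => ?_
    unfold conv
    refine integral_congr_ae (Eventually.of_forall fun z => ?_)
    simp only [smul_eq_mul]
    rw [Pool.Agent.H82.LK.pd_pd_refl hg v z i j]
  have h5 : ∫ z, g (v - z) * len z ^ γ = ∫ z, len z ^ γ * g (v - z) :=
    integral_congr_ae (Eventually.of_forall fun z => mul_comm _ _)
  rw [h5] at h4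
  rw [Pool.Agent.H82.LK.landauQ_eq h1 h2 hg v]
  simp only [Finset.sum_sub_distrib, ← Finset.mul_sum]
  rw [h4]
  unfold ctr cb ab
  ring

end Pool.Agent.H48.LN
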