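import Pool.Agent.H48.LN.Defs
import Pool.Agent.H82.LK.Alg

/-!
# Module Sec: the second derivative test

(1) `φ` of class `C²` with a global maximum at `v`: for every `w`, `Σ_ij w_i w_j ∂_i∂_j φ(v) ≤ 0` (the function `t ↦ φ(v + t w)` has a maximum at `0`: first derivative `0`, second derivative `≤ 0`; `hess_touch` in H82/LK/Hess.lean has all the pieces: `line_deriv`, `second_test`, private, copy).
(2) `landauA_quad` (H82/LK/Alg) with `M i j = ∂_i∂_j φ(v)`, `c = 0`: `Σ_ij a_ij(z) M i j ≤ 0` for all `z`.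
(3) `ctr γ g φ v = Σ_ij (∫ a_ij(z) g(v-z) dz) M i j = ∫ (Σ_ij a_ij(z) M i j) g(v-z) dz ≤ 0` (`g ≥ 0`; integrability of each term from `CW` as in `ab_bd`, or `Kern.integrable` when `g` is `Nice`: here `g` is `Nice`, see `lco_form` in H15/AV/LCo).
`ctr_add`, `ctr_smul`, `ctr_sub`: `pd i (pd j (φ - ψ)) = ..` for `C²` functions (`fderiv_sub` twice).
-/

set_option autoImplicit false

open MeasureTheory Set Filter Topology Pool.Agent.H25.Kin Pool.Agent.H48.PR Pool.Agent.H48.NE
open Pool.Agent.H48.PD (FB)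
open Pool.Agent.H15.AV (ab)

namespace Pool.Agent.H48.LN

variable {d : ℕ} {γ : ℝ}

private lemma sec_dir_eq (g : Vec d → ℝ) (u w : Vec d) :
    fderiv ℝ g u w = ∑ i, w i * pd i g u := by
  have h : w = ∑ i, w i • (Pi.single i (1 : ℝ) : Vec d) := by
    funext j
    simp [Finset.sum_apply, Pi.single_apply]
  conv_lhs => rw [h]
  rw [map_sum]
  exact Finset.sum_congr rfl fun i _ => by rw [map_smul, smul_eq_mul, pd]

private lemma sec_line {f : Vec d → ℝ} {v w : Vec d} {t : ℝ}
    (hf : DifferentiableAt ℝ f (v + t • w)) :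
    HasDerivAt (fun t : ℝ => f (v + t • w)) (∑ i, w i * pd i f (v + t • w)) t := by
  have hl : HasDerivAt (fun t : ℝ => v + t • w) w t := by
    simpa using ((hasDerivAt_id t).smul_const w).const_add v
  have h := hf.hasFDerivAt.comp_hasDerivAt t hl
  rw [sec_dir_eq] at h
  exact h

private lemma sec_test {H H' : ℝ → ℝ} {H2 : ℝ} (h1 : ∀ t, HasDerivAt H (H' t) t)
    (h2 : HasDerivAt H' H2 0) (hmax : ∀ t, H t ≤ H 0) : H2 ≤ 0 := by
  have hlm : IsLocalMax H 0 := Eventually.of_forall hmax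
  have h0 : H' 0 = 0 := hlm.hasDerivAt_eq_zero (h1 0)
  by_contra hneg
  rw [not_le] at hneg
  have hd : deriv H = H' := funext fun t => (h1 t).deriv
  have hmin : IsLocalMin H 0 := by
    apply isLocalMin_of_deriv_deriv_pos
    · rw [hd, h2.deriv]; exact hneg
    · rw [hd]; exact h0
    · exact (h1 0).continuousAt
  have hconst : H =ᶠ[𝓝 0] fun _ => H 0 := by
    filter_upwards [hmin] with t ht
    exact le_antisymm (hmax t) ht
  have hd0 : H' =ᶠ[𝓝 0] fun _ => (0 : ℝ) := by
    have h3 := hconst.deriv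
    rw [hd] at h3
    refine h3.trans (Eventually.of_forall fun t => ?_)
    simp
  have h4 : HasDerivAt H' 0 0 := (hasDerivAt_const (0 : ℝ) (0 : ℝ)).congr_of_eventuallyEq hd0
  have := h2.unique h4
  linarith

private lemma sec_diff {φ : Vec d → ℝ} (hφ : ContDiff ℝ 2 φ) (j : Fin d) :
    Differentiable ℝ (pd j φ) := by
  have h1 : ContDiff ℝ 1 (fderiv ℝ φ) := hφ.fderiv_right (by norm_num)
  have h2 : ContDiff ℝ 1 (pd j φ) := h1.clm_apply contDiff_const
  exact h2.differentiable (by norm_num)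

private lemma sec_quad {φ : Vec d → ℝ} (hφ : ContDiff ℝ 2 φ) {v : Vec d}
    (hmax : ∀ w, φ w ≤ φ v) (w : Vec d) :
    ∑ i, ∑ j, w i * w j * pd i (pd j φ) v ≤ 0 := by
  have hd : Differentiable ℝ φ := hφ.differentiable (by norm_num)
  have hG : ∀ t : ℝ, HasDerivAt (fun t : ℝ => φ (v + t • w)) (∑ j, w j * pd j φ (v + t • w)) t :=
    fun t => sec_line (hd _)
  have hG2 : HasDerivAt (fun t : ℝ => ∑ j, w j * pd j φ (v + t • w))
      (∑ i, ∑ j, w i * w j * pd i (pd j φ) v) 0 := by
    have h := HasDerivAt.fun_sum (u := (Finset.univ : Finset (Fin d)))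
      (A := fun j (t : ℝ) => w j * pd j φ (v + t • w))
      (A' := fun j => w j * ∑ i, w i * pd i (pd j φ) (v + (0 : ℝ) • w)) (x := 0)
      fun j _ => (sec_line (v := v) (w := w) (t := 0) (sec_diff hφ j _)).const_mul (w j)
    refine h.congr_deriv ?_
    rw [Finset.sum_comm]
    refine Finset.sum_congr rfl fun j _ => ?_
    rw [Finset.mul_sum]
    refine Finset.sum_congr rfl fun i _ => ?_
    rw [zero_smul, add_zero]
    ring
  refine sec_test hG hG2 fun t => ?_
  simpa using hmax (v + t • w)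

theorem ctr_nonpos (h1 : -2 < γ) (h2 : γ ≤ 0) {g : Vec d → ℝ} (hg : Nice g) (h0 : ∀ v, 0 ≤ g v)
    {φ : Vec d → ℝ} (hφ : ContDiff ℝ 2 φ) {v : Vec d} (hmax : ∀ w, φ w ≤ φ v) :
    ctr γ g φ v ≤ 0 := by
  have hq : ∀ z : Vec d, ∑ i, ∑ j, landauA γ z i j * pd i (pd j φ) v ≤ 0 := by
    intro z
    have h := Pool.Agent.H82.LK.landauA_quad (M := fun i j => pd i (pd j φ) v) (c := 0) le_rfl
      (fun w => by simpa using sec_quad hφ hmax w) γ z
    simpa using h
  have hi : ∀ i j, Integrable fun z => landauA γ z i j * pd i (pd j φ) v * g (v - z) := by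
    intro i j
    have h3 := ((kern_landauA (d := d) h1 h2 i j).integrable hg.cont hg.rd v).const_mul
      (pd i (pd j φ) v)
    refine h3.congr (Eventually.of_forall fun z => ?_)
    simp only [smul_eq_mul]
    ring
  have e : ∀ i j, ab γ g i j v * pd i (pd j φ) v =
      ∫ z, landauA γ z i j * pd i (pd j φ) v * g (v - z) := by
    intro i j
    unfold ab conv
    rw [← integral_mul_const]
    refine integral_congr_ae (Eventually.of_forall fun z => ?_)
    simp only [smul_eq_mul]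
    ring
  have hsum : ctr γ g φ v =
      ∫ z, (∑ i, ∑ j, landauA γ z i j * pd i (pd j φ) v) * g (v - z) := by
    unfold ctr
    rw [Finset.sum_congr rfl fun i _ => Finset.sum_congr rfl fun j _ => e i j]
    have e2 : ∀ z, (∑ i, ∑ j, landauA γ z i j * pd i (pd j φ) v) * g (v - z) =
        ∑ i, ∑ j, landauA γ z i j * pd i (pd j φ) v * g (v - z) := by
      intro z
      rw [Finset.sum_mul]
      exact Finset.sum_congr rfl fun i _ => Finset.sum_mul _ _ _
    rw [integral_congr_ae (Eventually.of_forall e2),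
      integral_finsetSum _ fun i _ => integrable_finsetSum _ fun j _ => hi i j]
    exact Finset.sum_congr rfl fun i _ => (integral_finsetSum _ fun j _ => hi i j).symm
  rw [hsum]
  exact integral_nonpos fun z => mul_nonpos_of_nonpos_of_nonneg (hq z) (h0 _)

private lemma sec_pd_sub {φ ψ : Vec d → ℝ} (hφ : Differentiable ℝ φ) (hψ : Differentiable ℝ ψ)
    (j : Fin d) : pd j (fun w => φ w - ψ w) = fun w => pd j φ w - pd j ψ w := by
  funext w
  unfold pd
  have h : fderiv ℝ (fun w => φ w - ψ w) w = fderiv ℝ φ w - fderiv ℝ ψ w :=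
    ((hφ w).hasFDerivAt.sub (hψ w).hasFDerivAt).fderiv
  rw [h]
  rfl

private lemma sec_pd_smul {φ : Vec d → ℝ} (hφ : Differentiable ℝ φ) (c : ℝ)
    (j : Fin d) : pd j (fun w => c * φ w) = fun w => c * pd j φ w := by
  funext w
  unfold pd
  have h : fderiv ℝ (fun w => c * φ w) w = c • fderiv ℝ φ w :=
    ((hφ w).hasFDerivAt.const_mul c).fderiv
  rw [h]
  rfl

theorem ctr_sub (g : Vec d → ℝ) {φ ψ : Vec d → ℝ} (hφ : ContDiff ℝ 2 φ) (hψ : ContDiff ℝ 2 ψ)
    (v : Vec d) : ctr γ g (fun w => φ w - ψ w) v = ctr γ g φ v - ctr γ g ψ v := by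
  unfold ctr
  rw [← Finset.sum_sub_distrib]
  refine Finset.sum_congr rfl fun i _ => ?_
  rw [← Finset.sum_sub_distrib]
  refine Finset.sum_congr rfl fun j _ => ?_
  rw [sec_pd_sub (hφ.differentiable (by norm_num)) (hψ.differentiable (by norm_num)),
    sec_pd_sub (sec_diff hφ j) (sec_diff hψ j)]
  ring

theorem ctr_smul (g : Vec d → ℝ) {φ : Vec d → ℝ} (hφ : ContDiff ℝ 2 φ) (c : ℝ) (v : Vec d) :
    ctr γ g (fun w => c * φ w) v = c * ctr γ g φ v := by
  unfold ctr
  rw [Finset.mul_sum]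
  refine Finset.sum_congr rfl fun i _ => ?_
  rw [Finset.mul_sum]
  refine Finset.sum_congr rfl fun j _ => ?_
  rw [sec_pd_smul (hφ.differentiable (by norm_num)), sec_pd_smul (sec_diff hφ j)]
  ring

end Pool.Agent.H48.LN
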