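import Pool.Agent.H48.LN.Defs

/-!
# Module AbH: Hölder continuity of the diffusion matrix, constants: mass and energy

`aH_pt`: let `δ = len (y - z) ≤ 1`, `θ = min 1 (γ+2)`; without loss `len z ≤ len y` (symmetric statement: prove the bound with the larger one), so `len y ≥ δ/2`. `a_ij(y) - a_ij(z) = (P y - P z) |y|^γ + P z (|y|^γ - |z|^γ)`, `P z = δ_ij nsq z - z_i z_j`, `|P z| ≤ nsq z`, `|P y - P z| ≤ 4 δ len y`. First term `≤ 4 δ |y|^(γ+1)`. Second term (`z ≠ 0`): `nsq z (|z|^γ - |y|^γ) = |z|^(γ+2) (1 - s^(-γ))`, `s = |z|/|y| ∈ [0,1]`, `s^(-γ) ≥ s²` (`0 ≤ -γ ≤ 2`), `1 - s² ≤ 2 (1-s) ≤ 2 δ/|y|`, so `≤ 2 δ |y|^(γ+1)`.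
`δ |y|^(γ+1)`: if `γ + 1 ≥ 0`: `≤ δ (1 + |y|) ≤ δ (2 + |z|)`, `θ = 1`; if `γ + 1 < 0`: `≤ δ (δ/2)^(γ+1) ≤ 2 δ^(γ+2)`, `θ = γ+2`. In both cases `≤ 4 δ^θ (1 + nsq z)`, the sum is `≤ 24 δ^θ (1 + nsq z)`, and the same with `nsq y` by symmetry of the roles (`1 + nsq y ≤ 4 (1 + nsq z)`).
`abH`: integrate with `g`: `ab g i j v - ab g i j w = ∫ (a_ij(v - u) - a_ij(w - u)) g(u) du`, `1 + nsq (v - u) ≤ 2 (1+nsq v)(1+nsq u)`.
-/

set_option autoImplicit false

open MeasureTheory Set Filter Topology Pool.Agent.H25.Kin Pool.Agent.H48.PR Pool.Agent.H48.NE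
open Pool.Agent.H48.PD (FB)
open Pool.Agent.H15.AV (ab)

namespace Pool.Agent.H48.LN

variable {d : ℕ} {γ : ℝ}

private lemma abH_dot (u v : Vec d) : |dot u v| ≤ len u * len v := by
  refine abs_le_of_sq_le_sq ?_ (mul_nonneg (len_nonneg u) (len_nonneg v))
  rw [mul_pow, len_sq, len_sq]
  exact Finset.sum_mul_sq_le_sq_mul_sq Finset.univ u v

private lemma abH_add (u v : Vec d) : len (u + v) ≤ len u + len v := by
  have hu := len_nonneg u
  have hv := len_nonneg v
  have h1 := (abs_le.1 (abH_dot u v)).2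
  have e : nsq (u + v) = nsq u + 2 * dot u v + nsq v := by
    unfold nsq dot
    rw [Finset.mul_sum, ← Finset.sum_add_distrib, ← Finset.sum_add_distrib]
    refine Finset.sum_congr rfl fun i _ => ?_
    simp only [Pi.add_apply]
    ring
  refine (abs_le_of_sq_le_sq' ?_ (add_nonneg hu hv)).2
  rw [len_sq, e, ← len_sq u, ← len_sq v]
  have : (len u + len v) ^ 2 = len u ^ 2 + 2 * (len u * len v) + len v ^ 2 := by ring
  rw [this]
  linarith

private lemma abH_sym (u v : Vec d) : len (u - v) = len (v - u) := by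
  unfold len nsq
  congr 1
  refine Finset.sum_congr rfl fun i _ => ?_
  simp only [Pi.sub_apply]
  ring

private lemma abH_coord (z : Vec d) (i : Fin d) : |z i| ≤ len z := by
  refine abs_le_of_sq_le_sq ?_ (len_nonneg z)
  rw [len_sq]
  exact Finset.single_le_sum (f := fun k => (z k) ^ 2) (fun k _ => sq_nonneg _)
    (Finset.mem_univ i)

private lemma abH_pow (γ : ℝ) {b : ℝ} (hb : 0 ≤ b) : (b ^ 2) ^ (γ / 2) = b ^ γ := by
  rw [← Real.rpow_natCast b 2, ← Real.rpow_mul hb]
  congr 1
  push_cast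
  ring

private lemma abH_P1 (z : Vec d) (i j : Fin d) :
    |(if i = j then nsq z else 0) - z i * z j| ≤ len z ^ 2 := by
  rw [len_sq]
  by_cases h : i = j
  · subst h
    rw [if_pos rfl]
    have h1 : z i ^ 2 ≤ nsq z :=
      Finset.single_le_sum (f := fun k => (z k) ^ 2) (fun k _ => sq_nonneg _)
        (Finset.mem_univ i)
    have h2 := sq_nonneg (z i)
    have h3 := sq_nonneg' z
    rw [abs_le]
    constructor
    · linarith [show z i * z i = z i ^ 2 by ring]
    · linarith [show z i * z i = z i ^ 2 by ring]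
  · rw [if_neg h, zero_sub, abs_neg, abs_mul, ← len_sq, sq]
    exact mul_le_mul (abH_coord z i) (abH_coord z j) (abs_nonneg _) (len_nonneg z)

private lemma abH_P2 {y z : Vec d} (h : len z ≤ len y) (i j : Fin d) :
    |((if i = j then nsq y else 0) - y i * y j) - ((if i = j then nsq z else 0) - z i * z j)| ≤
      4 * len (y - z) * len y := by
  have hy := len_nonneg y
  have hz := len_nonneg z
  have hd := len_nonneg (y - z)
  have h1 : len y - len z ≤ len (y - z) := by
    have := abH_add (y - z) z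
    rw [sub_add_cancel] at this
    linarith
  have h2 : |(if i = j then nsq y else 0) - (if i = j then nsq z else 0)| ≤
      2 * len (y - z) * len y := by
    by_cases hij : i = j
    · rw [if_pos hij, if_pos hij, ← len_sq, ← len_sq]
      have e : len y ^ 2 - len z ^ 2 = (len y - len z) * (len y + len z) := by ring
      rw [e, abs_of_nonneg (mul_nonneg (by linarith) (by linarith))]
      calc (len y - len z) * (len y + len z) ≤ len (y - z) * (2 * len y) :=
            mul_le_mul h1 (by linarith) (by linarith) hd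
        _ = _ := by ring
    · rw [if_neg hij, if_neg hij, sub_zero, abs_zero]
      exact mul_nonneg (mul_nonneg (by norm_num) hd) hy
  have h3 : |y i * y j - z i * z j| ≤ 2 * len (y - z) * len y := by
    have e : y i * y j - z i * z j = y i * (y - z) j + (y - z) i * z j := by
      simp only [Pi.sub_apply]
      ring
    rw [e]
    refine (abs_add_le _ _).trans ?_
    rw [abs_mul, abs_mul]
    have a1 : |y i| * |(y - z) j| ≤ len y * len (y - z) :=
      mul_le_mul (abH_coord y i) (abH_coord _ j) (abs_nonneg _) hy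
    have a2 : |(y - z) i| * |z j| ≤ len (y - z) * len y :=
      mul_le_mul (abH_coord _ i) ((abH_coord z j).trans h) (abs_nonneg _) hd
    linarith [show 2 * len (y - z) * len y = len y * len (y - z) + len (y - z) * len y by ring]
  have e : ((if i = j then nsq y else 0) - y i * y j) - ((if i = j then nsq z else 0) - z i * z j)
      = ((if i = j then nsq y else 0) - (if i = j then nsq z else 0)) -
        (y i * y j - z i * z j) := by ring
  rw [e]
  refine (abs_sub _ _).trans ?_
  linarith [show 4 * len (y - z) * len y = 2 * len (y - z) * len y + 2 * len (y - z) * len y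
    by ring]

private lemma abH_core {a b δ : ℝ} (h1 : -2 < γ) (h2 : γ ≤ 0) (ha : 0 < a) (hb : 0 ≤ b)
    (hba : b ≤ a) (hδ : a - b ≤ δ) : b ^ 2 * |a ^ γ - b ^ γ| ≤ 2 * δ * a ^ (γ + 1) := by
  have hδ0 : 0 ≤ δ := by linarith
  have hap : 0 < a ^ (γ + 1) := Real.rpow_pos_of_pos ha _
  rcases hb.eq_or_lt with h0 | hb0
  · rw [← h0]
    have : (0 : ℝ) ^ 2 = 0 := by norm_num
    rw [this, zero_mul]
    exact mul_nonneg (mul_nonneg (by norm_num) hδ0) hap.le
  have hmono : a ^ γ ≤ b ^ γ := Real.rpow_le_rpow_of_nonpos hb0 hba h2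
  rw [abs_sub_comm, abs_of_nonneg (by linarith)]
  have e1 : b ^ 2 * b ^ γ = b ^ (γ + 2) := by
    rw [← Real.rpow_natCast b 2, ← Real.rpow_add hb0]
    congr 1
    push_cast
    ring
  set s : ℝ := b / a with hs
  have hs0 : 0 < s := div_pos hb0 ha
  have hs1 : s ≤ 1 := (div_le_one ha).2 hba
  have e2 : a ^ γ = b ^ γ * s ^ (-γ) := by
    rw [hs, Real.rpow_neg (by positivity), Real.div_rpow hb ha.le]
    have : (b ^ γ : ℝ) ≠ 0 := (Real.rpow_pos_of_pos hb0 _).ne'
    field_simp
  have e3 : s ^ 2 ≤ s ^ (-γ) := by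
    rw [← Real.rpow_natCast s 2]
    refine Real.rpow_le_rpow_of_exponent_ge hs0 hs1 ?_
    push_cast
    linarith
  have e4 : 1 - s ^ (-γ) ≤ 2 * (1 - s) := by
    have : (1 - s) ^ 2 ≥ 0 := sq_nonneg _
    linarith [show (1 - s) ^ 2 = 1 - 2 * s + s ^ 2 by ring]
  have e5 : 1 - s = (a - b) / a := by
    rw [hs]
    field_simp
  have e6 : a ^ (γ + 2) = a ^ (γ + 1) * a := by
    rw [← Real.rpow_add_one ha.ne']
    congr 1
    ring
  calc b ^ 2 * (b ^ γ - a ^ γ) = b ^ (γ + 2) * (1 - s ^ (-γ)) := by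
        rw [e2, ← e1]
        ring
    _ ≤ b ^ (γ + 2) * (2 * (1 - s)) :=
        mul_le_mul_of_nonneg_left e4 (Real.rpow_nonneg hb _)
    _ ≤ a ^ (γ + 2) * (2 * (1 - s)) :=
        mul_le_mul_of_nonneg_right (Real.rpow_le_rpow hb hba (by linarith)) (by linarith)
    _ = 2 * (a - b) * a ^ (γ + 1) := by
        rw [e6, e5]
        field_simp
    _ ≤ 2 * δ * a ^ (γ + 1) :=
        mul_le_mul_of_nonneg_right (by linarith) hap.le

private lemma abH_half {a δ : ℝ} (h1 : -2 < γ) (h2 : γ ≤ 0) (ha : 0 < a) (hδ : 0 < δ)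
    (hδ1 : δ ≤ 1) (hδa : δ ≤ 2 * a) :
    δ * a ^ (γ + 1) ≤ 2 * δ ^ min 1 (γ + 2) * (1 + a) := by
  rcases le_or_gt 0 (γ + 1) with h | h
  · rw [min_eq_left (by linarith), Real.rpow_one]
    have h3 : a ^ (γ + 1) ≤ 1 + a := by
      rcases le_or_gt a 1 with h4 | h4
      · exact (Real.rpow_le_one ha.le h4 h).trans (by linarith)
      · have := Real.rpow_le_rpow_of_exponent_le h4.le (show γ + 1 ≤ 1 by linarith)
        rw [Real.rpow_one] at this
        linarith
    calc δ * a ^ (γ + 1) ≤ δ * (1 + a) := mul_le_mul_of_nonneg_left h3 hδ.le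
      _ ≤ 2 * δ * (1 + a) := by
        have : 0 ≤ δ * (1 + a) := mul_nonneg hδ.le (by linarith)
        linarith [show 2 * δ * (1 + a) = 2 * (δ * (1 + a)) by ring]
  · rw [min_eq_right (by linarith)]
    have h3 : a ^ (γ + 1) ≤ (δ / 2) ^ (γ + 1) :=
      Real.rpow_le_rpow_of_nonpos (by linarith) (by linarith) h.le
    have h4 : (δ / 2) ^ (γ + 1) ≤ 2 * δ ^ (γ + 1) := by
      rw [Real.div_rpow hδ.le (by norm_num), div_le_iff₀ (Real.rpow_pos_of_pos (by norm_num) _)]
      have h5 : (1 : ℝ) ≤ 2 * 2 ^ (γ + 1) := by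
        have e : (2 : ℝ) * 2 ^ (γ + 1) = 2 ^ (γ + 2) := by
          rw [mul_comm, ← Real.rpow_add_one (by norm_num)]
          congr 1
          ring
        rw [e]
        exact Real.one_le_rpow (by norm_num) (by linarith)
      have h6 : 0 ≤ δ ^ (γ + 1) := Real.rpow_nonneg hδ.le _
      calc δ ^ (γ + 1) = δ ^ (γ + 1) * 1 := by ring
        _ ≤ δ ^ (γ + 1) * (2 * 2 ^ (γ + 1)) := mul_le_mul_of_nonneg_left h5 h6
        _ = _ := by ring
    have e : δ * δ ^ (γ + 1) = δ ^ (γ + 2) := by
      rw [mul_comm, ← Real.rpow_add_one hδ.ne']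
      congr 1
      ring
    have h7 : 0 ≤ δ ^ (γ + 2) := Real.rpow_nonneg hδ.le _
    calc δ * a ^ (γ + 1) ≤ δ * (2 * δ ^ (γ + 1)) :=
          mul_le_mul_of_nonneg_left (h3.trans h4) hδ.le
      _ = 2 * δ ^ (γ + 2) := by rw [← e]; ring
      _ ≤ 2 * δ ^ (γ + 2) * (1 + a) := by
        have : 0 ≤ δ ^ (γ + 2) * a := mul_nonneg h7 ha.le
        linarith [show 2 * δ ^ (γ + 2) * (1 + a) = 2 * δ ^ (γ + 2) + 2 * (δ ^ (γ + 2) * a) by ring]

private lemma abH_ord (h1 : -2 < γ) (h2 : γ ≤ 0) (i j : Fin d) {y z : Vec d}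
    (h : len (y - z) ≤ 1) (hyz : len z ≤ len y) :
    |landauA γ y i j - landauA γ z i j| ≤
      12 * len (y - z) ^ min 1 (γ + 2) * (1 + len y) := by
  have hy := len_nonneg y
  have hz := len_nonneg z
  have hd := len_nonneg (y - z)
  have hpow : 0 ≤ len (y - z) ^ min 1 (γ + 2) := Real.rpow_nonneg hd _
  have hR : 0 ≤ 12 * len (y - z) ^ min 1 (γ + 2) * (1 + len y) :=
    mul_nonneg (mul_nonneg (by norm_num) hpow) (by linarith)
  rcases hd.eq_or_lt with h0 | hd0
  · have hyz' : y = z := by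
      ext k
      have := abH_coord (y - z) k
      rw [← h0] at this
      have h3 := abs_eq_zero.1 (le_antisymm this (abs_nonneg _))
      simp only [Pi.sub_apply] at h3
      linarith
    rw [hyz', sub_self, abs_zero]
    rw [hyz'] at hR
    exact hR
  have h3 : len y - len z ≤ len (y - z) := by
    have := abH_add (y - z) z
    rw [sub_add_cancel] at this
    linarith
  have h4 : len (y - z) ≤ 2 * len y := by
    have := abH_add y (-z)
    have e : len (-z) = len z := by
      have := abH_sym 0 z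
      rw [zero_sub, sub_zero] at this
      exact this
    rw [e, ← sub_eq_add_neg] at this
    linarith
  have hy0 : 0 < len y := by linarith
  have hy1 : 0 < len y ^ (γ + 1) := Real.rpow_pos_of_pos hy0 _
  unfold landauA
  have ey : nsq y ^ (γ / 2) = len y ^ γ := by rw [← len_sq, abH_pow γ hy]
  have ez : nsq z ^ (γ / 2) = len z ^ γ := by rw [← len_sq, abH_pow γ hz]
  rw [ey, ez]
  have e : ((if i = j then nsq y else 0) - y i * y j) * len y ^ γ -
      ((if i = j then nsq z else 0) - z i * z j) * len z ^ γ =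
      (((if i = j then nsq y else 0) - y i * y j) - ((if i = j then nsq z else 0) - z i * z j)) *
        len y ^ γ + ((if i = j then nsq z else 0) - z i * z j) * (len y ^ γ - len z ^ γ) := by
    ring
  rw [e]
  have b1 : |(((if i = j then nsq y else 0) - y i * y j) -
      ((if i = j then nsq z else 0) - z i * z j)) * len y ^ γ| ≤
      4 * len (y - z) * len y ^ (γ + 1) := by
    rw [abs_mul, abs_of_nonneg (Real.rpow_nonneg hy γ)]
    calc _ ≤ 4 * len (y - z) * len y * len y ^ γ :=
          mul_le_mul_of_nonneg_right (abH_P2 hyz i j) (Real.rpow_nonneg hy γ)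
      _ = 4 * len (y - z) * len y ^ (γ + 1) := by
          rw [Real.rpow_add_one hy0.ne']
          ring
  have b2 : |((if i = j then nsq z else 0) - z i * z j) * (len y ^ γ - len z ^ γ)| ≤
      2 * len (y - z) * len y ^ (γ + 1) := by
    rw [abs_mul]
    exact (mul_le_mul_of_nonneg_right (abH_P1 z i j) (abs_nonneg _)).trans
      (abH_core h1 h2 hy0 hz hyz h3)
  have b3 := abH_half h1 h2 hy0 hd0 h h4
  refine (abs_add_le _ _).trans ?_
  have b4 : 4 * len (y - z) * len y ^ (γ + 1) + 2 * len (y - z) * len y ^ (γ + 1) =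
      6 * (len (y - z) * len y ^ (γ + 1)) := by ring
  linarith [show 12 * len (y - z) ^ min 1 (γ + 2) * (1 + len y) =
    6 * (2 * len (y - z) ^ min 1 (γ + 2) * (1 + len y)) by ring]

theorem aH_pt (h1 : -2 < γ) (h2 : γ ≤ 0) (i j : Fin d) (y z : Vec d) (h : len (y - z) ≤ 1) :
    |landauA γ y i j - landauA γ z i j| ≤ 96 * len (y - z) ^ min 1 (γ + 2) * (1 + nsq z) := by
  have hy := len_nonneg y
  have hz := len_nonneg z
  have hd := len_nonneg (y - z)
  have hpow : 0 ≤ len (y - z) ^ min 1 (γ + 2) := Real.rpow_nonneg hd _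
  have hzz : len z ≤ 1 + nsq z := by
    rw [← len_sq]
    have := sq_nonneg (len z - 1)
    have h3 := sq_nonneg (len z)
    linarith [show (len z - 1) ^ 2 = len z ^ 2 - 2 * len z + 1 by ring]
  have hn := sq_nonneg' z
  rcases le_total (len z) (len y) with h3 | h3
  · have h4 := abH_ord h1 h2 i j h h3
    have h5 : len y ≤ 1 + len z := by
      have := abH_add (y - z) z
      rw [sub_add_cancel] at this
      linarith
    refine h4.trans ?_
    calc 12 * len (y - z) ^ min 1 (γ + 2) * (1 + len y)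
        ≤ 12 * len (y - z) ^ min 1 (γ + 2) * (8 * (1 + nsq z)) :=
          mul_le_mul_of_nonneg_left (by linarith) (mul_nonneg (by norm_num) hpow)
      _ = _ := by ring
  · rw [abH_sym] at h
    have h4 := abH_ord h1 h2 i j h h3
    rw [abs_sub_comm, abH_sym y z]
    rw [abH_sym] at hpow
    refine h4.trans ?_
    calc 12 * len (z - y) ^ min 1 (γ + 2) * (1 + len z)
        ≤ 12 * len (z - y) ^ min 1 (γ + 2) * (8 * (1 + nsq z)) :=
          mul_le_mul_of_nonneg_left (by linarith) (mul_nonneg (by norm_num) hpow)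
      _ = _ := by ring

theorem abH (h1 : -2 < γ) (h2 : γ ≤ 0) {g : Vec d → ℝ} (hg : Nice g) (h0 : ∀ v, 0 ≤ g v)
    (i j : Fin d) (v w : Vec d) (h : len (v - w) ≤ 1) : |ab γ g i j v - ab γ g i j w| ≤
      192 * len (v - w) ^ min 1 (γ + 2) * (1 + nsq v) * ∫ z, g z * (1 + nsq z) := by
  have hlen := len_nonneg (v - w)
  have hpow : 0 ≤ len (v - w) ^ min 1 (γ + 2) := Real.rpow_nonneg hlen _
  have hI : ∀ v : Vec d, Integrable fun u => landauA γ (v - u) i j * g u := by
    intro v
    have h3 := (kern_landauA (d := d) h1 h2 i j).integrable hg.cont hg.rd v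
    simp only [smul_eq_mul] at h3
    have h4 := h3.comp_sub_left v
    simp only [sub_sub_cancel] at h4
    exact h4
  have hE : ∀ v : Vec d, ab γ g i j v = ∫ u, landauA γ (v - u) i j * g u := by
    intro v
    unfold Pool.Agent.H15.AV.ab conv
    rw [← integral_sub_left_eq_self (fun u => landauA γ (v - u) i j * g u) volume v]
    simp only [sub_sub_cancel, smul_eq_mul]
  have hG : Integrable fun z => g z * (1 + nsq z) := by
    have h3 : RD fun z : Vec d => g z * (1 + nsq z) :=
      hg.rd.mul_PG ((PG.const (1 : ℝ)).add PG.nsq)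
    exact h3.integrable (hg.cont.mul (continuous_const.add continuous_sq)).aestronglyMeasurable
  rw [hE v, hE w, ← integral_sub (hI v) (hI w)]
  have hb : ∀ u, |landauA γ (v - u) i j * g u - landauA γ (w - u) i j * g u| ≤
      192 * len (v - w) ^ min 1 (γ + 2) * (1 + nsq v) * (g u * (1 + nsq u)) := by
    intro u
    have e0 : (w - u) - (v - u) = w - v := by
      ext k
      simp
    have h3 := aH_pt h1 h2 i j (w - u) (v - u) (by rw [e0, abH_sym]; exact h)
    rw [e0, abH_sym w v, abs_sub_comm] at h3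
    have h4 : 1 + nsq (v - u) ≤ 2 * ((1 + nsq v) * (1 + nsq u)) := by
      have h5 : nsq (v - u) ≤ 2 * nsq v + 2 * nsq u := by
        unfold nsq
        rw [Finset.mul_sum, Finset.mul_sum, ← Finset.sum_add_distrib]
        refine Finset.sum_le_sum fun k _ => ?_
        simp only [Pi.sub_apply]
        have := sq_nonneg (v k + u k)
        linarith [show (v k - u k) ^ 2 + (v k + u k) ^ 2 = 2 * v k ^ 2 + 2 * u k ^ 2 by ring]
      have h6 : 0 ≤ nsq v * nsq u := mul_nonneg (sq_nonneg' v) (sq_nonneg' u)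
      linarith [show 2 * ((1 + nsq v) * (1 + nsq u)) = 2 + 2 * nsq v + 2 * nsq u +
        2 * (nsq v * nsq u) by ring]
    rw [← sub_mul, abs_mul, abs_of_nonneg (h0 u)]
    calc |landauA γ (v - u) i j - landauA γ (w - u) i j| * g u
        ≤ 96 * len (v - w) ^ min 1 (γ + 2) * (1 + nsq (v - u)) * g u :=
          mul_le_mul_of_nonneg_right h3 (h0 u)
      _ ≤ 96 * len (v - w) ^ min 1 (γ + 2) * (2 * ((1 + nsq v) * (1 + nsq u))) * g u :=
          mul_le_mul_of_nonneg_right (mul_le_mul_of_nonneg_left h4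
            (mul_nonneg (by norm_num) hpow)) (h0 u)
      _ = _ := by ring
  calc |∫ u, (landauA γ (v - u) i j * g u - landauA γ (w - u) i j * g u)|
      ≤ ∫ u, |landauA γ (v - u) i j * g u - landauA γ (w - u) i j * g u| :=
        abs_integral_le_integral_abs
    _ ≤ ∫ u, 192 * len (v - w) ^ min 1 (γ + 2) * (1 + nsq v) * (g u * (1 + nsq u)) :=
        integral_mono ((hI v).sub (hI w)).abs (hG.const_mul _) hb
    _ = _ := integral_const_mul _ _

end Pool.Agent.H48.LN
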