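import Pool.Agent.H48.LN.Defs

/-!
# Module AbU: upper bound of the diffusion matrix by mass and energy

`|a_ij(z)| ≤ nsq z · nsq z^(γ/2) ≤ 1 + nsq z` (`0 ≤ 1 + γ/2 ≤ 1`; `landauA_le` or directly: `|z_i z_j| ≤ nsq z/2` for `i ≠ j`, `0 ≤ nsq z - z_i² ≤ nsq z`), `1 + nsq (v - w) ≤ 2 (1+nsq v)(1+nsq w)`, substitution `z = v - w`; the dominating function `w ↦ g w (1 + nsq w)` is integrable for `Nice g`.
-/

set_option autoImplicit false

open MeasureTheory Set Filter Topology Pool.Agent.H25.Kin Pool.Agent.H48.PR Pool.Agent.H48.NE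
open Pool.Agent.H48.PD (FB)
open Pool.Agent.H15.AV (ab)

namespace Pool.Agent.H48.LN

variable {d : ℕ} {γ : ℝ}

private theorem AbU_pt (h1 : -2 < γ) (h2 : γ ≤ 0) (z : Vec d) (i j : Fin d) :
    |landauA γ z i j| ≤ 1 + nsq z := by
  refine le_trans ?_ (sq_rpow_le h1 h2 z)
  unfold landauA
  rw [abs_mul, abs_of_nonneg (Real.rpow_nonneg (sq_nonneg' z) _)]
  refine mul_le_mul_of_nonneg_right ?_ (Real.rpow_nonneg (sq_nonneg' z) _)
  by_cases h : i = j
  · subst h
    rw [if_pos rfl]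
    have h3 : z i ^ 2 ≤ nsq z := Finset.single_le_sum (f := fun i => z i ^ 2) (fun i _ => sq_nonneg _)
      (Finset.mem_univ i)
    have h4 : 0 ≤ z i * z i := mul_self_nonneg _
    rw [abs_of_nonneg (by nlinarith)]
    linarith
  · rw [if_neg h, zero_sub, abs_neg]
    exact coord_mul_le z i j

private theorem AbU_nsq (v w : Vec d) : nsq (v - w) ≤ 2 * nsq v + 2 * nsq w := by
  unfold nsq
  rw [Finset.mul_sum, Finset.mul_sum, ← Finset.sum_add_distrib]
  refine Finset.sum_le_sum fun i _ => ?_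
  rw [Pi.sub_apply]
  nlinarith [sq_nonneg (v i + w i)]

theorem abU (h1 : -2 < γ) (h2 : γ ≤ 0) {g : Vec d → ℝ} (hg : Nice g) (h0 : ∀ v, 0 ≤ g v)
    (i j : Fin d) (v : Vec d) : |ab γ g i j v| ≤ 2 * (1 + nsq v) * ∫ w, g w * (1 + nsq w) := by
  have hPG : PG (fun w : Vec d => 1 + nsq w) := by
    refine ⟨2, d + 1, fun z => ?_⟩
    rw [Real.norm_of_nonneg (by linarith [sq_nonneg' z])]
    exact one_add_sq_le z
  have hc : Continuous fun w : Vec d => g w * (1 + nsq w) := by
    refine hg.cont.mul (continuous_const.add ?_)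
    unfold nsq
    fun_prop
  have hI : Integrable fun w : Vec d => g w * (1 + nsq w) :=
    (hg.rd.mul_PG hPG).integrable hc.aestronglyMeasurable
  have hI2 : Integrable fun z : Vec d => 2 * (1 + nsq v) * (g (v - z) * (1 + nsq (v - z))) :=
    (hI.comp_sub_left v).const_mul _
  have hp : ∀ z : Vec d, ‖landauA γ z i j • g (v - z)‖ ≤
      2 * (1 + nsq v) * (g (v - z) * (1 + nsq (v - z))) := by
    intro z
    rw [smul_eq_mul, norm_mul, Real.norm_of_nonneg (h0 _), Real.norm_eq_abs]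
    have h3 := AbU_pt h1 h2 z i j
    have h4 : nsq z ≤ 2 * nsq v + 2 * nsq (v - z) := by
      have := AbU_nsq v (v - z)
      rwa [sub_sub_cancel] at this
    have h5 := sq_nonneg' v
    have h6 := sq_nonneg' (v - z)
    have h7 : |landauA γ z i j| ≤ 2 * (1 + nsq v) * (1 + nsq (v - z)) := by
      nlinarith [mul_nonneg h5 h6]
    calc |landauA γ z i j| * g (v - z) ≤ 2 * (1 + nsq v) * (1 + nsq (v - z)) * g (v - z) :=
          mul_le_mul_of_nonneg_right h7 (h0 _)
      _ = _ := by ring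
  have h8 := norm_integral_le_of_norm_le hI2 (Eventually.of_forall hp)
  rw [Real.norm_eq_abs, integral_const_mul,
    integral_sub_left_eq_self (fun w : Vec d => g w * (1 + nsq w)) volume v] at h8
  exact h8

end Pool.Agent.H48.LN
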