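import Pool.Agent.H48.LN.LenI

/-!
# Module Bd: bounds of the coefficients, linear in the function

`landauA_le` (H15/AV/LCo or H25/Kin: `|a_ij(z)| ≤ 2 nsq z nsq z^(γ/2)`, `≤ 2 (1 + nsq z)` since `γ + 2 ∈ [0,2]`), `1 + nsq (v - w) ≤ 2 (1+nsq v)(1+nsq w)` (`one_add_sq_sub_le`), `∫ (1+nsq w) Wp q w dw = ∫ Wp (q-1) < ∞` (`q - 1 ≥ d + 1`). Substitution `z ↦ v - z`. `ab_sub`, `cb_sub`: linearity of the integral, both sides integrable (continuous times kernel, dominated as above; `len_loc` for `cb`). `C ≥ 0` because `0 ≤ |g 0| ≤ C`.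
`cb_nn`: `d - 1 ≥ 0`, `d + γ ≥ 0`.
-/

set_option autoImplicit false

open MeasureTheory Set Filter Topology Pool.Agent.H25.Kin Pool.Agent.H48.PR Pool.Agent.H48.NE
open Pool.Agent.H48.PD (FB)
open Pool.Agent.H15.AV (ab)

namespace Pool.Agent.H48.LN

variable {d : ℕ} {γ : ℝ}

/-- the weights are integrable -/
private lemma Bd_Wint {q : ℕ} (hq : d + 1 ≤ 2 * q) : Integrable (Wp q : Vec d → ℝ) := by
  refine Integrable.mono' ((integrable_wt (d := d)).const_mul ((2 : ℝ) ^ q))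
    (Wp_cont q).aestronglyMeasurable (Eventually.of_forall fun v => ?_)
  have hn := norm_nonneg v
  have h1 : (1 + ‖v‖) ^ 2 ≤ 2 * (1 + nsq v) := by
    have := norm_sq_le_sq v
    nlinarith [sq_nonneg (1 - ‖v‖)]
  have h2 : (1 + ‖v‖) ^ (d + 1) ≤ 2 ^ q * (1 + nsq v) ^ q := by
    calc (1 + ‖v‖) ^ (d + 1) ≤ (1 + ‖v‖) ^ (2 * q) := pow_le_pow_right₀ (by linarith) hq
      _ = ((1 + ‖v‖) ^ 2) ^ q := pow_mul _ _ _
      _ ≤ (2 * (1 + nsq v)) ^ q := pow_le_pow_left₀ (by positivity) h1 q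
      _ = 2 ^ q * (1 + nsq v) ^ q := mul_pow _ _ _
  have h3 : 0 < (1 + nsq v) ^ q := by
    have := sq_nonneg' v
    positivity
  rw [Real.norm_of_nonneg (Wp_pos q v).le, Wp, wt, ← div_eq_mul_inv, ← one_div,
    div_le_div_iff₀ h3 (by positivity), one_mul]
  exact h2

private lemma Bd_C {q : ℕ} {C : ℝ} {g : Vec d → ℝ} (hg : CW q C g) : 0 ≤ C := by
  have h := (abs_nonneg _).trans (hg.le 0)
  have h1 := Wp_pos q (0 : Vec d)
  by_contra h2
  push Not at h2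
  nlinarith

private lemma Bd_one (q : ℕ) (hq : 1 ≤ q) (v : Vec d) : (1 + nsq v) * Wp q v = Wp (q - 1) v := by
  obtain ⟨k, rfl⟩ : ∃ k, q = k + 1 := ⟨q - 1, by omega⟩
  have h0 := sq_nonneg' v
  have h1 : (1 + nsq v) ≠ 0 := by positivity
  unfold Wp
  rw [Nat.add_sub_cancel, pow_succ, mul_inv]
  field_simp

private lemma Bd_pt (h1 : -2 < γ) (h2 : γ ≤ 0) {q : ℕ} (hq : d + 2 ≤ q) {C : ℝ} {g : Vec d → ℝ}
    (hg : CW q C g) (i j : Fin d) (v z : Vec d) :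
    ‖landauA γ z i j • g (v - z)‖ ≤ 4 * C * (1 + nsq v) * Wp (q - 1) (v - z) := by
  have hC := Bd_C hg
  have a1 := landauA_le' h1 h2 z i j
  have a2 := hg.le (v - z)
  have a3 := one_add_sq_sub_le v (v - z)
  rw [sub_sub_cancel] at a3
  have a4 := Wp_pos q (v - z)
  have a5 := Bd_one q (by omega) (v - z)
  rw [smul_eq_mul, Real.norm_eq_abs, abs_mul]
  calc |landauA γ z i j| * |g (v - z)| ≤ (2 * (1 + nsq z)) * (C * Wp q (v - z)) :=
        mul_le_mul a1 a2 (abs_nonneg _) (by have := sq_nonneg' z; positivity)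
    _ ≤ (2 * (2 * ((1 + nsq v) * (1 + nsq (v - z))))) * (C * Wp q (v - z)) := by
        gcongr
    _ = 4 * C * (1 + nsq v) * ((1 + nsq (v - z)) * Wp q (v - z)) := by ring
    _ = _ := by rw [a5]

private lemma Bd_dom {q : ℕ} (hq : d + 2 ≤ q) (v : Vec d) : Integrable fun z => Wp (q - 1) (v - z) :=
  (Bd_Wint (d := d) (q := q - 1) (by omega)).comp_sub_left v

private lemma Bd_ab_int (h1 : -2 < γ) (h2 : γ ≤ 0) {q : ℕ} (hq : d + 2 ≤ q) {C : ℝ} {g : Vec d → ℝ}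
    (hg : CW q C g) (i j : Fin d) (v : Vec d) : Integrable fun z => landauA γ z i j • g (v - z) := by
  refine Integrable.mono' ((Bd_dom hq v).const_mul (4 * C * (1 + nsq v))) ?_
    (Eventually.of_forall fun z => Bd_pt h1 h2 hq hg i j v z)
  exact (measurable_landauA γ i j).aestronglyMeasurable.smul
    (hg.cont.comp (continuous_const.sub continuous_id)).aestronglyMeasurable

private lemma Bd_len_meas (γ : ℝ) : Measurable fun z : Vec d => len z ^ γ := by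
  unfold len
  exact (Real.continuous_sqrt.comp continuous_sq).measurable.pow_const γ

private lemma Bd_cb_pt {q : ℕ} {C : ℝ} {g : Vec d → ℝ} (hg : CW q C g) (v z : Vec d) :
    ‖len z ^ γ * g (v - z)‖ ≤ C * (len z ^ γ * Wp q (v - z)) := by
  have a2 := hg.le (v - z)
  have a3 : 0 ≤ len z ^ γ := Real.rpow_nonneg (len_nonneg z) _
  rw [Real.norm_eq_abs, abs_mul, abs_of_nonneg a3]
  calc len z ^ γ * |g (v - z)| ≤ len z ^ γ * (C * Wp q (v - z)) := mul_le_mul_of_nonneg_left a2 a3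
    _ = _ := by ring

private lemma Bd_cb_int (hd : 2 ≤ d) (h1 : -2 < γ) (h2 : γ ≤ 0) {q : ℕ} (hq : d + 2 ≤ q) {C : ℝ}
    {g : Vec d → ℝ} (hg : CW q C g) (v : Vec d) : Integrable fun z => len z ^ γ * g (v - z) := by
  obtain ⟨K, -, hK⟩ := len_loc (d := d) hd h1 h2 (q := q) (by omega)
  refine Integrable.mono' ((hK v).1.const_mul C) ?_ (Eventually.of_forall fun z => Bd_cb_pt hg v z)
  exact (Bd_len_meas γ).aestronglyMeasurable.mul
    (hg.cont.comp (continuous_const.sub continuous_id)).aestronglyMeasurable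

theorem ab_bd (h1 : -2 < γ) (h2 : γ ≤ 0) {q : ℕ} (hq : d + 2 ≤ q) : ∃ K : ℝ, 0 ≤ K ∧
    ∀ (C : ℝ) (g : Vec d → ℝ), CW q C g → ∀ (i j : Fin d) (v : Vec d),
      |ab γ g i j v| ≤ K * C * (1 + nsq v) := by
  have hI : 0 ≤ ∫ z : Vec d, Wp (q - 1) z := integral_nonneg fun z => (Wp_pos _ z).le
  refine ⟨4 * ∫ z : Vec d, Wp (q - 1) z, by positivity, ?_⟩
  intro C g hg i j v
  have h3 := norm_integral_le_of_norm_le ((Bd_dom hq v).const_mul (4 * C * (1 + nsq v)))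
    (Eventually.of_forall fun z => Bd_pt h1 h2 hq hg i j v z)
  rw [integral_const_mul, integral_sub_left_eq_self (fun z : Vec d => Wp (q - 1) z) volume v,
    Real.norm_eq_abs] at h3
  refine h3.trans (le_of_eq ?_)
  ring

theorem ab_sub (h1 : -2 < γ) (h2 : γ ≤ 0) {q : ℕ} (hq : d + 2 ≤ q) {C C' : ℝ} {g h : Vec d → ℝ}
    (hg : CW q C g) (hh : CW q C' h) (i j : Fin d) (v : Vec d) :
    ab γ (fun w => g w - h w) i j v = ab γ g i j v - ab γ h i j v := by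
  unfold ab conv
  rw [← integral_sub (Bd_ab_int h1 h2 hq hg i j v) (Bd_ab_int h1 h2 hq hh i j v)]
  refine integral_congr_ae (Eventually.of_forall fun z => ?_)
  simp only [smul_eq_mul]
  ring

theorem cb_bd (hd : 2 ≤ d) (h1 : -2 < γ) (h2 : γ ≤ 0) {q : ℕ} (hq : d + 2 ≤ q) : ∃ K : ℝ, 0 ≤ K ∧
    ∀ (C : ℝ) (g : Vec d → ℝ), CW q C g → ∀ v : Vec d,
      |cb γ g v| ≤ K * C * (1 + nsq v) ^ (γ / 2) := by
  obtain ⟨K, hK0, hK⟩ := len_loc (d := d) hd h1 h2 (q := q) (by omega)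
  have hd' : (2 : ℝ) ≤ d := by exact_mod_cast hd
  have hc : 0 ≤ ((d : ℝ) - 1) * ((d : ℝ) + γ) := mul_nonneg (by linarith) (by linarith)
  refine ⟨((d : ℝ) - 1) * ((d : ℝ) + γ) * K, mul_nonneg hc hK0, ?_⟩
  intro C g hg v
  have hC := Bd_C hg
  have h3 := norm_integral_le_of_norm_le ((hK v).1.const_mul C)
    (Eventually.of_forall fun z => Bd_cb_pt (γ := γ) hg v z)
  rw [integral_const_mul, Real.norm_eq_abs] at h3
  have h4 := h3.trans (mul_le_mul_of_nonneg_left (hK v).2 hC)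
  unfold cb
  rw [abs_mul, abs_of_nonneg hc]
  refine (mul_le_mul_of_nonneg_left h4 hc).trans (le_of_eq ?_)
  ring

theorem cb_sub (hd : 2 ≤ d) (h1 : -2 < γ) (h2 : γ ≤ 0) {q : ℕ} (hq : d + 2 ≤ q) {C C' : ℝ}
    {g h : Vec d → ℝ} (hg : CW q C g) (hh : CW q C' h) (v : Vec d) :
    cb γ (fun w => g w - h w) v = cb γ g v - cb γ h v := by
  unfold cb
  rw [← mul_sub, ← integral_sub (Bd_cb_int hd h1 h2 hq hg v) (Bd_cb_int hd h1 h2 hq hh v)]
  congr 1
  refine integral_congr_ae (Eventually.of_forall fun z => ?_)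
  simp only
  ring

theorem cb_nn (hd : 2 ≤ d) (h1 : -2 < γ) {g : Vec d → ℝ} (h0 : ∀ v, 0 ≤ g v) (v : Vec d) :
    0 ≤ cb γ g v := by
  have hd' : (2 : ℝ) ≤ d := by exact_mod_cast hd
  have hc : 0 ≤ ((d : ℝ) - 1) * ((d : ℝ) + γ) := mul_nonneg (by linarith) (by linarith)
  exact mul_nonneg hc (integral_nonneg fun z => mul_nonneg (Real.rpow_nonneg (len_nonneg z) _) (h0 _))

end Pool.Agent.H48.LN
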