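import Pool.Agent.H48.LN.Defs
import Pool.Agent.H82.LK.LFin

/-!
# Module CbN: the coefficient of order zero: near part, middle part, far part

`∫ |z|^γ g(v-z) dz` split at `len z = ρ` and `len z = R`: near part `≤ n ∫_{len z < ρ} len z ^ γ dz = n C ρ^(d+γ)` (scaling `z = ρ y`: `Measure.integral_comp_smul` or `int_norm_rpow`; `∫_{len y < 1} len y ^ γ dy < ∞`, see `len_int` in H82/LK/LFin), middle part: `len z ^ γ ≤ ρ^γ`, far part: `len z ^ γ ≤ R^γ` and `∫ g(v - z) dz = ∫ g`. (`γ ≤ 0`; integrability of `len z ^ γ g (v-z)`: `len_int` for `Nice g`.)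
-/

set_option autoImplicit false

open MeasureTheory Set Filter Topology Pool.Agent.H25.Kin Pool.Agent.H48.PR Pool.Agent.H48.NE
open Pool.Agent.H48.PD (FB)
open Pool.Agent.H15.AV (ab)

namespace Pool.Agent.H48.LN

variable {d : ℕ} {γ : ℝ}

private lemma CbN_ball_int (hd : 2 ≤ d) (h1 : -2 < γ) (h2 : γ ≤ 0) (ρ : ℝ) :
    Integrable (indicator {z : Vec d | len z < ρ} fun z : Vec d => len z ^ γ) := by
  have hms : MeasurableSet {z : Vec d | len z < ρ} :=
    (isOpen_lt continuous_len continuous_const).measurableSet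
  have hm : Measurable fun z : Vec d => len z ^ γ := continuous_len.measurable.pow_const γ
  have i1 := (int_norm_rpow hd h1 h2).const_mul ((1 + |ρ|) ^ (d + 3))
  refine i1.mono' (hm.indicator hms).aestronglyMeasurable (Eventually.of_forall fun z => ?_)
  by_cases hz : z ∈ {z : Vec d | len z < ρ}
  · rw [indicator_of_mem hz, Real.norm_eq_abs, abs_of_nonneg (Real.rpow_nonneg (len_nonneg z) γ)]
    have hzn : ‖z‖ ≤ |ρ| := (norm_le_len z).trans ((le_of_lt hz).trans (le_abs_self ρ))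
    have hlr : len z ^ γ ≤ ‖z‖ ^ γ := by
      by_cases hz0 : z = 0
      · rw [hz0, len_zero, norm_zero]
      · exact Real.rpow_le_rpow_of_nonpos (norm_pos_iff.2 hz0) (norm_le_len _) h2
    have hp : (0 : ℝ) < (1 + ‖z‖) ^ (d + 3) := by positivity
    have hq : (1 + ‖z‖) ^ (d + 3) ≤ (1 + |ρ|) ^ (d + 3) := by gcongr
    have hnn := Real.rpow_nonneg (norm_nonneg z) γ
    have e : (1 : ℝ) ≤ (1 + |ρ|) ^ (d + 3) * ((1 + ‖z‖) ^ (d + 3))⁻¹ := by
      rw [← div_eq_mul_inv, one_le_div hp]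
      exact hq
    calc len z ^ γ ≤ ‖z‖ ^ γ * 1 := by rw [mul_one]; exact hlr
      _ ≤ ‖z‖ ^ γ * ((1 + |ρ|) ^ (d + 3) * ((1 + ‖z‖) ^ (d + 3))⁻¹) := by gcongr
      _ = (1 + |ρ|) ^ (d + 3) * (‖z‖ ^ γ * ((1 + ‖z‖) ^ (d + 3))⁻¹) := by ring
  · rw [indicator_of_notMem hz, norm_zero]
    positivity

private lemma CbN_ball_scale {ρ : ℝ} (hρ : 0 < ρ) :
    ∫ z, indicator {z : Vec d | len z < ρ} (fun z : Vec d => len z ^ γ) z =
      ρ ^ ((d : ℝ) + γ) * ∫ z, indicator {z : Vec d | len z < 1} (fun z : Vec d => len z ^ γ) z := by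
  have h := Measure.integral_comp_smul (volume : Measure (Vec d))
    (indicator {z : Vec d | len z < ρ} fun z : Vec d => len z ^ γ) ρ
  have hfr : Module.finrank ℝ (Vec d) = d := Module.finrank_fin_fun ℝ
  have e : ∀ y : Vec d, indicator {z : Vec d | len z < ρ} (fun z : Vec d => len z ^ γ) (ρ • y) =
      ρ ^ γ * indicator {z : Vec d | len z < 1} (fun z : Vec d => len z ^ γ) y := by
    intro y
    have hl : len (ρ • y) = ρ * len y := len_smul hρ.le y
    by_cases hy : len y < 1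
    · have h1 : (ρ • y) ∈ {z : Vec d | len z < ρ} := by
        show len (ρ • y) < ρ
        rw [hl]
        calc ρ * len y < ρ * 1 := by gcongr
          _ = ρ := mul_one ρ
      rw [indicator_of_mem h1, indicator_of_mem (show y ∈ {z : Vec d | len z < 1} from hy), hl,
        Real.mul_rpow hρ.le (len_nonneg y)]
    · have h1 : (ρ • y) ∉ {z : Vec d | len z < ρ} := by
        intro h1
        have h1' : len (ρ • y) < ρ := h1
        rw [hl] at h1'
        apply hy
        by_contra hc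
        have : ρ * 1 ≤ ρ * len y := by
          apply mul_le_mul_of_nonneg_left _ hρ.le
          linarith
        linarith
      rw [indicator_of_notMem h1, indicator_of_notMem
        (show y ∉ {z : Vec d | len z < 1} from hy), mul_zero]
  simp_rw [e] at h
  rw [integral_const_mul, hfr, smul_eq_mul, abs_of_pos (by positivity)] at h
  have hpow : ρ ^ ((d : ℝ) + γ) = ρ ^ d * ρ ^ γ := by
    rw [Real.rpow_add hρ, Real.rpow_natCast]
  have hd0 : (ρ ^ d : ℝ) ≠ 0 := by positivity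
  rw [hpow, mul_assoc, h, ← mul_assoc, mul_inv_cancel₀ hd0, one_mul]

theorem cb_near (hd : 2 ≤ d) (h1 : -2 < γ) (h2 : γ ≤ 0) : ∃ K : ℝ, 0 ≤ K ∧
    ∀ g : Vec d → ℝ, Nice g → (∀ v, 0 ≤ g v) → ∀ (v : Vec d) (n ρ R : ℝ), 0 < ρ → ρ ≤ R →
      (∀ z : Vec d, len z < ρ → g (v - z) ≤ n) →
      cb γ g v ≤ K * (n * ρ ^ ((d : ℝ) + γ) + ρ ^ γ * (∫ z in {z : Vec d | len z ≤ R}, g (v - z)) +
        R ^ γ * ∫ w, g w) := by
  set C : ℝ := ∫ z, indicator {z : Vec d | len z < 1} (fun z : Vec d => len z ^ γ) z with hC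
  have hC0 : 0 ≤ C := integral_nonneg fun z => indicator_nonneg
    (fun z _ => Real.rpow_nonneg (len_nonneg z) γ) z
  have hd' : (2 : ℝ) ≤ d := by exact_mod_cast hd
  set c : ℝ := ((d : ℝ) - 1) * ((d : ℝ) + γ) with hc
  have hc0 : 0 ≤ c := mul_nonneg (by linarith) (by linarith)
  refine ⟨c * (1 + C), by positivity, fun g hg hg0 v n ρ R hρ hρR hn => ?_⟩
  have hR : 0 < R := lt_of_lt_of_le hρ hρR
  have hgi : Integrable g := hg.rd.integrable hg.cont.aestronglyMeasurable
  have hgv : Integrable fun z => g (v - z) := hgi.comp_sub_left v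
  have hms : MeasurableSet {z : Vec d | len z ≤ R} :=
    (isClosed_le continuous_len continuous_const).measurableSet
  have i1 := (CbN_ball_int hd h1 h2 ρ).const_mul n
  have i2 : Integrable fun z => ρ ^ γ * indicator {z : Vec d | len z ≤ R} (fun z => g (v - z)) z :=
    (hgv.indicator hms).const_mul _
  have i3 : Integrable fun z => R ^ γ * g (v - z) := hgv.const_mul _
  have hn0 : 0 ≤ n := (hg0 _).trans (hn 0 (by rw [len_zero]; exact hρ))
  have i12 : Integrable fun z : Vec d =>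
      n * indicator {z : Vec d | len z < ρ} (fun z : Vec d => len z ^ γ) z +
      ρ ^ γ * indicator {z : Vec d | len z ≤ R} (fun z => g (v - z)) z := i1.add i2
  have hle : ∫ z, len z ^ γ * g (v - z) ≤
      ∫ z, (n * indicator {z : Vec d | len z < ρ} (fun z : Vec d => len z ^ γ) z +
        ρ ^ γ * indicator {z : Vec d | len z ≤ R} (fun z => g (v - z)) z + R ^ γ * g (v - z)) := by
    refine integral_mono_of_nonneg (Eventually.of_forall fun z =>
      mul_nonneg (Real.rpow_nonneg (len_nonneg z) γ) (hg0 _)) (i12.add i3)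
      (Eventually.of_forall fun z => ?_)
    have hl := Real.rpow_nonneg (len_nonneg z) γ
    have hgz := hg0 (v - z)
    have hA : 0 ≤ n * indicator {z : Vec d | len z < ρ} (fun z : Vec d => len z ^ γ) z :=
      mul_nonneg hn0 (indicator_nonneg (fun z _ => Real.rpow_nonneg (len_nonneg z) γ) z)
    have hB : 0 ≤ ρ ^ γ * indicator {z : Vec d | len z ≤ R} (fun z => g (v - z)) z :=
      mul_nonneg (Real.rpow_nonneg hρ.le γ) (indicator_nonneg (fun z _ => hg0 _) z)
    have hD : 0 ≤ R ^ γ * g (v - z) := mul_nonneg (Real.rpow_nonneg hR.le γ) hgz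
    show len z ^ γ * g (v - z) ≤
      n * indicator {z : Vec d | len z < ρ} (fun z : Vec d => len z ^ γ) z +
      ρ ^ γ * indicator {z : Vec d | len z ≤ R} (fun z => g (v - z)) z + R ^ γ * g (v - z)
    by_cases hz1 : len z < ρ
    · have e1 : indicator {z : Vec d | len z < ρ} (fun z : Vec d => len z ^ γ) z = len z ^ γ :=
        indicator_of_mem (show z ∈ {z : Vec d | len z < ρ} from hz1) _
      have : len z ^ γ * g (v - z) ≤ n * len z ^ γ := by
        rw [mul_comm]
        exact mul_le_mul_of_nonneg_right (hn z hz1) hl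
      rw [e1]
      linarith
    · by_cases hz2 : len z ≤ R
      · have e1 : indicator {z : Vec d | len z ≤ R} (fun z => g (v - z)) z = g (v - z) :=
          indicator_of_mem (show z ∈ {z : Vec d | len z ≤ R} from hz2) _
        have : len z ^ γ * g (v - z) ≤ ρ ^ γ * g (v - z) :=
          mul_le_mul_of_nonneg_right
            (Real.rpow_le_rpow_of_nonpos hρ (not_lt.1 hz1) h2) hgz
        rw [e1]
        linarith
      · have : len z ^ γ * g (v - z) ≤ R ^ γ * g (v - z) :=
          mul_le_mul_of_nonneg_right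
            (Real.rpow_le_rpow_of_nonpos hR (le_of_lt (not_le.1 hz2)) h2) hgz
        linarith
  have heq : ∫ z, (n * indicator {z : Vec d | len z < ρ} (fun z : Vec d => len z ^ γ) z +
        ρ ^ γ * indicator {z : Vec d | len z ≤ R} (fun z => g (v - z)) z + R ^ γ * g (v - z)) =
      n * (ρ ^ ((d : ℝ) + γ) * C) + ρ ^ γ * (∫ z in {z : Vec d | len z ≤ R}, g (v - z)) +
        R ^ γ * ∫ w, g w := by
    rw [integral_add i12 i3, integral_add i1 i2, integral_const_mul, integral_const_mul,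
      integral_const_mul, integral_indicator hms, CbN_ball_scale hρ,
      integral_sub_left_eq_self g volume v]
  have hI2 : 0 ≤ ∫ z in {z : Vec d | len z ≤ R}, g (v - z) :=
    setIntegral_nonneg hms fun z _ => hg0 _
  have hI3 : 0 ≤ ∫ w, g w := integral_nonneg hg0
  have hr1 : 0 ≤ ρ ^ ((d : ℝ) + γ) := Real.rpow_nonneg hρ.le _
  have hr2 : 0 ≤ ρ ^ γ := Real.rpow_nonneg hρ.le _
  have hr3 : 0 ≤ R ^ γ := Real.rpow_nonneg hR.le _
  have hX : 0 ≤ n * ρ ^ ((d : ℝ) + γ) := mul_nonneg hn0 hr1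
  have hY : 0 ≤ ρ ^ γ * (∫ z in {z : Vec d | len z ≤ R}, g (v - z)) := mul_nonneg hr2 hI2
  have hZ : 0 ≤ R ^ γ * ∫ w, g w := mul_nonneg hr3 hI3
  have hfin : ∫ z, len z ^ γ * g (v - z) ≤ (1 + C) * (n * ρ ^ ((d : ℝ) + γ) +
      ρ ^ γ * (∫ z in {z : Vec d | len z ≤ R}, g (v - z)) + R ^ γ * ∫ w, g w) := by
    refine hle.trans (heq.le.trans ?_)
    nlinarith [mul_nonneg hC0 hX, mul_nonneg hC0 hY, mul_nonneg hC0 hZ]
  show c * ∫ z, len z ^ γ * g (v - z) ≤ _
  calc c * ∫ z, len z ^ γ * g (v - z) ≤ c * ((1 + C) * (n * ρ ^ ((d : ℝ) + γ) +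
      ρ ^ γ * (∫ z in {z : Vec d | len z ≤ R}, g (v - z)) + R ^ γ * ∫ w, g w)) :=
        mul_le_mul_of_nonneg_left hfin hc0
    _ = _ := by ring

end Pool.Agent.H48.LN
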