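import Pool.Agent.H48.LN.Defs
import Pool.Agent.H48.NE.L1s

/-!
# Module L1L: from the `L¹` distance to the sup norm with a modulus of continuity

As `l1s` (H48/NE/L1s.lean). Let `0 < r`, `d r² ≤ ρ₀²` (so `len ξ, len η ≤ ρ₀` for `ξ, η ∈ [0,r]^d`). For such `ξ, η`: `|F x v - M v| ≤ |F(x+ξ)(v+η) - M(v+η)| + κ₀`. Average over the box: `∫∫_{box} |F - M|(x+ξ, v+η) ≤ ∫ |F-M| dν ≤ δ` (`L1s_int`: translation and periodicity), so `|F x v - M v| ≤ κ₀ + δ r^(-2d)`, `δ = κ₁ r^(2d)`.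
-/

set_option autoImplicit false

open MeasureTheory Set Filter Topology Pool.Agent.H25.Kin Pool.Agent.H48.PR Pool.Agent.H48.NE
open Pool.Agent.H48.PD (FB)
open Pool.Agent.H15.AV (ab)

namespace Pool.Agent.H48.LN

variable {d : ℕ} {γ : ℝ}

private lemma L1L_dec {a k : ℝ} (ha : 0 < a) (hk : 0 < k) (u : Vec d) {F : Vec d → Vec d → ℝ}
    (hF : Pool.Agent.H15.AV.Slice F) :
    ∃ C : ℝ, ∀ q : Vec d × Vec d, |F q.2 q.1 - mx a k u q.1| ≤ C * wt d q.1 := by
  obtain ⟨C, hC⟩ := hF.decay (d + 1)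
  obtain ⟨Cl, hCl⟩ := mx_FB ha hk u
  refine ⟨C + Cl (d + 1), fun q => ?_⟩
  have h1 := hC q.2 q.1
  have h2 := hCl.le (d + 1) q.1
  have hp : 0 < (1 + ‖q.1‖) ^ (d + 1) := pow_pos (w_pos q.1) _
  have h3 : |F q.2 q.1 - mx a k u q.1| ≤ F q.2 q.1 + mx a k u q.1 := by
    have hf := hF.nonneg q.2 q.1
    have hg := hCl.nonneg q.1
    rw [abs_le]
    constructor <;> linarith
  unfold wt
  rw [← div_eq_mul_inv, le_div_iff₀ hp]
  have h4 := mul_le_mul_of_nonneg_right h3 hp.le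
  nlinarith [h1, h2, h4]

private lemma L1L_box {r : ℝ} {η : Vec d} (h : η ∈ Icc (0 : Vec d) (fun _ => r)) :
    nsq η ≤ d * r ^ 2 := by
  unfold nsq
  have h1 : ∀ i ∈ (Finset.univ : Finset (Fin d)), η i ^ 2 ≤ r ^ 2 := fun i _ =>
    pow_le_pow_left₀ (h.1 i) (h.2 i) 2
  calc ∑ i, η i ^ 2 ≤ ∑ _i : Fin d, r ^ 2 := Finset.sum_le_sum h1
    _ = d * r ^ 2 := by simp

private lemma L1L_int {G : Vec d × Vec d → ℝ} (hG : Continuous G) {C : ℝ}
    (hb : ∀ q, |G q| ≤ C * wt d q.1) (hper : ∀ v, Per fun x => G (v, x)) (x v : Vec d) :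
    Integrable (fun q : Vec d × Vec d => G (v + q.1, x + q.2)) (nu d) ∧
      ∫ q, G (v + q.1, x + q.2) ∂(nu d) = ∫ q, G q ∂(nu d) := by
  have hc : Continuous fun q : Vec d × Vec d => G (v + q.1, x + q.2) := hG.comp (by fun_prop)
  have hi : Integrable (fun q : Vec d × Vec d => G (v + q.1, x + q.2)) (nu d) := by
    have h := ((integrable_wt (d := d)).comp_add_left v).comp_fst (muD d)
    exact (h.const_mul C).mono' hc.aestronglyMeasurable
      (Eventually.of_forall fun q => hb (v + q.1, x + q.2))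
  refine ⟨hi, ?_⟩
  have hi0 : Integrable G (nu d) := integrable_nu hG.aestronglyMeasurable hb
  unfold nu at hi hi0 ⊢
  rw [integral_prod _ hi, integral_prod _ hi0]
  rw [← integral_add_left_eq_self (fun w : Vec d => ∫ y, G (w, y) ∂(muD d)) v]
  refine integral_congr_ae (Eventually.of_forall fun w => ?_)
  have h2 := (hper (v + w)).integral x
  simp only [add_comm x]
  exact h2

theorem l1L {a k : ℝ} (ha : 0 < a) (hk : 0 < k) (u : Vec d) {ρ₀ κ₁ : ℝ} (hρ : 0 < ρ₀) (hκ : 0 < κ₁) :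
    ∃ δ > 0, ∀ (F : Vec d → Vec d → ℝ) (κ₀ : ℝ), Pool.Agent.H15.AV.Slice F →
      ∫ q, |F q.2 q.1 - mx a k u q.1| ∂(nu d) ≤ δ → ∀ x v : Vec d,
      (∀ y w : Vec d, len (x - y) ≤ ρ₀ → len (v - w) ≤ ρ₀ →
        |(F x v - mx a k u v) - (F y w - mx a k u w)| ≤ κ₀) →
      |F x v - mx a k u v| ≤ κ₀ + κ₁ := by
  set τ : ℝ := min 1 (ρ₀ ^ 2) with hτ
  have hτ0 : 0 < τ := lt_min one_pos (by positivity)
  have hτ1 : τ ≤ 1 := min_le_left _ _
  have hτ2 : τ ≤ ρ₀ ^ 2 := min_le_right _ _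
  set r : ℝ := τ / (d + 1) with hr
  have hd : (0 : ℝ) < d + 1 := by positivity
  have hr0 : 0 < r := div_pos hτ0 hd
  have hr1 : r ≤ 1 := by
    rw [hr, div_le_one hd]
    have : (0 : ℝ) ≤ d := Nat.cast_nonneg d
    linarith
  have hrτ : (d : ℝ) * r ^ 2 ≤ τ := by
    have h1 : (d : ℝ) * r ^ 2 ≤ (d + 1) * r := by
      have : (0 : ℝ) ≤ d := Nat.cast_nonneg d
      nlinarith [mul_nonneg this hr0.le, mul_nonneg (mul_nonneg this hr0.le) (sub_nonneg.2 hr1)]
    have h2 : ((d : ℝ) + 1) * r = τ := by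
      rw [hr]
      field_simp
    linarith
  set S : Set (Vec d) := Icc (0 : Vec d) (fun _ => r) with hS
  have hSv : (volume : Measure (Vec d)).real S = r ^ d := by
    rw [hS, Measure.real, Real.volume_Icc_pi]
    simp [ENNReal.toReal_ofReal hr0.le]
  have hSm : MeasurableSet S := measurableSet_Icc
  have hSsub : S ⊆ Icc (0 : Vec d) 1 := Icc_subset_Icc_right fun _ => hr1
  have hSmu : (muD d).real S = r ^ d := by
    rw [← hSv]
    unfold muD
    rw [Measure.real, Measure.real, Measure.restrict_apply hSm, inter_eq_left.2 hSsub]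
  have hSS : (nu d).real (S ×ˢ S) = r ^ d * r ^ d := by
    unfold nu
    rw [measureReal_prod_prod, hSv, hSmu]
  refine ⟨r ^ d * r ^ d * κ₁, by positivity, fun F κ₀ hF hint x v hmod => ?_⟩
  set G : Vec d × Vec d → ℝ := fun q => |F q.2 q.1 - mx a k u q.1| with hG
  have hGc : Continuous G := by
    have h1 : Continuous fun q : Vec d × Vec d => F q.2 q.1 :=
      hF.cont.comp (continuous_snd.prodMk continuous_fst)
    have h2 : Continuous (mx a k u) := (mx_nice ha hk u).cont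
    exact (h1.sub (h2.comp continuous_fst)).abs
  obtain ⟨C, hC⟩ := L1L_dec ha hk u hF
  have hGb : ∀ q, |G q| ≤ C * wt d q.1 := fun q => by
    rw [hG]
    simp only [abs_abs]
    exact hC q
  have hGp : ∀ v, Per fun x => G (v, x) := fun w y i => by
    simp only [hG, hF.per y w i]
  obtain ⟨hi, he⟩ := L1L_int hGc hGb hGp x v
  set c : ℝ := |F x v - mx a k u v| - κ₀ with hc
  have key : ∀ q ∈ S ×ˢ S, c ≤ G (v + q.1, x + q.2) := by
    rintro ⟨η, ξ⟩ ⟨hη, hξ⟩
    have hη2 : nsq η ≤ τ := (L1L_box hη).trans hrτ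
    have hξ2 : nsq ξ ≤ τ := (L1L_box hξ).trans hrτ
    have hlen : ∀ z : Vec d, nsq z ≤ τ → ∀ y : Vec d, len (y - (y + z)) ≤ ρ₀ := by
      intro z hz y
      have e : nsq (y - (y + z)) = nsq z := by
        unfold nsq
        exact Finset.sum_congr rfl fun i _ => by simp
      unfold len
      rw [e, Real.sqrt_le_left hρ.le]
      exact hz.trans hτ2
    have h1 := hmod (x + ξ) (v + η) (hlen ξ hξ2 x) (hlen η hη2 v)
    have h5 : |F x v - mx a k u v| ≤ |F (x + ξ) (v + η) - mx a k u (v + η)| +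
        |(F x v - mx a k u v) - (F (x + ξ) (v + η) - mx a k u (v + η))| := by
      have e : F x v - mx a k u v = (F (x + ξ) (v + η) - mx a k u (v + η)) +
          ((F x v - mx a k u v) - (F (x + ξ) (v + η) - mx a k u (v + η))) := by ring
      calc |F x v - mx a k u v| = |(F (x + ξ) (v + η) - mx a k u (v + η)) +
          ((F x v - mx a k u v) - (F (x + ξ) (v + η) - mx a k u (v + η)))| := by rw [← e]
        _ ≤ _ := abs_add_le _ _
    simp only [hG, hc]
    linarith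
  have hSSm : MeasurableSet (S ×ˢ S) := hSm.prod hSm
  have hfin : (nu d) (S ×ˢ S) ≠ ⊤ := by
    intro h
    have h1 : (nu d).real (S ×ˢ S) = 0 := by
      rw [Measure.real, h, ENNReal.toReal_top]
    rw [hSS] at h1
    have : 0 < r ^ d * r ^ d := by positivity
    linarith
  have h1 : c * (r ^ d * r ^ d) ≤ ∫ q in S ×ˢ S, G (v + q.1, x + q.2) ∂(nu d) := by
    have h2 := setIntegral_mono_on (integrableOn_const (μ := nu d) (C := c) hfin) hi.integrableOn
      hSSm key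
    rw [setIntegral_const, hSS, smul_eq_mul] at h2
    linarith
  have h2 : ∫ q in S ×ˢ S, G (v + q.1, x + q.2) ∂(nu d) ≤
      ∫ q, G (v + q.1, x + q.2) ∂(nu d) :=
    setIntegral_le_integral hi (Eventually.of_forall fun q => abs_nonneg _)
  have h3 : c * (r ^ d * r ^ d) ≤ κ₁ * (r ^ d * r ^ d) := by
    rw [he] at h2
    linarith
  have h4 : c ≤ κ₁ := le_of_mul_le_mul_right h3 (by positivity)
  simp only [hc] at h4
  linarith

end Pool.Agent.H48.LN
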