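import Pool.Agent.H48.NE.ReB
import Pool.Agent.H48.LN.Defs

/-!
# Module ReS: the relative entropy is small near the Maxwellian

`M = mx a k u`, `|F - M| ≤ ε Wp p`, `ε ≤ 1`. `RE a k u F = ∫ e(F, M) dν`, `e(F,M) = F (log F - log M) - F + M ≥ 0` (see H48/NE/ReB.lean, private `ee`, `ee_lip`, `mul_log_abs`, `log_mx`: copy). For `‖v‖ ≤ R`: `M ≥ c_R`, `F ≤ b`, `e ≤ (b/c_R + 1) |F - M| ≤ C_R ε`; integral `≤ C_R ε (2R)^d`. For `‖v‖ > R`: `0 ≤ F ≤ C₁ Wp p` (`M ≤ C₁' Wp p`, `mx_nice`), `|F log F| ≤ 2 √F + F² ≤ C (Wp p)^(1/2)`, `(Wp p v)^(1/2) ≤ C (1+‖v‖)^(-p)`,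
`F |log M| ≤ C Wp p (1+‖v‖)²`, so `e ≤ C₂ (1+‖v‖)^(-(d+2))` (`p ≥ d + 2`, `2p - 2 ≥ d + 2`), and `∫_{‖v‖ > R} ≤ C₂ (1+R)^(-1) ∫ (1+‖v‖)^(-(d+1)) ≤ η/2`. The whole structure is that of `re_small` in H48/NE/ReB.lean.
-/

set_option autoImplicit false

open MeasureTheory Set Filter Topology Pool.Agent.H25.Kin Pool.Agent.H48.PR Pool.Agent.H48.NE
open Pool.Agent.H48.PD (FB)
open Pool.Agent.H15.AV (ab)

open Pool.Agent.H82.BK Pool.Agent.H82.CM
open Pool.Agent.H15.AV (Slice)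

namespace Pool.Agent.H48.LN

variable {d : ℕ} {γ : ℝ}

private noncomputable def ee (F m : ℝ) : ℝ := F * (Real.log F - Real.log m) - F + m

private lemma ee_ge {F m : ℝ} (hF : 0 ≤ F) (hm : 0 < m) : (√F - √m) ^ 2 ≤ ee F m := by
  unfold ee
  rcases hF.eq_or_lt with h | h
  · rw [← h]
    simp [Real.sq_sqrt hm.le]
  · have hs : 0 < √F := Real.sqrt_pos.2 h
    have hsm : 0 < √m := Real.sqrt_pos.2 hm
    have e1 : Real.log F = 2 * Real.log √F := by
      rw [Real.log_sqrt h.le]; ring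
    have e2 : Real.log m = 2 * Real.log √m := by
      rw [Real.log_sqrt hm.le]; ring
    have e3 : Real.log (√m / √F) ≤ √m / √F - 1 := Real.log_le_sub_one_of_pos (by positivity)
    rw [Real.log_div hsm.ne' hs.ne'] at e3
    have e4 : √F ^ 2 = F := Real.sq_sqrt h.le
    have e5 : √m ^ 2 = m := Real.sq_sqrt hm.le
    have e6 : F * (√m / √F) = √F * √m := by
      have : F * (√m / √F) = √F ^ 2 * (√m / √F) := by rw [e4]
      rw [this]
      field_simp
    have e7 := mul_le_mul_of_nonneg_left e3 h.le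
    rw [e1, e2]
    have e8 : F * (√m / √F - 1) = √F * √m - F := by rw [mul_sub, e6, mul_one]
    rw [e8] at e7
    nlinarith

private lemma ee_nn {F m : ℝ} (hF : 0 ≤ F) (hm : 0 < m) : 0 ≤ ee F m :=
  (sq_nonneg _).trans (ee_ge hF hm)

private lemma ee_lip {F m c b : ℝ} (hF : 0 ≤ F) (hc : 0 < c) (hcm : c ≤ m) (hb : F ≤ b) :
    ee F m ≤ (b / c + 1) * |F - m| := by
  have hm : 0 < m := hc.trans_le hcm
  have hb0 : 0 ≤ b / c := div_nonneg (hF.trans hb) hc.le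
  unfold ee
  rcases le_or_gt F m with h | h
  · have h1 : F * (Real.log F - Real.log m) ≤ 0 := by
      rcases hF.eq_or_lt with h0 | h0
      · rw [← h0]; simp
      · exact mul_nonpos_of_nonneg_of_nonpos hF (by linarith [Real.log_le_log h0 h])
    rw [abs_of_nonpos (by linarith)]
    nlinarith [mul_nonneg hb0 (sub_nonneg.2 h)]
  · have hF0 : 0 < F := hm.trans h
    have e1 : Real.log (F / m) ≤ F / m - 1 := Real.log_le_sub_one_of_pos (by positivity)
    rw [Real.log_div hF0.ne' hm.ne'] at e1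
    have e2 : F / m - 1 = (F - m) / m := by field_simp
    have e3 : (F - m) / m ≤ (F - m) / c := div_le_div_of_nonneg_left (by linarith) hc hcm
    have e4 : F * (Real.log F - Real.log m) ≤ b * ((F - m) / c) := by
      have h5 : 0 ≤ (F - m) / c := div_nonneg (by linarith) hc.le
      calc F * (Real.log F - Real.log m) ≤ F * ((F - m) / c) :=
            mul_le_mul_of_nonneg_left (by linarith) hF
        _ ≤ b * ((F - m) / c) := mul_le_mul_of_nonneg_right hb h5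
    have e5 : b * ((F - m) / c) = b / c * (F - m) := by ring
    rw [abs_of_pos (by linarith)]
    linarith

private lemma mul_log_abs {F : ℝ} (hF : 0 ≤ F) : |F * Real.log F| ≤ 2 * √F + F ^ 2 := by
  rcases hF.eq_or_lt with h | h
  · rw [← h]; simp
  · have hs : 0 < √F := Real.sqrt_pos.2 h
    have e4 : √F ^ 2 = F := Real.sq_sqrt h.le
    rcases le_or_gt 1 F with h1 | h1
    · have l1 : Real.log F ≤ F - 1 := Real.log_le_sub_one_of_pos h
      have l2 : 0 ≤ Real.log F := Real.log_nonneg h1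
      rw [abs_of_nonneg (mul_nonneg hF l2)]
      nlinarith
    · have l1 : Real.log F ≤ 0 := Real.log_nonpos hF h1.le
      have e1 : Real.log F = 2 * Real.log √F := by
        rw [Real.log_sqrt h.le]; ring
      have l2 : Real.log (1 / √F) ≤ 1 / √F - 1 := Real.log_le_sub_one_of_pos (by positivity)
      rw [one_div, Real.log_inv, ← one_div] at l2
      have l3 : F * (1 / √F) = √F := by
        have : F * (1 / √F) = √F ^ 2 * (1 / √F) := by rw [e4]
        rw [this]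
        field_simp
      have l4 := mul_le_mul_of_nonneg_left l2 h.le
      rw [mul_sub, l3, mul_one] at l4
      rw [abs_of_nonpos (mul_nonpos_of_nonneg_of_nonpos hF l1), e1]
      nlinarith [sq_nonneg F]

private lemma log_mx {a k : ℝ} (ha : 0 < a) (hk : 0 < k) (u v : Vec d) :
    |Real.log (mx a k u v)| ≤ (|Real.log a| + k * (d * (1 + ‖u‖) ^ 2)) * (1 + ‖v‖) ^ 2 := by
  have hv := one_le_w v
  have hu := one_le_w u
  unfold mx
  rw [Real.log_mul ha.ne' (Real.exp_pos _).ne', Real.log_exp]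
  have h1 : nsq (v - u) ≤ d * ((1 + ‖v‖) * (1 + ‖u‖)) ^ 2 := by
    refine (sq_le _).trans ?_
    have h2 : ‖v - u‖ ≤ (1 + ‖v‖) * (1 + ‖u‖) := by linarith [w_sub_le v u]
    have h3 : ‖v - u‖ ^ 2 ≤ ((1 + ‖v‖) * (1 + ‖u‖)) ^ 2 := pow_le_pow_left₀ (norm_nonneg _) h2 2
    exact mul_le_mul_of_nonneg_left h3 (Nat.cast_nonneg d)
  have h0 := nsq_nn (v - u)
  have h4 : |Real.log a + -(k * nsq (v - u))| ≤ |Real.log a| + k * nsq (v - u) := by
    refine (abs_add_le _ _).trans ?_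
    rw [abs_neg, abs_of_nonneg (mul_nonneg hk.le h0)]
  have h5 : k * nsq (v - u) ≤ k * (d * ((1 + ‖v‖) * (1 + ‖u‖)) ^ 2) :=
    mul_le_mul_of_nonneg_left h1 hk.le
  have h6 : 1 ≤ (1 + ‖v‖) ^ 2 := one_le_pow₀ hv
  have h7 : |Real.log a| ≤ |Real.log a| * (1 + ‖v‖) ^ 2 := le_mul_of_one_le_right (abs_nonneg _) h6
  calc |Real.log a + -(k * nsq (v - u))| ≤ |Real.log a| * (1 + ‖v‖) ^ 2 +
        k * (d * ((1 + ‖v‖) * (1 + ‖u‖)) ^ 2) := by linarith
    _ = _ := by ring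

private lemma le_inv_of {w F b : ℝ} (hw : 1 ≤ w) (N : ℕ) (h : w ^ N * F ≤ b) :
    F ≤ |b| * (w ^ N)⁻¹ := by
  have hN : 0 < w ^ N := pow_pos (by linarith) N
  rw [← div_eq_mul_inv, le_div_iff₀ hN, mul_comm]
  exact h.trans (le_abs_self b)

private lemma ee_bd {a k : ℝ} (ha : 0 < a) (hk : 0 < k) (u : Vec d) (B : ℕ → ℝ) :
    ∃ C : ℝ, 0 ≤ C ∧ ∀ (F : ℝ) (v : Vec d), 0 ≤ F → (∀ N : ℕ, N ≤ 2 * (d + 2) → (1 + ‖v‖) ^ N * F ≤ B N) →
      |ee F (mx a k u v)| ≤ C * ((1 + ‖v‖) ^ (d + 2))⁻¹ ∧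
        |F - mx a k u v| ≤ C * ((1 + ‖v‖) ^ (d + 2))⁻¹ := by
  obtain ⟨Cm, hCm0, hCm⟩ := (mx_nice ha hk u).rd.bound (d + 2)
  have hL0 : 0 ≤ |Real.log a| + k * (d * (1 + ‖u‖) ^ 2) := by
    have := abs_nonneg (Real.log a)
    positivity
  generalize hL : |Real.log a| + k * (d * (1 + ‖u‖) ^ 2) = L at hL0
  refine ⟨2 * √|B (2 * (d + 2))| + |B 0| * |B (d + 2)| + |B (d + 4)| * L + |B (d + 2)| + Cm,
    by positivity, fun F v hF hN => ?_⟩
  have hw := one_le_w v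
  have hwp : 0 < 1 + ‖v‖ := by linarith
  have hm := mx_pos (k := k) ha u v
  have hmd : mx a k u v ≤ Cm * ((1 + ‖v‖) ^ (d + 2))⁻¹ := by
    have := hCm v
    rwa [Real.norm_eq_abs, abs_of_pos hm] at this
  have i0 : 0 < ((1 + ‖v‖) ^ (d + 2))⁻¹ := inv_pos.2 (pow_pos hwp _)
  have f1 : F ≤ |B (d + 2)| * ((1 + ‖v‖) ^ (d + 2))⁻¹ := le_inv_of hw _ (hN _ (by omega))
  have f0 : F ≤ |B 0| := by
    have := hN 0 (by omega)
    simp only [pow_zero, one_mul] at this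
    exact this.trans (le_abs_self _)
  have f2 : √F ≤ √|B (2 * (d + 2))| * ((1 + ‖v‖) ^ (d + 2))⁻¹ := by
    have h1 : F ≤ |B (2 * (d + 2))| * ((1 + ‖v‖) ^ (2 * (d + 2)))⁻¹ := le_inv_of hw _ (hN _ (by omega))
    have h2 : ((1 + ‖v‖) ^ (2 * (d + 2)))⁻¹ = (((1 + ‖v‖) ^ (d + 2))⁻¹) ^ 2 := by
      rw [inv_pow, ← pow_mul, mul_comm 2]
    rw [h2] at h1
    refine (Real.sqrt_le_sqrt h1).trans ?_
    rw [Real.sqrt_mul (abs_nonneg _), Real.sqrt_sq i0.le]
  have f3 : F ^ 2 ≤ |B 0| * |B (d + 2)| * ((1 + ‖v‖) ^ (d + 2))⁻¹ := by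
    calc F ^ 2 = F * F := sq F
      _ ≤ |B 0| * (|B (d + 2)| * ((1 + ‖v‖) ^ (d + 2))⁻¹) :=
          mul_le_mul f0 f1 hF (abs_nonneg _)
      _ = _ := by ring
  have f4 : F * |Real.log (mx a k u v)| ≤ |B (d + 4)| * L * ((1 + ‖v‖) ^ (d + 2))⁻¹ := by
    have h1 : F ≤ |B (d + 4)| * ((1 + ‖v‖) ^ (d + 4))⁻¹ := le_inv_of hw _ (hN _ (by omega))
    have h2 := log_mx ha hk u v
    rw [hL] at h2
    have h3 : 0 ≤ |B (d + 4)| * ((1 + ‖v‖) ^ (d + 4))⁻¹ := hF.trans h1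
    calc F * |Real.log (mx a k u v)| ≤ (|B (d + 4)| * ((1 + ‖v‖) ^ (d + 4))⁻¹) *
          (L * (1 + ‖v‖) ^ 2) := mul_le_mul h1 h2 (abs_nonneg _) h3
      _ = |B (d + 4)| * L * ((1 + ‖v‖) ^ (d + 2))⁻¹ := by
          have : (1 + ‖v‖) ^ (d + 4) = (1 + ‖v‖) ^ (d + 2) * (1 + ‖v‖) ^ 2 := by
            rw [← pow_add]
          rw [this]
          field_simp
  have f5 := mul_log_abs hF
  constructor
  · have h1 : |ee F (mx a k u v)| ≤ |F * Real.log F| + F * |Real.log (mx a k u v)| + F +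
        mx a k u v := by
      unfold ee
      have e : F * (Real.log F - Real.log (mx a k u v)) - F + mx a k u v =
        F * Real.log F + -(F * Real.log (mx a k u v)) + -F + mx a k u v := by ring
      rw [e]
      refine (abs_add_le _ _).trans ?_
      rw [abs_of_pos hm]
      refine add_le_add_left ((abs_add_le _ _).trans ?_) _
      rw [abs_neg, abs_of_nonneg hF]
      refine add_le_add_left ((abs_add_le _ _).trans ?_) _
      rw [abs_neg, abs_mul F (Real.log (mx a k u v)), abs_of_nonneg hF]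
    nlinarith
  · have h1 : |F - mx a k u v| ≤ F + mx a k u v := by
      rw [abs_le]; constructor <;> linarith
    have h2 : 0 ≤ (2 * √|B (2 * (d + 2))| + |B 0| * |B (d + 2)| + |B (d + 4)| * L) *
      ((1 + ‖v‖) ^ (d + 2))⁻¹ := by positivity
    nlinarith

private lemma w_ge {R : ℝ} (hR : 0 ≤ R) {v : Vec d} (hv : R < ‖v‖) :
    ((1 + ‖v‖) ^ (d + 2))⁻¹ ≤ (1 + R)⁻¹ * wt d v := by
  unfold wt
  have hw := w_pos v
  have : (1 + ‖v‖) ^ (d + 2) = (1 + ‖v‖) * (1 + ‖v‖) ^ (d + 1) := by ring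
  rw [this, mul_inv]
  refine mul_le_mul_of_nonneg_right ?_ (by positivity)
  exact inv_anti₀ (by linarith) (by linarith)

private lemma int_of {G : Vec d × Vec d → ℝ} (hm : Measurable G) {C : ℝ}
    (h : ∀ q, |G q| ≤ C * ((1 + ‖q.1‖) ^ (d + 2))⁻¹) : Integrable G (nu d) := by
  refine integrable_nu (C := |C|) hm.aestronglyMeasurable fun q => (h q).trans ?_
  have h1 : ((1 + ‖q.1‖) ^ (d + 2))⁻¹ ≤ wt d q.1 := by
    unfold wt
    exact inv_anti₀ (pow_pos (w_pos _) _) (pow_le_pow_right₀ (one_le_w _) (by omega))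
  have h2 : 0 ≤ ((1 + ‖q.1‖) ^ (d + 2))⁻¹ := inv_nonneg.2 (pow_pos (w_pos _) _).le
  calc C * ((1 + ‖q.1‖) ^ (d + 2))⁻¹ ≤ |C| * ((1 + ‖q.1‖) ^ (d + 2))⁻¹ :=
        mul_le_mul_of_nonneg_right (le_abs_self C) h2
    _ ≤ |C| * wt d q.1 := mul_le_mul_of_nonneg_left h1 (abs_nonneg C)

private lemma meas_F {F : Vec d → Vec d → ℝ} (hF : Slice F) :
    Measurable fun q : Vec d × Vec d => F q.2 q.1 :=
  (hF.cont.comp (continuous_snd.prodMk continuous_fst)).measurable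

private lemma meas_mx {a k : ℝ} (ha : 0 < a) (hk : 0 < k) (u : Vec d) :
    Measurable fun q : Vec d × Vec d => mx a k u q.1 :=
  ((mx_nice ha hk u).cont.comp continuous_fst).measurable

private lemma meas_ee {a k : ℝ} (ha : 0 < a) (hk : 0 < k) (u : Vec d) {F : Vec d → Vec d → ℝ}
    (hF : Slice F) : Measurable fun q : Vec d × Vec d => ee (F q.2 q.1) (mx a k u q.1) := by
  have h1 := meas_F hF
  have h2 := meas_mx ha hk u
  unfold ee
  exact ((h1.mul ((Real.measurable_log.comp h1).sub (Real.measurable_log.comp h2))).sub h1).add h2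


private lemma wt_int : ∃ W : ℝ, 0 ≤ W ∧ Integrable (fun q : Vec d × Vec d => wt d q.1) (nu d) ∧
    ∫ q : Vec d × Vec d, wt d q.1 ∂(nu d) = W :=
  ⟨∫ q : Vec d × Vec d, wt d q.1 ∂(nu d), integral_nonneg fun q : Vec d × Vec d => wt_nonneg q.1,
    (integrable_wt (d := d)).comp_fst (muD d), rfl⟩

private lemma nsq_ge (v : Vec d) : ‖v‖ ^ 2 ≤ nsq v := norm_sq_le_sq v

private lemma Wp_le {p : ℕ} (hp : d + 2 ≤ p) (v : Vec d) {N : ℕ} (hN : N ≤ 2 * (d + 2)) :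
    (1 + ‖v‖) ^ N * Wp p v ≤ 2 ^ (d + 2) := by
  have h0 := nsq_nn v
  have h1 : (1 : ℝ) ≤ 1 + nsq v := by linarith
  have hw := one_le_w v
  have h2 : Wp p v ≤ ((1 + nsq v) ^ (d + 2))⁻¹ := by
    unfold Wp
    exact inv_anti₀ (by positivity) (pow_le_pow_right₀ h1 hp)
  have h3 : (1 + ‖v‖) ^ N ≤ 2 ^ (d + 2) * (1 + nsq v) ^ (d + 2) := by
    calc (1 + ‖v‖) ^ N ≤ (1 + ‖v‖) ^ (2 * (d + 2)) := pow_le_pow_right₀ hw hN
      _ = ((1 + ‖v‖) ^ 2) ^ (d + 2) := by rw [pow_mul]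
      _ ≤ (2 * (1 + nsq v)) ^ (d + 2) := by
          refine pow_le_pow_left₀ (by positivity) ?_ _
          nlinarith [nsq_ge v, sq_nonneg (1 - ‖v‖)]
      _ = _ := by rw [mul_pow]
  have h4 : 0 ≤ ((1 + nsq v) ^ (d + 2))⁻¹ := by positivity
  calc (1 + ‖v‖) ^ N * Wp p v ≤ (2 ^ (d + 2) * (1 + nsq v) ^ (d + 2)) * ((1 + nsq v) ^ (d + 2))⁻¹ :=
        mul_le_mul h3 h2 (Wp_pos p v).le (by positivity)
    _ = 2 ^ (d + 2) := by field_simp

theorem re_smallW {p : ℕ} (hp : d + 2 ≤ p) {a k : ℝ} (ha : 0 < a) (hk : 0 < k) (u : Vec d) {η : ℝ}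
    (hη : 0 < η) : ∃ ε > 0, ∀ F : Vec d → Vec d → ℝ, Pool.Agent.H15.AV.Slice F →
      (∀ x v, |F x v - mx a k u v| ≤ ε * Wp p v) → RE a k u F ≤ η := by
  choose Cm hCm0 hCm using fun N => (mx_nice ha hk u).rd.bound N
  generalize hBB : (fun N => Cm N + 2 ^ (d + 2)) = B
  have hBN : ∀ (N : ℕ) (f : ℝ) (v : Vec d), N ≤ 2 * (d + 2) → f ≤ mx a k u v + Wp p v →
      (1 + ‖v‖) ^ N * f ≤ B N := by
    intro N f v hN hf
    have hw : 0 < (1 + ‖v‖) ^ N := pow_pos (w_pos v) N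
    have h1 : (1 + ‖v‖) ^ N * mx a k u v ≤ Cm N := by
      have := hCm N v
      rw [Real.norm_eq_abs, abs_of_pos (mx_pos ha u v), ← div_eq_mul_inv, le_div_iff₀ hw] at this
      linarith
    have h2 := Wp_le hp v hN
    have h3 := mul_le_mul_of_nonneg_left hf hw.le
    rw [← hBB]
    show _ ≤ Cm N + 2 ^ (d + 2)
    rw [mul_add] at h3
    linarith
  obtain ⟨C, hC0, hC⟩ := ee_bd ha hk u B
  obtain ⟨W, hW0, hWi, hW⟩ := wt_int (d := d)
  have hR : ∃ R : ℝ, 0 ≤ R ∧ C * (1 + R)⁻¹ * W ≤ η / 2 := by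
    refine ⟨2 * (C * W) / η, by positivity, ?_⟩
    have h1 : 0 < 1 + 2 * (C * W) / η := by positivity
    have h2 : C * (1 + 2 * (C * W) / η)⁻¹ * W = C * W / (1 + 2 * (C * W) / η) := by
      rw [div_eq_mul_inv (C * W)]; ring
    rw [h2, div_le_iff₀ h1]
    have h3 : η / 2 * (1 + 2 * (C * W) / η) = η / 2 + C * W := by field_simp
    rw [h3]
    linarith
  obtain ⟨R, hR0, hR⟩ := hR
  -- the lower bound
  have hc : 0 < a * Real.exp (-(k * (d * (R + ‖u‖) ^ 2))) := by positivity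
  have hlow : ∀ v : Vec d, ‖v‖ ≤ R → a * Real.exp (-(k * (d * (R + ‖u‖) ^ 2))) ≤ mx a k u v := by
    intro v hv
    unfold mx
    refine mul_le_mul_of_nonneg_left (Real.exp_le_exp.2 (neg_le_neg ?_)) ha.le
    refine mul_le_mul_of_nonneg_left ((sq_le _).trans ?_) hk.le
    refine mul_le_mul_of_nonneg_left ?_ (Nat.cast_nonneg d)
    refine pow_le_pow_left₀ (norm_nonneg _) ?_ 2
    linarith [norm_sub_le v u]
  generalize hcc : a * Real.exp (-(k * (d * (R + ‖u‖) ^ 2))) = c at hc hlow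
  have hL : 0 < |B 0| / c + 1 := by positivity
  generalize hLL : |B 0| / c + 1 = L at hL
  have hD : 0 < 2 * (L * (2 ^ (d + 2) * (W + 1))) := by positivity
  refine ⟨min 1 (η / (2 * (L * (2 ^ (d + 2) * (W + 1))))), lt_min one_pos (by positivity),
    fun F hF hs => ?_⟩
  generalize hee : min 1 (η / (2 * (L * (2 ^ (d + 2) * (W + 1))))) = ε at hs
  have he1 : ε ≤ 1 := by rw [← hee]; exact min_le_left _ _
  have he2 : ε * (2 * (L * (2 ^ (d + 2) * (W + 1)))) ≤ η := by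
    rw [← le_div_iff₀ hD, ← hee]; exact min_le_right _ _
  have he0 : 0 ≤ ε := by rw [← hee]; exact (lt_min one_pos (by positivity)).le
  have hfb : ∀ (N : ℕ) (x v : Vec d), N ≤ 2 * (d + 2) → (1 + ‖v‖) ^ N * F x v ≤ B N := by
    intro N x v hN
    refine hBN N _ v hN ?_
    have h1 := hs x v
    have h2 := le_abs_self (F x v - mx a k u v)
    have h3 := mul_le_mul_of_nonneg_right he1 (Wp_pos p v).le
    linarith
  have i1 : Integrable (fun q => ee (F q.2 q.1) (mx a k u q.1)) (nu d) :=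
    int_of (meas_ee ha hk u hF) (C := C) fun q =>
      (hC _ q.1 (hF.nonneg _ _) fun N hN => hfb N q.2 q.1 hN).1
  have hE : RE a k u F = ∫ q, ee (F q.2 q.1) (mx a k u q.1) ∂(nu d) := rfl
  have h1 : RE a k u F ≤ ∫ q : Vec d × Vec d,
      (L * (ε * 2 ^ (d + 2)) + C * (1 + R)⁻¹) * wt d q.1 ∂(nu d) := by
    rw [hE]
    refine integral_mono i1 (hWi.const_mul _) fun q => ?_
    have hf := hF.nonneg q.2 q.1
    have hw := wt_nonneg q.1
    have p1 : 0 ≤ L * (ε * 2 ^ (d + 2)) * wt d q.1 := by positivity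
    have p2 : 0 ≤ C * (1 + R)⁻¹ * wt d q.1 := by positivity
    show ee (F q.2 q.1) (mx a k u q.1) ≤ (L * (ε * 2 ^ (d + 2)) + C * (1 + R)⁻¹) * wt d q.1
    rw [add_mul]
    rcases le_or_gt ‖q.1‖ R with h | h
    · have hb : F q.2 q.1 ≤ |B 0| := by
        have := hfb 0 q.2 q.1 (by omega)
        simp only [pow_zero, one_mul] at this
        exact this.trans (le_abs_self _)
      have g1 := ee_lip hf hc (hlow q.1 h) hb
      rw [hLL] at g1
      have g2 : Wp p q.1 ≤ 2 ^ (d + 2) * wt d q.1 := by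
        have := Wp_le hp q.1 (N := d + 1) (by omega)
        unfold wt
        rw [← div_eq_mul_inv, le_div_iff₀ (pow_pos (w_pos _) _)]
        linarith
      have g3 := hs q.2 q.1
      have g4 : L * |F q.2 q.1 - mx a k u q.1| ≤ L * (ε * (2 ^ (d + 2) * wt d q.1)) :=
        mul_le_mul_of_nonneg_left (g3.trans (mul_le_mul_of_nonneg_left g2 he0)) hL.le
      have g5 : L * (ε * (2 ^ (d + 2) * wt d q.1)) = L * (ε * 2 ^ (d + 2)) * wt d q.1 := by ring
      linarith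
    · have g1 := (hC _ q.1 hf fun N hN => hfb N q.2 q.1 hN).1
      have g2 := w_ge hR0 h
      have g3 := le_abs_self (ee (F q.2 q.1) (mx a k u q.1))
      have g4 := mul_le_mul_of_nonneg_left g2 hC0
      linarith
  rw [integral_const_mul, hW, add_mul] at h1
  have h2 : L * (ε * 2 ^ (d + 2)) * W ≤ η / 2 := by
    have h3 : L * (ε * 2 ^ (d + 2)) * W ≤ L * (ε * 2 ^ (d + 2)) * (W + 1) :=
      mul_le_mul_of_nonneg_left (by linarith) (by positivity)
    have h4 : ε * (2 * (L * (2 ^ (d + 2) * (W + 1)))) = 2 * (L * (ε * 2 ^ (d + 2)) * (W + 1)) := by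
      ring
    linarith
  linarith

end Pool.Agent.H48.LN
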