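import Pool.Agent.H48.LN.ModL
import Pool.Agent.H48.LN.L1L
import Pool.Agent.H48.LN.ReL
import Pool.Agent.H48.LN.ReS
import Pool.Agent.H48.NE.ReB

/-!
# Module BootL: bounded velocities, times `≥ 1`

As `bootC` (H48/NE/BootC.lean). `R' = max R₂ 0`, `ω = ((1+R'²)^p)⁻¹ ≤ Wp p v` for `len v ≤ R₂`. `Λ₁` of `modL` (`≤ 1`). Given `Λ ≤ Λ₁`: `ρ₀` of `modL` with `η = ω/4`; `κ₁ = Λ ω/4`, `δ` of `l1L`; `K₂` of `re_l1` with the mass bound `∫ M + ∫ Wp p` (`f ≤ M + Λ Wp p`), `ε₁ = (δ/(K₂+1))²`. For all `t`: `RE (f t) ≤ RE (f 0) ≤ ε₁` (`re_antiL`), so `∫ |f t - M| dν ≤ δ` (`re_l1`). For `t ∈ [1,T)`: `|f t x v - M v| ≤ η Λ + κ₁ = Λ ω/2 ≤ (Λ/2) Wp p v`.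
-/

set_option autoImplicit false

open MeasureTheory Set Filter Topology Pool.Agent.H25.Kin Pool.Agent.H48.PR Pool.Agent.H48.NE
open Pool.Agent.H48.PD (FB)
open Pool.Agent.H15.AV (ab)

namespace Pool.Agent.H48.LN

variable {d : ℕ} {γ : ℝ}

private lemma bootL_le_wt {F : Vec d → Vec d → ℝ} (hF : Pool.Agent.H15.AV.Slice F) : ∃ C : ℝ,
    ∀ x v, F x v ≤ C * wt d v := by
  obtain ⟨C, hC⟩ := hF.decay (d + 1)
  refine ⟨C, fun x v => ?_⟩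
  unfold wt
  rw [← div_eq_mul_inv, le_div_iff₀ (pow_pos (w_pos v) _)]
  calc F x v * (1 + ‖v‖) ^ (d + 1) = (1 + ‖v‖) ^ (d + 1) * F x v := by ring
    _ ≤ C := hC x v

private lemma bootL_int {F : Vec d → Vec d → ℝ} (hF : Pool.Agent.H15.AV.Slice F) :
    Integrable (fun q : Vec d × Vec d => F q.2 q.1) (nu d) := by
  obtain ⟨C, hC⟩ := bootL_le_wt hF
  refine integrable_nu (C := C)
    (hF.cont.comp (continuous_snd.prodMk continuous_fst)).measurable.aestronglyMeasurable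
    fun q => ?_
  rw [abs_of_nonneg (hF.nonneg _ _)]
  exact hC q.2 q.1

private lemma bootL_wt {q : ℕ} (hq : d + 1 ≤ 2 * q) (z : Vec d) : Wp q z ≤ 2 ^ q * wt d z := by
  have h := sq_nonneg' z
  have h1 := one_le_w z
  have hn := norm_nonneg z
  have h5 : (1 + ‖z‖) ^ 2 ≤ 2 * (1 + nsq z) := by
    have := norm_sq_le_sq z
    nlinarith [sq_nonneg (1 - ‖z‖)]
  have h2 : (1 + ‖z‖) ^ (d + 1) ≤ 2 ^ q * (1 + nsq z) ^ q := by
    calc (1 + ‖z‖) ^ (d + 1) ≤ (1 + ‖z‖) ^ (2 * q) := pow_le_pow_right₀ h1 hq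
      _ = ((1 + ‖z‖) ^ 2) ^ q := pow_mul _ _ _
      _ ≤ (2 * (1 + nsq z)) ^ q := pow_le_pow_left₀ (by positivity) h5 q
      _ = 2 ^ q * (1 + nsq z) ^ q := mul_pow _ _ _
  unfold Wp wt
  have h3 : 0 < (1 + nsq z) ^ q := by positivity
  have h4 : 0 < (1 + ‖z‖) ^ (d + 1) := by positivity
  rw [← div_eq_mul_inv, inv_eq_one_div, div_le_div_iff₀ h3 h4, one_mul]
  exact h2

private lemma bootL_Wint {q : ℕ} (hq : d + 1 ≤ 2 * q) :
    Integrable (fun z : Vec d × Vec d => Wp q z.1) (nu d) := by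
  refine integrable_nu (C := (2 : ℝ) ^ q)
    ((Wp_cont q).comp continuous_fst).measurable.aestronglyMeasurable fun z => ?_
  show |Wp q z.1| ≤ _
  rw [abs_of_pos (Wp_pos _ _)]
  exact bootL_wt hq z.1

private lemma bootL_mx {a k : ℝ} (ha : 0 < a) (hk : 0 < k) (u : Vec d) :
    Integrable (fun z : Vec d × Vec d => mx a k u z.1) (nu d) := by
  obtain ⟨Cl, hCl⟩ := mx_FB ha hk u
  refine integrable_nu (C := Cl (d + 1)) ?_ fun q => ?_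
  · exact (((mx_nice ha hk u).smooth.continuous).comp continuous_fst).measurable.aestronglyMeasurable
  · show |mx a k u q.1| ≤ _
    rw [abs_of_pos (mx_pos ha u q.1)]
    unfold wt
    rw [← div_eq_mul_inv, le_div_iff₀ (pow_pos (w_pos q.1) _)]
    have h2 := hCl.le (d + 1) q.1
    linarith [mul_comm (mx a k u q.1) ((1 + ‖q.1‖) ^ (d + 1))]

theorem bootL (hK : KMod d) (hd : 2 ≤ d) (h1 : -2 < γ) (h2 : γ ≤ 0) {p : ℕ} (hp : d + 2 ≤ p) {a k : ℝ}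
    (ha : 0 < a) (hk : 0 < k) (u : Vec d) (R₂ : ℝ) : ∃ Λ₁ > 0, ∀ Λ : ℝ, 0 < Λ → Λ ≤ Λ₁ → ∃ ε₁ > 0,
      ∀ (T : ℝ) (f : ℝ → Vec d → Vec d → ℝ), IsLandauSol γ T f →
      (∀ t ∈ Ico 0 T, ∀ x v, |f t x v - mx a k u v| ≤ Λ * Wp p v) → RE a k u (f 0) ≤ ε₁ →
      ∀ t ∈ Ico 1 T, ∀ x v, len v ≤ R₂ → |f t x v - mx a k u v| ≤ Λ / 2 * Wp p v := by
  obtain ⟨Λ₁, hΛ₁, hmod⟩ := modL hK hd h1 h2 hp ha hk u R₂
  refine ⟨Λ₁, hΛ₁, fun Λ hΛ hΛ1 => ?_⟩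
  set R' : ℝ := max R₂ 0 with hR'
  have hR'0 : 0 ≤ R' := le_max_right _ _
  set ω : ℝ := ((1 + R' ^ 2) ^ p)⁻¹ with hω
  have hω0 : 0 < ω := by positivity
  obtain ⟨ρ₀, hρ₀, hm⟩ := hmod (ω / 4) (by positivity)
  have hκ : 0 < Λ * ω / 4 := by positivity
  obtain ⟨δ, hδ, hl⟩ := l1L ha hk u hρ₀ hκ
  obtain ⟨K₂, hK₂, hre⟩ := re_l1 ha hk u
    ((∫ q, mx a k u q.1 ∂(nu d)) + Λ * ∫ q, Wp p q.1 ∂(nu d))
  refine ⟨(δ / (K₂ + 1)) ^ 2, by positivity, ?_⟩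
  intro T f hf hclose hRE0 t ht x v hv
  have ht0 : t ∈ Ico 0 T := ⟨by linarith [ht.1], ht.2⟩
  have hSt : Pool.Agent.H15.AV.Slice (f t) := Pool.Agent.H15.AV.sol_slice hf ht0
  have hWi : Integrable (fun z : Vec d × Vec d => Wp p z.1) (nu d) := bootL_Wint (by omega)
  have hMi := bootL_mx ha hk u
  have hmass : ∫ q, f t q.2 q.1 ∂(nu d) ≤
      (∫ q, mx a k u q.1 ∂(nu d)) + Λ * ∫ q, Wp p q.1 ∂(nu d) := by
    rw [← integral_const_mul, ← integral_add hMi (hWi.const_mul Λ)]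
    refine integral_mono (bootL_int hSt) (hMi.add (hWi.const_mul Λ)) fun q => ?_
    have h3 := (abs_le.1 (hclose t ht0 q.2 q.1)).2
    simp only
    linarith
  have hRE : RE a k u (f t) ≤ (δ / (K₂ + 1)) ^ 2 :=
    (re_antiL hd h1 h2 ha hk u hf ht0).trans hRE0
  have hδt : ∫ q, |f t q.2 q.1 - mx a k u q.1| ∂(nu d) ≤ δ := by
    refine (hre (f t) hSt hmass).trans ?_
    have h3 : Real.sqrt (RE a k u (f t)) ≤ δ / (K₂ + 1) := by
      refine Real.sqrt_le_iff.mpr ⟨by positivity, hRE⟩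
    calc K₂ * Real.sqrt (RE a k u (f t)) ≤ K₂ * (δ / (K₂ + 1)) :=
          mul_le_mul_of_nonneg_left h3 hK₂
      _ = K₂ / (K₂ + 1) * δ := by ring
      _ ≤ 1 * δ := by
          refine mul_le_mul_of_nonneg_right ?_ hδ.le
          rw [div_le_one (by linarith)]
          linarith
      _ = δ := one_mul _
  have h3 := hl (f t) (ω / 4 * Λ) hSt hδt x v fun y w hxy hvw =>
    hm T f hf Λ hΛ hΛ1 hclose t ht x y v w hv hxy hvw
  have hv2 : nsq v ≤ R' ^ 2 := by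
    rw [← len_sq v]
    have h5 := len_nonneg v
    have h6 : len v ≤ R' := hv.trans (le_max_left _ _)
    nlinarith
  have hn := nsq_nn v
  have hWl : ω ≤ Wp p v := by
    rw [hω]
    unfold Wp
    refine inv_anti₀ (by positivity) ?_
    gcongr
  calc |f t x v - mx a k u v| ≤ ω / 4 * Λ + Λ * ω / 4 := h3
    _ = Λ / 2 * ω := by ring
    _ ≤ Λ / 2 * Wp p v := mul_le_mul_of_nonneg_left hWl (by positivity)

end Pool.Agent.H48.LN
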