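import Pool.Agent.H48.LN.Nd
import Pool.Agent.H48.LN.Drf
import Pool.Agent.H48.LN.Sec
import Pool.Agent.H48.LN.MxL
import Pool.Agent.H82.BK.Touch
import Pool.Agent.H48.PI.Shift

/-!
# Module DcL: decay constants near a Maxwellian, uniform in time

`Λ₀ ≤ 1` with `Λ₀ ∫ Wp p ≤ m/2`, `m = ∫ M`. `A` with `M ≤ A Wp p`; so `f(t,x,·)` is `CW p (A+1)` with mass `≥ m/2`. For `N ≥ d`: `c, R` of `drift` (there `p := N`, `q := p`). Let `D_N = 1 + (sup of f(0) (1+nsq)^N, from B) + (A+1)(1+R²)^N`. Claim `f (1+nsq v)^N < D_N` for all times: otherwise `first_touch` (H82/BK/Touch.lean, `B` constant): `t₀ > 0`, `f(t₀,x₀,·) ≤ D_N Wp N`, equality at `v₀`, below before. If `len v₀ < R`: `f ≤ A+1`: contradiction.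
If `len v₀ ≥ R`: `φ = f(t₀,x₀,·) - D_N Wp N` has its maximum at `v₀`: `landauQ f = ctr f f + cb f f ≤ D_N (ctr f (Wp N) + cb f Wp N) < 0` (`landau_nd`, `ctr_nonpos`, `ctr_sub`, `drift`); but along the characteristic `τ ↦ f(t₀+τ, x₀+τ v₀, v₀)` the value at `τ = 0` is the maximum over `τ ≤ 0`, so the derivative `transport f = landauQ f` is `≥ 0` (see `Bt0_cmp` and the end of `near_eq20` in H15/NE0/Near0.lean for this step). Contradiction.
For small `N` use the constant of `max N d`. The bound `(1+nsq)^N f ≤ D_N` gives `(1+‖v‖)^N f ≤ Cl N` (`(1+‖v‖)² ≤ 2(1+nsq v)`).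
-/

set_option autoImplicit false

open MeasureTheory Set Filter Topology Pool.Agent.H25.Kin Pool.Agent.H48.PR Pool.Agent.H48.NE
open Pool.Agent.H48.PD (FB)
open Pool.Agent.H15.AV (ab)
open Pool.Agent.H82.BK (first_touch char_deriv)

namespace Pool.Agent.H48.LN

variable {d : ℕ} {γ : ℝ}

/-- pointwise decay from a weighted bound -/
private lemma DcL_le {q : ℕ} {v : Vec d} {a c : ℝ} (ha : 0 ≤ a) (h : (1 + ‖v‖) ^ (2 * q) * a ≤ c) :
    a * (1 + nsq v) ^ q ≤ ((d : ℝ) + 1) ^ q * |c| := by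
  have hn := norm_nonneg v
  have h2 : 1 + nsq v ≤ ((d : ℝ) + 1) * (1 + ‖v‖) ^ 2 := by
    have h3 := sq_le v
    have h4 : (0 : ℝ) ≤ d := Nat.cast_nonneg _
    nlinarith [mul_nonneg h4 hn]
  have h5 : (1 + nsq v) ^ q ≤ ((d : ℝ) + 1) ^ q * (1 + ‖v‖) ^ (2 * q) := by
    rw [pow_mul, ← mul_pow]
    exact pow_le_pow_left₀ (by have := sq_nonneg' v; linarith) h2 q
  calc a * (1 + nsq v) ^ q ≤ a * (((d : ℝ) + 1) ^ q * (1 + ‖v‖) ^ (2 * q)) :=
        mul_le_mul_of_nonneg_left h5 ha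
    _ = ((d : ℝ) + 1) ^ q * ((1 + ‖v‖) ^ (2 * q) * a) := by ring
    _ ≤ ((d : ℝ) + 1) ^ q * |c| := by
        gcongr
        exact h.trans (le_abs_self c)

/-- from the product to the weight -/
private lemma DcL_iff (q : ℕ) (v : Vec d) (a c : ℝ) : a * (1 + nsq v) ^ q ≤ c ↔ a ≤ c * Wp q v := by
  have h6 : 0 < (1 + nsq v) ^ q := by
    have := sq_nonneg' v
    positivity
  rw [Wp, ← div_eq_mul_inv, le_div_iff₀ h6]

/-- the weights are integrable -/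
private lemma DcL_Wint {q : ℕ} (hq : d + 1 ≤ 2 * q) : Integrable (Wp q : Vec d → ℝ) := by
  refine Integrable.mono' ((integrable_wt (d := d)).const_mul ((2 : ℝ) ^ q))
    (Wp_cont q).aestronglyMeasurable (Eventually.of_forall fun v => ?_)
  have hn := norm_nonneg v
  have h1 : (1 + ‖v‖) ^ 2 ≤ 2 * (1 + nsq v) := by
    have := norm_sq_le_sq v
    nlinarith [sq_nonneg (1 - ‖v‖)]
  have h2 : (1 + ‖v‖) ^ (d + 1) ≤ 2 ^ q * (1 + nsq v) ^ q := by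
    calc (1 + ‖v‖) ^ (d + 1) ≤ (1 + ‖v‖) ^ (2 * q) := pow_le_pow_right₀ (by linarith) hq
      _ = ((1 + ‖v‖) ^ 2) ^ q := pow_mul _ _ _
      _ ≤ (2 * (1 + nsq v)) ^ q := pow_le_pow_left₀ (by positivity) h1 q
      _ = 2 ^ q * (1 + nsq v) ^ q := mul_pow _ _ _
  have h3 : 0 < (1 + nsq v) ^ q := by
    have := sq_nonneg' v
    positivity
  rw [Real.norm_of_nonneg (Wp_pos q v).le, Wp, wt, ← div_eq_mul_inv, ← one_div,
    div_le_div_iff₀ h3 (by positivity), one_mul]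
  exact h2

/-- the derivative at a touching point -/
private lemma DcL_der {g : ℝ → ℝ} {g' : ℝ} (hg : HasDerivAt g g' 0) (h0 : g 0 = 0)
    (h : ∀ᶠ τ in 𝓝[>] (0 : ℝ), 0 ≤ g (-τ)) : g' ≤ 0 := by
  have h1 : HasDerivAt (fun τ : ℝ => -g (-τ)) g' 0 := by
    have hn : HasDerivAt (fun τ : ℝ => -τ) (-1) 0 := hasDerivAt_neg' (0 : ℝ)
    have hd' : HasDerivAt g g' (-(0 : ℝ)) := by rwa [neg_zero]
    have h3 := (hd'.comp (0 : ℝ) hn).neg
    rw [mul_neg, mul_one, neg_neg] at h3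
    exact h3
  have h2 := h1.tendsto_slope_zero_right
  refine le_of_tendsto h2 ?_
  filter_upwards [h, self_mem_nhdsWithin] with τ h3 h4
  have h4' : 0 < τ := h4
  rw [zero_add, smul_eq_mul, neg_zero, h0, neg_zero, sub_zero]
  exact mul_nonpos_of_nonneg_of_nonpos (inv_nonneg.2 h4'.le) (by linarith)

/-- comparison with a constant at a touching point -/
private lemma DcL_cmp {φ : ℝ → ℝ} {φ' c : ℝ} (hφ : HasDerivAt φ φ' 0)
    (h0 : φ 0 = c) (h : ∀ᶠ τ in 𝓝[>] (0 : ℝ), φ (-τ) ≤ c) : 0 ≤ φ' := by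
  have h1 : -φ' ≤ 0 := by
    refine DcL_der (g := fun τ => c - φ τ) (hφ.const_sub c) ?_ ?_
    · show c - φ 0 = 0
      rw [h0, sub_self]
    · filter_upwards [h] with τ hτ
      show 0 ≤ c - φ (-τ)
      linarith
  linarith

/-- the operator at a touching point -/
private lemma DcL_neg (hd : 2 ≤ d) (h1 : -2 < γ) (h2 : γ ≤ 0) {F : Vec d → ℝ} (hF : Nice F)
    (h0 : ∀ v, 0 ≤ F v) {N : ℕ} {D : ℝ} (hD : 0 < D) {c : ℝ} (hc : 0 < c) {v : Vec d}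
    (hle : ∀ w, F w ≤ D * Wp N w) (heq : F v = D * Wp N v)
    (hdr : ctr γ F (Wp N) v + cb γ F v * Wp N v ≤ -c * (1 + nsq v) ^ (γ / 2) * Wp N v) :
    landauQ γ F v < 0 := by
  have hW := Wp_pos N v
  have hψ : ContDiff ℝ 2 (fun w : Vec d => D * Wp N w) := contDiff_const.mul (wp_smooth N)
  have a1 : ctr γ F (fun w => F w - D * Wp N w) v ≤ 0 := by
    refine ctr_nonpos h1 h2 hF h0 (hF.smooth.sub hψ) fun w => ?_
    have b1 := hle w
    show F w - D * Wp N w ≤ F v - D * Wp N v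
    linarith
  rw [ctr_sub F hF.smooth hψ v, ctr_smul F (wp_smooth N) D v] at a1
  rw [landau_nd hd h1 h2 hF v, heq]
  have a2 : 0 < (1 + nsq v) ^ (γ / 2) := Real.rpow_pos_of_pos (by have := sq_nonneg' v; linarith) _
  have a3 : 0 < c * (1 + nsq v) ^ (γ / 2) * Wp N v := by positivity
  have a4 : D * (ctr γ F (Wp N) v + cb γ F v * Wp N v) < 0 := by
    refine mul_neg_of_pos_of_neg hD ?_
    linarith
  linarith

/-- one weight -/
private lemma DcL_one (hd : 2 ≤ d) (h1 : -2 < γ) (h2 : γ ≤ 0) {p : ℕ} {A m : ℝ} (hA : 0 ≤ A) {N : ℕ}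
    {c : ℝ} (hc : 0 < c) {R : ℝ} (hR : ∀ g : Vec d → ℝ, CW p A g → (∀ v, 0 ≤ g v) →
      m ≤ ∫ v, g v → ∀ v : Vec d, R ≤ len v →
      ctr γ g (Wp N) v + cb γ g v * Wp N v ≤ -c * (1 + nsq v) ^ (γ / 2) * Wp N v) (b : ℝ)
    {T : ℝ} {f : ℝ → Vec d → Vec d → ℝ} (hf : IsLandauSol γ T f)
    (hf0 : ∀ x v : Vec d, (1 + ‖v‖) ^ (2 * N) * f 0 x v ≤ b)
    (hfA : ∀ t ∈ Ico 0 T, ∀ x v, f t x v ≤ A * Wp p v)
    (hfm : ∀ t ∈ Ico 0 T, ∀ x, m ≤ ∫ v, f t x v) :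
    ∀ t ∈ Ico 0 T, ∀ x v, f t x v * (1 + nsq v) ^ N ≤
      1 + ((d : ℝ) + 1) ^ N * |b| + A * (1 + R ^ 2) ^ N := by
  have hf' : IsClassicalSol T (fun t x => landauQ γ (f t x)) f := hf
  obtain ⟨D, hDdef⟩ : ∃ D : ℝ, D = 1 + ((d : ℝ) + 1) ^ N * |b| + A * (1 + R ^ 2) ^ N := ⟨_, rfl⟩
  have e1 : 0 ≤ ((d : ℝ) + 1) ^ N * |b| := by positivity
  have e2 : 0 ≤ A * (1 + R ^ 2) ^ N := by positivity
  have hD : 0 < D := by rw [hDdef]; linarith
  rw [← hDdef]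
  intro t ht x v
  by_contra hcon
  push Not at hcon
  have hT0 : (0 : ℝ) ∈ Ico 0 T := ⟨le_rfl, ht.1.trans_lt ht.2⟩
  obtain ⟨t₀, ht₀, x₀, v₀, heq, hlt, hle⟩ := first_touch hf' N ht.1 ht.2
    (B := fun _ => D) continuousOn_const (fun τ _ => hD)
    (fun y w => by
      have b1 := DcL_le (hf'.nonneg 0 hT0 y w) (hf0 y w)
      show f 0 y w * (1 + nsq w) ^ N < D
      rw [hDdef]
      linarith)
    ⟨t, ⟨ht.1, le_rfl⟩, x, v, hcon.le⟩
  have ht₀T : t₀ ∈ Ioo 0 T := ⟨ht₀.1, ht₀.2.trans_lt ht.2⟩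
  have ht₀C : t₀ ∈ Ico 0 T := ⟨ht₀.1.le, ht₀T.2⟩
  have hN := IsClassicalSol.nice hf' ht₀T x₀
  have hn0 : ∀ w, 0 ≤ f t₀ x₀ w := fun w => hf'.nonneg t₀ ht₀C x₀ w
  rcases lt_or_ge (len v₀) R with hv | hv
  · have a1 : nsq v₀ ≤ R ^ 2 := by
      rw [← len_sq]
      exact pow_le_pow_left₀ (len_nonneg v₀) hv.le 2
    have a2 : f t₀ x₀ v₀ ≤ A := by
      refine (hfA t₀ ht₀C x₀ v₀).trans ?_
      have := Wp_le_one p v₀
      nlinarith
    have a3 : (1 + nsq v₀) ^ N ≤ (1 + R ^ 2) ^ N :=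
      pow_le_pow_left₀ (by have := sq_nonneg' v₀; linarith) (by linarith) N
    have a4 : f t₀ x₀ v₀ * (1 + nsq v₀) ^ N ≤ A * (1 + R ^ 2) ^ N :=
      mul_le_mul a2 a3 (by have := sq_nonneg' v₀; positivity) hA
    rw [heq] at a4
    have a5 : D ≤ A * (1 + R ^ 2) ^ N := a4
    rw [hDdef] at a5
    linarith
  · have hcw : CW p A (f t₀ x₀) := ⟨hN.cont, fun w => by
      rw [abs_of_nonneg (hn0 w)]
      exact hfA t₀ ht₀C x₀ w⟩
    have hdr := hR (f t₀ x₀) hcw hn0 (hfm t₀ ht₀C x₀) v₀ hv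
    have hmul := Wp_mul N v₀
    have heq' : f t₀ x₀ v₀ = D * Wp N v₀ := by
      have heq2 : f t₀ x₀ v₀ * (1 + nsq v₀) ^ N = D := heq
      rw [← heq2]
      calc f t₀ x₀ v₀ = f t₀ x₀ v₀ * (Wp N v₀ * (1 + nsq v₀) ^ N) := by rw [hmul, mul_one]
        _ = _ := by ring
    have hneg := DcL_neg hd h1 h2 hN hn0 hD hc
      (fun w => (DcL_iff N w _ _).1 (hle x₀ w)) heq' hdr
    have hdf := char_deriv hf' ht₀T x₀ v₀
    have h4 := DcL_cmp (c := D * Wp N v₀) hdf (by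
      show f (t₀ + 0) (x₀ + (0 : ℝ) • v₀) v₀ = D * Wp N v₀
      rw [add_zero, zero_smul, add_zero]
      exact heq') (by
      filter_upwards [Ioo_mem_nhdsGT ht₀.1] with τ hτ
      exact (DcL_iff N v₀ _ _).1 (hlt (t₀ + -τ) ⟨by linarith [hτ.2], by linarith [hτ.1]⟩ _ v₀).le)
    exact absurd hneg (not_lt.2 h4)

theorem decL (hd : 2 ≤ d) (h1 : -2 < γ) (h2 : γ ≤ 0) {p : ℕ} (hp : d + 3 ≤ p) {a k : ℝ} (ha : 0 < a)
    (hk : 0 < k) (u : Vec d) : ∃ Λ₀ > 0, ∀ B : ℕ → ℝ, ∃ Cl : ℕ → ℝ,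
      ∀ (T : ℝ) (f : ℝ → Vec d → Vec d → ℝ), IsLandauSol γ T f →
      (∀ (N : ℕ) (x v : Vec d), (1 + ‖v‖) ^ N * f 0 x v ≤ B N) →
      (∀ t ∈ Ico 0 T, ∀ x v, |f t x v - mx a k u v| ≤ Λ₀ * Wp p v) →
      (∀ t ∈ Ico 0 T, ∀ (N : ℕ) (x v : Vec d), (1 + ‖v‖) ^ N * f t x v ≤ Cl N) ∧
      ∀ t ∈ Ioo 0 T, ∀ x, FB Cl (f t x) := by
  obtain ⟨Cm, hCm⟩ := mx_FB ha hk u
  obtain ⟨A, hA⟩ : ∃ A : ℝ, A = ((d : ℝ) + 1) ^ p * |Cm (2 * p)| + 1 := ⟨_, rfl⟩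
  have hA0 : 0 ≤ A := by rw [hA]; positivity
  have hmA : ∀ v, mx a k u v ≤ (A - 1) * Wp p v := fun v => by
    rw [hA, add_sub_cancel_right]
    exact (DcL_iff p v _ _).1 (DcL_le (mx_pos ha u v).le (hCm.le (2 * p) v))
  have hmA' : ∀ v, mx a k u v ≤ A * Wp p v := fun v => by
    have h3 := hmA v
    have h4 := Wp_pos p v
    linarith
  have hWi : Integrable (Wp p : Vec d → ℝ) := DcL_Wint (by omega)
  have hmi : Integrable (mx a k u : Vec d → ℝ) := by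
    refine Integrable.mono' (hWi.const_mul A) hCm.nice.cont.aestronglyMeasurable
      (Eventually.of_forall fun v => ?_)
    rw [Real.norm_of_nonneg (mx_pos ha u v).le]
    exact hmA' v
  obtain ⟨m, hm⟩ : ∃ m : ℝ, m = ∫ v, mx a k u v := ⟨_, rfl⟩
  have hm0 : 0 < m := by rw [hm]; exact mx_mass ha hk u
  obtain ⟨I, hI⟩ : ∃ I : ℝ, I = ∫ v : Vec d, Wp p v := ⟨_, rfl⟩
  have hI0 : 0 ≤ I := by rw [hI]; exact integral_nonneg fun z => (Wp_pos _ z).le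
  obtain ⟨L, hL0, hL1, hL2⟩ : ∃ L : ℝ, 0 < L ∧ L ≤ 1 ∧ L * I ≤ m / 2 := by
    refine ⟨min 1 (m / 2 / (I + 1)), by positivity, min_le_left _ _, ?_⟩
    refine (mul_le_mul_of_nonneg_right (min_le_right _ _) hI0).trans ?_
    rw [div_mul_eq_mul_div, div_le_iff₀ (by positivity)]
    nlinarith
  have hdrift : ∀ N : ℕ, ∃ c > 0, ∃ R : ℝ, ∀ g : Vec d → ℝ, CW p A g → (∀ v, 0 ≤ g v) →
      m / 2 ≤ ∫ v, g v → ∀ v : Vec d, R ≤ len v →
      ctr γ g (Wp (max N d)) v + cb γ g v * Wp (max N d) v ≤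
        -c * (1 + nsq v) ^ (γ / 2) * Wp (max N d) v := fun N =>
    drift hd h1 h2 (le_max_right N d) hp A (half_pos hm0)
  choose c hc R hR using hdrift
  refine ⟨L, hL0, fun B => ⟨fun N => 2 ^ (max N d) *
    (1 + ((d : ℝ) + 1) ^ (max N d) * |B (2 * (max N d))| + A * (1 + R N ^ 2) ^ (max N d)), ?_⟩⟩
  intro T f hf hf0 hfd
  have hf' : IsClassicalSol T (fun t x => landauQ γ (f t x)) f := hf
  have hfA : ∀ t ∈ Ico 0 T, ∀ x v, f t x v ≤ A * Wp p v := fun t ht x v => by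
    have h3 := (abs_le.1 (hfd t ht x v)).2
    have h4 := hmA v
    have h5 := Wp_pos p v
    have h6 : L * Wp p v ≤ 1 * Wp p v := mul_le_mul_of_nonneg_right hL1 h5.le
    linarith
  have hfc : ∀ t ∈ Ico 0 T, ∀ x, Continuous (f t x) := fun t ht x => by
    have h3 : Continuous fun v : Vec d => ((t, x, v) : ℝ × Vec d × Vec d) := by fun_prop
    exact hf'.isCont.comp_continuous h3 fun v => ⟨ht, mem_univ _⟩
  have hfm : ∀ t ∈ Ico 0 T, ∀ x, m / 2 ≤ ∫ v, f t x v := fun t ht x => by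
    have hfi : Integrable (f t x) := by
      refine Integrable.mono' (hWi.const_mul A) (hfc t ht x).aestronglyMeasurable
        (Eventually.of_forall fun v => ?_)
      rw [Real.norm_of_nonneg (hf'.nonneg t ht x v)]
      exact hfA t ht x v
    have h3 : (∫ v, mx a k u v) - L * ∫ v : Vec d, Wp p v ≤ ∫ v, f t x v := by
      rw [← integral_const_mul, ← integral_sub hmi (hWi.const_mul L)]
      refine integral_mono (hmi.sub (hWi.const_mul L)) hfi fun v => ?_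
      have := (abs_le.1 (hfd t ht x v)).1
      show mx a k u v - L * Wp p v ≤ f t x v
      linarith
    rw [← hI, ← hm] at h3
    linarith
  have key : ∀ t ∈ Ico 0 T, ∀ (N : ℕ) (x v : Vec d), (1 + ‖v‖) ^ N * f t x v ≤ 2 ^ (max N d) *
      (1 + ((d : ℝ) + 1) ^ (max N d) * |B (2 * (max N d))| + A * (1 + R N ^ 2) ^ (max N d)) := by
    intro t ht N x v
    have h3 := DcL_one hd h1 h2 hA0 (hc N) (hR N) (B (2 * (max N d))) hf
      (fun y w => hf0 (2 * (max N d)) y w) hfA hfm t ht x v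
    have h0 := hf'.nonneg t ht x v
    have hn := norm_nonneg v
    have h4 : (1 + ‖v‖) ^ 2 ≤ 2 * (1 + nsq v) := by
      have := norm_sq_le_sq v
      nlinarith [sq_nonneg (1 - ‖v‖)]
    have h5 : (1 + ‖v‖) ^ N ≤ 2 ^ (max N d) * (1 + nsq v) ^ (max N d) := by
      calc (1 + ‖v‖) ^ N ≤ (1 + ‖v‖) ^ (2 * (max N d)) := by
            refine pow_le_pow_right₀ (by linarith) ?_
            have := le_max_left N d
            omega
        _ = ((1 + ‖v‖) ^ 2) ^ (max N d) := pow_mul _ _ _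
        _ ≤ (2 * (1 + nsq v)) ^ (max N d) := pow_le_pow_left₀ (by positivity) h4 _
        _ = 2 ^ (max N d) * (1 + nsq v) ^ (max N d) := mul_pow _ _ _
    calc (1 + ‖v‖) ^ N * f t x v ≤ (2 ^ (max N d) * (1 + nsq v) ^ (max N d)) * f t x v :=
          mul_le_mul_of_nonneg_right h5 h0
      _ = 2 ^ (max N d) * (f t x v * (1 + nsq v) ^ (max N d)) := by ring
      _ ≤ _ := mul_le_mul_of_nonneg_left h3 (by positivity)
  exact ⟨key, fun t ht x => ⟨IsClassicalSol.nice hf' ht x,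
    fun w => hf'.nonneg t ⟨ht.1.le, ht.2⟩ x w, fun N w => key t ⟨ht.1.le, ht.2⟩ N x w⟩⟩

end Pool.Agent.H48.LN
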