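import Pool.Agent.H48.LN.Nd
import Pool.Agent.H48.LN.Bd
import Pool.Agent.H48.LN.Sec

/-!
# Module Dif: differences of the operator

`landau_nd` for `F` and `G`: `ctr F F + cb F F - ctr G G - cb G G`. `ab γ F - ab γ G = ab γ (F - G)` for `Nice` functions (linearity of the integral; `kern_landauA .. .integrable`, as in `lcv_sum`, H15/AV/LCv.lean), the same for `cb` (integrability: `len_int` of H82/LK/LFin). `ctr F F - ctr F G = ctr F (F - G)` is `ctr_sub`; `ctr F G - ctr G G = Σ (ab F - ab G) ∂∂G`.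
-/

set_option autoImplicit false

open MeasureTheory Set Filter Topology Pool.Agent.H25.Kin Pool.Agent.H48.PR Pool.Agent.H48.NE
open Pool.Agent.H48.PD (FB)
open Pool.Agent.H15.AV (ab)

namespace Pool.Agent.H48.LN

variable {d : ℕ} {γ : ℝ}

theorem ab_subN (h1 : -2 < γ) (h2 : γ ≤ 0) {g h : Vec d → ℝ} (hg : Nice g) (hh : Nice h)
    (i j : Fin d) (v : Vec d) :
    ab γ (fun w => g w - h w) i j v = ab γ g i j v - ab γ h i j v := by
  have ig := (kern_landauA (d := d) h1 h2 i j).integrable hg.cont hg.rd v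
  have ih := (kern_landauA (d := d) h1 h2 i j).integrable hh.cont hh.rd v
  unfold ab conv
  rw [← integral_sub ig ih]
  refine integral_congr_ae (Eventually.of_forall fun z => ?_)
  simp only [smul_eq_mul]
  ring

private theorem dif_int (hd : 2 ≤ d) (h1 : -2 < γ) (h2 : γ ≤ 0) {g : Vec d → ℝ} (hg : Nice g)
    (v : Vec d) : Integrable fun z : Vec d => len z ^ γ * g (v - z) := by
  have h := (Pool.Agent.H82.LK.len_int hd h1 h2 hg v).comp_sub_left v
  refine h.congr (Eventually.of_forall fun z => ?_)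
  simp only [sub_sub_cancel]
  ring

theorem cb_subN (hd : 2 ≤ d) (h1 : -2 < γ) (h2 : γ ≤ 0) {g h : Vec d → ℝ} (hg : Nice g) (hh : Nice h)
    (v : Vec d) : cb γ (fun w => g w - h w) v = cb γ g v - cb γ h v := by
  unfold cb
  rw [← mul_sub, ← integral_sub (dif_int hd h1 h2 hg v) (dif_int hd h1 h2 hh v)]
  congr 1
  refine integral_congr_ae (Eventually.of_forall fun z => ?_)
  ring

theorem dif_eq (hd : 2 ≤ d) (h1 : -2 < γ) (h2 : γ ≤ 0) {F G : Vec d → ℝ} (hF : Nice F) (hG : Nice G)
    (v : Vec d) : landauQ γ F v - landauQ γ G v =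
      ctr γ F (fun w => F w - G w) v + ctr γ (fun w => F w - G w) G v +
        cb γ F v * (F v - G v) + cb γ (fun w => F w - G w) v * G v := by
  have e1 := ctr_sub (γ := γ) F hF.smooth hG.smooth v
  have e2 : ctr γ (fun w => F w - G w) G v = ctr γ F G v - ctr γ G G v := by
    unfold ctr
    rw [← Finset.sum_sub_distrib]
    refine Finset.sum_congr rfl fun i _ => ?_
    rw [← Finset.sum_sub_distrib]
    refine Finset.sum_congr rfl fun j _ => ?_
    rw [ab_subN h1 h2 hF hG, sub_mul]
  rw [landau_nd hd h1 h2 hF v, landau_nd hd h1 h2 hG v, e1, e2, cb_subN hd h1 h2 hF hG]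
  ring

end Pool.Agent.H48.LN
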