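import Pool.Agent.H48.LN.Bd
import Pool.Agent.H48.LN.MxL
import Pool.Agent.H15.AV.LCv

/-!
# Module EllM: ellipticity, trace and oscillation of the diffusion matrix near a Maxwellian

* `c₀` of `coercive` (H15/AV/LCv) for the single function `M` (`Good m N M`, `m = ∫ M`, `N` = maximum of the mass, the energy and the entropy; radius `R+1` in the norm `‖v‖ ≤ len v`): `c₀ nsq ξ ≤ Σ ab M ξ ξ` for `len v ≤ R`. Put `lam ≤ c₀/4`. `|Σ ab (F-M) ξ ξ| ≤ d² K Λ (1+R²) nsq ξ ≤ (c₀/2) nsq ξ` if `Λ ≤ Λ₁` (`ab_bd`, `ab_sub`, `|ξ_i ξ_j| ≤ nsq ξ`).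
* trace: `Σ_i ab F i i ≤ d K (A+1) (1+R²)` (`F = M + (F-M)`, `Λ ≤ 1`); make `lam` smaller.
* `|Σ (ab F(v) - ab G(w)) ξ ξ| ≤ |ab F(v) - ab M(v)| + |ab M(v) - ab M(w)| + |ab M(w) - ab G(w)|`, the first and the last `≤ d² K Λ (1+(R+1)²) nsq ξ` (`r₀ ≤ 1`), the middle one `→ 0` with `r₀` uniformly (`ab_cont` (H15/AV/LCo), uniform continuity on the compact ball `‖v‖ ≤ R + 1`).
-/

set_option autoImplicit false

open MeasureTheory Set Filter Topology Pool.Agent.H25.Kin Pool.Agent.H48.PR Pool.Agent.H48.NE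
open Pool.Agent.H48.PD (FB)
open Pool.Agent.H15.AV (ab)

namespace Pool.Agent.H48.LN

variable {d : ℕ} {γ : ℝ}

private lemma EllM_form {a : Fin d → Fin d → ℝ} {D : ℝ} (h : ∀ i j, |a i j| ≤ D) (ξ : Vec d) :
    |∑ i, ∑ j, a i j * (ξ i * ξ j)| ≤ d * d * D * nsq ξ := by
  have h1 : ∀ i j, |a i j * (ξ i * ξ j)| ≤ D * nsq ξ := by
    intro i j
    rw [abs_mul]
    exact mul_le_mul (h i j) (coord_mul_le ξ i j) (abs_nonneg _) ((abs_nonneg _).trans (h i j))
  calc |∑ i, ∑ j, a i j * (ξ i * ξ j)| ≤ ∑ i : Fin d, ∑ j : Fin d, |a i j * (ξ i * ξ j)| :=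
        (Finset.abs_sum_le_sum_abs _ _).trans
          (Finset.sum_le_sum fun i _ => Finset.abs_sum_le_sum_abs _ _)
    _ ≤ ∑ _i : Fin d, ∑ _j : Fin d, D * nsq ξ :=
        Finset.sum_le_sum fun i _ => Finset.sum_le_sum fun j _ => h1 i j
    _ = d * d * D * nsq ξ := by
        simp only [Finset.sum_const, Finset.card_univ, Fintype.card_fin, nsmul_eq_mul]
        ring

private lemma EllM_mass {a k : ℝ} (ha : 0 < a) (hk : 0 < k) (u : Vec d) :
    0 < ∫ v, mx a k u v := by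
  have hN := mx_nice ha hk u
  have hI : Integrable (mx a k u) := hN.rd.integrable hN.cont.aestronglyMeasurable
  rw [integral_pos_iff_support_of_nonneg (fun v => (mx_pos ha u v).le) hI]
  have : Function.support (mx a k u) = univ := by
    ext v
    simp [(mx_pos ha u v).ne']
  rw [this]
  exact Measure.measure_univ_pos.2 (NeZero.ne _)

private lemma EllM_CW_nonneg {p : ℕ} {C : ℝ} {g : Vec d → ℝ} (h : CW p C g) : 0 ≤ C := by
  have h1 := h.le 0
  have h2 := Wp_pos p (0 : Vec d)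
  by_contra hc
  have h3 : C * Wp p (0 : Vec d) < 0 := mul_neg_of_neg_of_pos (not_le.mp hc) h2
  linarith [abs_nonneg (g 0)]

private lemma EllM_cw_add {p : ℕ} {A L : ℝ} {M F : Vec d → ℝ} (hM : CW p A M)
    (hF : CW p L (fun v => F v - M v)) : CW p (A + L) F := by
  refine ⟨?_, fun v => ?_⟩
  · have h1 := hF.cont.add hM.cont
    have e : (fun v => F v - M v) + M = F := by
      funext v
      simp
    rwa [e] at h1
  · have h1 := hF.le v
    have h2 := hM.le v
    have h3 : |F v| ≤ |F v - M v| + |M v| := by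
      have := abs_add_le (F v - M v) (M v)
      simpa using this
    have e : (A + L) * Wp p v = A * Wp p v + L * Wp p v := by ring
    rw [e]
    linarith

private lemma EllM_nsq {v : Vec d} {R : ℝ} (h : len v ≤ R) : nsq v ≤ R ^ 2 := by
  rw [← len_sq]
  exact pow_le_pow_left₀ (len_nonneg v) h 2

theorem ellM (hd : 2 ≤ d) (h1 : -2 < γ) (h2 : γ ≤ 0) {p : ℕ} (hp : d + 2 ≤ p) {a k : ℝ} (ha : 0 < a)
    (hk : 0 < k) (u : Vec d) (R : ℝ) : ∃ lam : ℝ, 0 < lam ∧ lam ≤ 1 ∧ ∀ e > 0, ∃ Λ₁ > 0, ∃ r₀ > 0,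
      ∀ F G : Vec d → ℝ, CW p Λ₁ (fun v => F v - mx a k u v) → CW p Λ₁ (fun v => G v - mx a k u v) →
      ∀ v w : Vec d, len v ≤ R → len (v - w) ≤ r₀ →
      (∀ ξ : Vec d, 2 * lam * nsq ξ ≤ ∑ i, ∑ j, ab γ F i j v * (ξ i * ξ j)) ∧
      (∑ i, ab γ F i i v ≤ 1 / lam) ∧
      ∀ ξ : Vec d, |∑ i, ∑ j, ab γ F i j v * (ξ i * ξ j) - ∑ i, ∑ j, ab γ G i j w * (ξ i * ξ j)| ≤
        e * nsq ξ := by
  set M := mx a k u with hMdef
  have hMN : Nice M := mx_nice ha hk u
  obtain ⟨K, hK0, hK⟩ := ab_bd (d := d) h1 h2 hp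
  obtain ⟨A, hA0, hA⟩ := mx_cw (d := d) ha hk u p
  set S : ℝ := max R 0 + 1 with hS
  have hS1 : 1 ≤ S := by rw [hS]; linarith [le_max_right R 0]
  have hSR : R + 1 ≤ S := by rw [hS]; linarith [le_max_left R 0]
  set m : ℝ := ∫ v, M v with hm
  have hmpos : 0 < m := EllM_mass ha hk u
  set N : ℝ := max (∫ v, M v) (max (∫ v, M v * nsq v) (∫ v, M v * Real.log (M v))) with hN
  have hgood : H15.AV.Good m N M := by
    refine ⟨le_rfl, le_max_left _ _, ?_, ?_⟩
    · exact (le_max_left _ _).trans (le_max_right _ _)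
    · exact (le_max_right _ _).trans (le_max_right _ _)
  obtain ⟨c₀, hc₀, hcoer⟩ := H15.AV.coercive (d := d) hd h1 h2 (R := S) (by linarith) hmpos N
  have hcoer' := hcoer M hMN (fun v => (mx_pos ha u v).le) hgood
  set B : ℝ := 1 + S ^ 2 with hB
  have hB1 : 1 ≤ B := by rw [hB]; nlinarith
  have hnsq : ∀ v : Vec d, len v ≤ S → 1 + nsq v ≤ B := fun v hv => by
    rw [hB]; linarith [EllM_nsq hv]
  set Tr : ℝ := d * (K * (A + 1) * B) with hTr
  have hTr0 : 0 ≤ Tr := by rw [hTr]; positivity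
  have hlam0 : 0 < min 1 (min (c₀ / 4) (1 / (Tr + 1))) := by
    refine lt_min one_pos (lt_min (by positivity) (by positivity))
  refine ⟨min 1 (min (c₀ / 4) (1 / (Tr + 1))), hlam0, min_le_left _ _, ?_⟩
  set lam := min 1 (min (c₀ / 4) (1 / (Tr + 1))) with hlam
  intro e he
  set Kd : ℝ := d * d * (K * B) with hKd
  have hKd0 : 0 ≤ Kd := by rw [hKd]; positivity
  set Λ₁ : ℝ := min 1 (min (c₀ / 2 / (Kd + 1)) (e / 3 / (Kd + 1))) with hΛ
  have hΛ0 : 0 < Λ₁ := lt_min one_pos (lt_min (by positivity) (by positivity))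
  have hΛ1 : Λ₁ ≤ 1 := min_le_left _ _
  have hΛ2 : Kd * Λ₁ ≤ c₀ / 2 := by
    have h : Λ₁ ≤ c₀ / 2 / (Kd + 1) := (min_le_right _ _).trans (min_le_left _ _)
    rw [le_div_iff₀ (by positivity)] at h
    nlinarith
  have hΛ3 : Kd * Λ₁ ≤ e / 3 := by
    have h : Λ₁ ≤ e / 3 / (Kd + 1) := (min_le_right _ _).trans (min_le_right _ _)
    rw [le_div_iff₀ (by positivity)] at h
    nlinarith
  -- uniform continuity
  have hcont : Continuous fun v : Vec d => fun i j : Fin d => ab γ M i j v :=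
    continuous_pi fun i => continuous_pi fun j => H15.AV.ab_cont h1 h2 hMN.cont hMN.rd i j
  have hcpt : IsCompact (Metric.closedBall (0 : Vec d) S) := isCompact_closedBall 0 S
  have huc := hcpt.uniformContinuousOn_of_continuous hcont.continuousOn
  rw [Metric.uniformContinuousOn_iff] at huc
  have he' : 0 < e / 3 / (d * d + 1) := by positivity
  obtain ⟨δ, hδ, huc⟩ := huc _ he'
  refine ⟨Λ₁, hΛ0, min 1 (δ / 2), lt_min one_pos (by positivity), ?_⟩
  intro F G hF hG v w hv hvw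
  have hvS : len v ≤ S := by linarith
  have hvw1 : len (v - w) ≤ 1 := hvw.trans (min_le_left _ _)
  have hvwδ : len (v - w) ≤ δ / 2 := hvw.trans (min_le_right _ _)
  have hwS : len w ≤ S := by
    have h3 := H48.PL.len_le_add_sub w v
    rw [len_comm] at h3
    linarith
  have hsub : ∀ (F : Vec d → ℝ), CW p Λ₁ (fun v => F v - M v) → ∀ (v : Vec d), len v ≤ S →
      ∀ i j, |ab γ F i j v - ab γ M i j v| ≤ K * Λ₁ * B := by
    intro F hF v hv i j
    rw [← ab_sub h1 h2 hp (EllM_cw_add hA hF) hA]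
    refine (hK _ _ hF i j v).trans ?_
    exact mul_le_mul_of_nonneg_left (hnsq v hv) (by positivity)
  have hform : ∀ (F : Vec d → ℝ), CW p Λ₁ (fun v => F v - M v) → ∀ (v : Vec d), len v ≤ S →
      ∀ ξ : Vec d, |∑ i, ∑ j, ab γ F i j v * (ξ i * ξ j) - ∑ i, ∑ j, ab γ M i j v * (ξ i * ξ j)| ≤
        Kd * Λ₁ * nsq ξ := by
    intro F hF v hv ξ
    have h3 := EllM_form (hsub F hF v hv) ξ
    have e1 : ∑ i, ∑ j, ab γ F i j v * (ξ i * ξ j) - ∑ i, ∑ j, ab γ M i j v * (ξ i * ξ j) =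
        ∑ i, ∑ j, (ab γ F i j v - ab γ M i j v) * (ξ i * ξ j) := by
      rw [← Finset.sum_sub_distrib]
      refine Finset.sum_congr rfl fun i _ => ?_
      rw [← Finset.sum_sub_distrib]
      exact Finset.sum_congr rfl fun j _ => by ring
    rw [e1]
    refine h3.trans (le_of_eq ?_)
    rw [hKd]
    ring
  refine ⟨fun ξ => ?_, ?_, fun ξ => ?_⟩
  · have h3 := hcoer' v ((norm_le_len v).trans hvS) ξ
    have h4 := (abs_le.1 (hform F hF v hvS ξ)).1
    have h5 : Kd * Λ₁ * nsq ξ ≤ c₀ / 2 * nsq ξ := mul_le_mul_of_nonneg_right hΛ2 (sq_nonneg' ξ)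
    have h6 : lam ≤ c₀ / 4 := (min_le_right _ _).trans (min_le_left _ _)
    have h7 : 2 * lam * nsq ξ ≤ c₀ / 2 * nsq ξ :=
      mul_le_mul_of_nonneg_right (by linarith) (sq_nonneg' ξ)
    linarith
  · have h3 : ∀ i, ab γ F i i v ≤ K * (A + 1) * B := by
      intro i
      refine (le_abs_self _).trans ((hK _ _ (EllM_cw_add hA hF) i i v).trans ?_)
      have h4 := hnsq v hvS
      have h5 : 0 ≤ 1 + nsq v := by linarith [sq_nonneg' v]
      gcongr
    have h4 : ∑ i, ab γ F i i v ≤ Tr := by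
      refine (Finset.sum_le_sum fun i _ => h3 i).trans (le_of_eq ?_)
      rw [hTr, Finset.sum_const, Finset.card_univ, Fintype.card_fin, nsmul_eq_mul]
    have h5 : lam ≤ 1 / (Tr + 1) := (min_le_right _ _).trans (min_le_right _ _)
    have h6 : Tr + 1 ≤ 1 / lam := by
      rw [le_div_iff₀ hlam0]
      rw [le_div_iff₀ (by positivity)] at h5
      linarith
    linarith
  · have hn := sq_nonneg' ξ
    have h3 := hform F hF v hvS ξ
    have h4 := hform G hG w hwS ξ
    have h5 : |∑ i, ∑ j, ab γ M i j v * (ξ i * ξ j) - ∑ i, ∑ j, ab γ M i j w * (ξ i * ξ j)| ≤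
        e / 3 * nsq ξ := by
      have h6 : ∀ i j, |ab γ M i j v - ab γ M i j w| ≤ e / 3 / (d * d + 1) := by
        intro i j
        have hd1 : dist v w < δ := by
          rw [dist_eq_norm]
          exact lt_of_le_of_lt ((norm_le_len _).trans hvwδ) (by linarith)
        have h7 := huc v (by simpa using (norm_le_len v).trans hvS) w
          (by simpa using (norm_le_len w).trans hwS) hd1
        have h8 := (dist_le_pi_dist (fun i j : Fin d => ab γ M i j v)
          (fun i j : Fin d => ab γ M i j w) i).trans h7.le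
        have h9 := (dist_le_pi_dist (fun j : Fin d => ab γ M i j v)
          (fun j : Fin d => ab γ M i j w) j).trans h8
        rwa [Real.dist_eq] at h9
      have h7 := EllM_form h6 ξ
      have e1 : ∑ i, ∑ j, ab γ M i j v * (ξ i * ξ j) - ∑ i, ∑ j, ab γ M i j w * (ξ i * ξ j) =
          ∑ i, ∑ j, (ab γ M i j v - ab γ M i j w) * (ξ i * ξ j) := by
        rw [← Finset.sum_sub_distrib]
        refine Finset.sum_congr rfl fun i _ => ?_
        rw [← Finset.sum_sub_distrib]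
        exact Finset.sum_congr rfl fun j _ => by ring
      rw [e1]
      refine h7.trans (mul_le_mul_of_nonneg_right ?_ hn)
      rw [mul_div_assoc', div_le_iff₀ (by positivity)]
      nlinarith
    have h6 : Kd * Λ₁ * nsq ξ ≤ e / 3 * nsq ξ := mul_le_mul_of_nonneg_right hΛ3 hn
    have h7 := abs_le.1 h3
    have h8 := abs_le.1 h4
    have h9 := abs_le.1 h5
    rw [abs_le]
    constructor
    · linarith [h7.1, h7.2, h8.1, h8.2, h9.1, h9.2]
    · linarith [h7.1, h7.2, h8.1, h8.2, h9.1, h9.2]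

end Pool.Agent.H48.LN
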