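import Pool.Agent.H48.LN.Defs
import Pool.Agent.H82.LK.LFin

/-!
# Module LenI: integrals of `|z|^γ` against the weights

`len z ^ γ ≤ 1` for `len z ≥ 1` and `∫_{len z ≤ 1} len z ^ γ < ∞` because `γ > -2 ≥ -d` (`int_norm_rpow` or `int_len_rpow`-type lemma used in `len_int`, H82/LK/LFin: `‖z‖^γ ((1+‖z‖)^(d+3))⁻¹` is integrable; multiply by `(1+‖z‖)^(d+3) ≤ C` on the ball). `Wp q (v - z) ≤ 1`, `∫ Wp q < ∞` for `2q ≥ d+1` (`Dc0_Wint` in H15/NE0/Near0.lean, copy).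
* `nsq v ≤ 4`: split at `len z = 1`: the integral is `≤ C`, and `(1+nsq v)^(γ/2) ≥ 5^(-1)`.
* `nsq v > 4`, `r = len v`: region `len z ≥ r/2`: `len z ^ γ ≤ (r/2)^γ ≤ 2^(-γ) r^γ`, `∫ Wp q (v-z) dz ≤ C`, `r^γ ≤ 2 (1+nsq v)^(γ/2)` up to a factor `(1 + nsq v ≤ 2 nsq v)`: `r^γ = (nsq v)^(γ/2) ≤ 2^(-γ/2) (1+nsq v)^(γ/2)`. Region `len z < r/2`: `len (v-z) ≥ r/2`, `Wp q (v-z) ≤ (1+nsq v/4)^(-q) ≤ 4^q Wp q v`, and
`∫_{len z < r/2} len z ^ γ ≤ C + volume {len z ≤ r/2} ≤ C (1+nsq v)^d`: total `≤ C Wp (q-d) v ≤ C (1+nsq v)^(-1) ≤ C (1+nsq v)^(γ/2)` since `q ≥ d+1`, `γ/2 ≥ -1`.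
-/

set_option autoImplicit false

open MeasureTheory Set Filter Topology Pool.Agent.H25.Kin Pool.Agent.H48.PR Pool.Agent.H48.NE
open Pool.Agent.H48.PD (FB)
open Pool.Agent.H15.AV (ab)

namespace Pool.Agent.H48.LN

variable {d : ℕ} {γ : ℝ}

private lemma leni_Wint {q : ℕ} (hq : d + 1 ≤ 2 * q) : Integrable (Wp q : Vec d → ℝ) := by
  refine Integrable.mono' ((integrable_wt (d := d)).const_mul ((2 : ℝ) ^ q))
    (Wp_cont q).aestronglyMeasurable (Eventually.of_forall fun v => ?_)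
  have hn := norm_nonneg v
  have h1 : (1 + ‖v‖) ^ 2 ≤ 2 * (1 + nsq v) := by
    have := norm_sq_le_sq v
    nlinarith [sq_nonneg (1 - ‖v‖)]
  have h2 : (1 + ‖v‖) ^ (d + 1) ≤ 2 ^ q * (1 + nsq v) ^ q := by
    calc (1 + ‖v‖) ^ (d + 1) ≤ (1 + ‖v‖) ^ (2 * q) := pow_le_pow_right₀ (by linarith) hq
      _ = ((1 + ‖v‖) ^ 2) ^ q := pow_mul _ _ _
      _ ≤ (2 * (1 + nsq v)) ^ q := pow_le_pow_left₀ (by positivity) h1 q
      _ = 2 ^ q * (1 + nsq v) ^ q := mul_pow _ _ _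
  have h3 : 0 < (1 + nsq v) ^ q := by
    have := sq_nonneg' v
    positivity
  rw [Real.norm_of_nonneg (Wp_pos q v).le, Wp, wt, ← div_eq_mul_inv, ← one_div,
    div_le_div_iff₀ h3 (by positivity), one_mul]
  exact h2

private lemma leni_rp (z : Vec d) : len z ^ γ = nsq z ^ (γ / 2) := by
  unfold len
  rw [Real.sqrt_eq_rpow, ← Real.rpow_mul (sq_nonneg' z)]
  congr 1
  ring

private lemma leni_sub (v z : Vec d) : nsq v ≤ 2 * (nsq z + nsq (v - z)) := by
  unfold nsq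
  rw [← Finset.sum_add_distrib, Finset.mul_sum]
  refine Finset.sum_le_sum fun i _ => ?_
  have : (v - z) i = v i - z i := rfl
  rw [this]
  nlinarith [sq_nonneg (2 * z i - v i)]

/-- Peetre with the singular factor -/
private lemma leni_alg {t a b c : ℝ} (h0 : 0 ≤ t) (h1 : t ≤ 1) (ha : 0 < a) (hb : 0 ≤ b)
    (hc : 0 ≤ c) (h : c ≤ 2 * (a + b)) :
    a ^ (-t) * (1 + c) ^ t ≤ 2 * (1 + b) * (1 + a ^ (-t)) := by
  have e1 : (1 + c) ^ t ≤ 2 * ((1 + a) ^ t * (1 + b)) := by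
    calc (1 + c) ^ t ≤ (2 * ((1 + a) * (1 + b))) ^ t :=
          Real.rpow_le_rpow (by linarith) (by nlinarith [mul_nonneg ha.le hb]) h0
      _ = 2 ^ t * ((1 + a) ^ t * (1 + b) ^ t) := by
          rw [Real.mul_rpow (by norm_num) (by positivity), Real.mul_rpow (by positivity)
            (by positivity)]
      _ ≤ 2 * ((1 + a) ^ t * (1 + b)) := by
          have f1 : (2 : ℝ) ^ t ≤ 2 := by
            calc (2 : ℝ) ^ t ≤ 2 ^ (1 : ℝ) :=
                  Real.rpow_le_rpow_of_exponent_le (by norm_num) h1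
              _ = 2 := Real.rpow_one 2
          have f2 : (1 + b) ^ t ≤ 1 + b := by
            calc (1 + b) ^ t ≤ (1 + b) ^ (1 : ℝ) :=
                  Real.rpow_le_rpow_of_exponent_le (by linarith) h1
              _ = 1 + b := Real.rpow_one _
          have f3 : 0 ≤ (1 + a) ^ t := Real.rpow_nonneg (by linarith) _
          have f4 : 0 ≤ (1 + b) ^ t := Real.rpow_nonneg (by linarith) _
          gcongr
  have e2 : (1 + a) ^ t ≤ 1 + a ^ t := by
    have g1 : (1 + a) ^ t = (1 + a) ^ (t - 1) * (1 + a) := by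
      rw [← Real.rpow_add_one (by positivity)]
      congr 1
      ring
    have g2 : a ^ t = a ^ (t - 1) * a := by
      rw [← Real.rpow_add_one ha.ne']
      congr 1
      ring
    have g3 : (1 + a) ^ (t - 1) ≤ 1 :=
      Real.rpow_le_one_of_one_le_of_nonpos (by linarith) (by linarith)
    have g4 : (1 + a) ^ (t - 1) ≤ a ^ (t - 1) :=
      Real.rpow_le_rpow_of_nonpos ha (by linarith) (by linarith)
    rw [g1, g2]
    nlinarith [mul_le_mul_of_nonneg_right g4 ha.le]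
  have e3 : a ^ (-t) * a ^ t = 1 := by
    rw [← Real.rpow_add ha, neg_add_cancel, Real.rpow_zero]
  have e4 : 0 ≤ a ^ (-t) := Real.rpow_nonneg ha.le _
  calc a ^ (-t) * (1 + c) ^ t ≤ a ^ (-t) * (2 * ((1 + a ^ t) * (1 + b))) := by
        refine mul_le_mul_of_nonneg_left (e1.trans ?_) e4
        have : 0 ≤ 1 + b := by linarith
        gcongr
    _ = 2 * (1 + b) * (a ^ (-t) + a ^ (-t) * a ^ t) := by ring
    _ = 2 * (1 + b) * (1 + a ^ (-t)) := by rw [e3]; ring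

private lemma leni_W (q : ℕ) (v : Vec d) : Wp (q + 1) v * (1 + nsq v) = Wp q v := by
  have h := sq_nonneg' v
  have h1 : (1 + nsq v) ≠ 0 := by positivity
  unfold Wp
  rw [pow_succ, mul_inv, mul_assoc, inv_mul_cancel₀ h1, mul_one]

/-- the pointwise bound -/
private lemma leni_pt (h1 : -2 < γ) (h2 : γ ≤ 0) (q : ℕ) (v z : Vec d) :
    len z ^ γ * Wp (q + 1) (v - z) ≤ (1 + nsq v) ^ (γ / 2) *
      (2 * (2 * Wp q (v - z) + 2 ^ (d + 3) * (‖z‖ ^ γ * ((1 + ‖z‖) ^ (d + 3))⁻¹))) := by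
  have hv := sq_nonneg' v
  have hb := sq_nonneg' (v - z)
  have hW := Wp_pos q (v - z)
  have hW1 := Wp_le_one q (v - z)
  have hc0 : 0 < 1 + nsq v := by linarith
  have hn := norm_nonneg z
  have hX : 0 ≤ ‖z‖ ^ γ * ((1 + ‖z‖) ^ (d + 3))⁻¹ := by
    have := Real.rpow_nonneg hn γ
    positivity
  -- the bound of the singular term
  have k1 : len z ^ γ * Wp q (v - z) ≤ Wp q (v - z) +
      2 ^ (d + 3) * (‖z‖ ^ γ * ((1 + ‖z‖) ^ (d + 3))⁻¹) := by
    rcases le_total (len z) 1 with h | h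
    · by_cases hz : z = 0
      · subst hz
        rw [len_zero]
        have : (0 : ℝ) ^ γ ≤ 1 := by
          rcases eq_or_ne γ 0 with e | e
          · rw [e, Real.rpow_zero]
          · rw [Real.zero_rpow e]
            norm_num
        have h3 : 0 ≤ 2 ^ (d + 3) *
            (‖(0 : Vec d)‖ ^ γ * ((1 + ‖(0 : Vec d)‖) ^ (d + 3))⁻¹) := by positivity
        nlinarith
      · have hz' : 0 < ‖z‖ := norm_pos_iff.2 hz
        have e1 : len z ^ γ ≤ ‖z‖ ^ γ := Real.rpow_le_rpow_of_nonpos hz' (norm_le_len z) h2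
        have e2 : 1 ≤ 2 ^ (d + 3) * ((1 + ‖z‖) ^ (d + 3))⁻¹ := by
          rw [← div_eq_mul_inv, le_div_iff₀ (by positivity), one_mul]
          exact pow_le_pow_left₀ (by positivity) (by linarith [norm_le_len z]) _
        have e3 : 0 ≤ ‖z‖ ^ γ := Real.rpow_nonneg hn γ
        have e4 : 0 ≤ len z ^ γ := Real.rpow_nonneg (len_nonneg z) γ
        calc len z ^ γ * Wp q (v - z) ≤ len z ^ γ * 1 := by gcongr
          _ ≤ ‖z‖ ^ γ * (2 ^ (d + 3) * ((1 + ‖z‖) ^ (d + 3))⁻¹) := by gcongr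
          _ = 2 ^ (d + 3) * (‖z‖ ^ γ * ((1 + ‖z‖) ^ (d + 3))⁻¹) := by ring
          _ ≤ _ := by linarith
    · have e1 : len z ^ γ ≤ 1 := Real.rpow_le_one_of_one_le_of_nonpos h h2
      have h3 : 0 ≤ 2 ^ (d + 3) * (‖z‖ ^ γ * ((1 + ‖z‖) ^ (d + 3))⁻¹) := by positivity
      nlinarith
  have ht : (1 + nsq v) ^ (γ / 2) * (1 + nsq v) ^ (-(γ / 2)) = 1 := by
    rw [← Real.rpow_add hc0, add_neg_cancel, Real.rpow_zero]
  have hp : 0 < (1 + nsq v) ^ (γ / 2) := Real.rpow_pos_of_pos hc0 _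
  -- the main inequality
  have k2 : len z ^ γ * (1 + nsq v) ^ (-(γ / 2)) ≤ 2 * (1 + nsq (v - z)) * (1 + len z ^ γ) := by
    by_cases hz : nsq z = 0
    · have hl : len z = 0 := by
        unfold len
        rw [hz, Real.sqrt_zero]
      have hvz : nsq v ≤ 2 * nsq (v - z) := by
        have := leni_sub v z
        rw [hz] at this
        linarith
      rw [hl]
      have g1 : (1 + nsq v) ^ (-(γ / 2)) ≤ 1 + nsq v := by
        calc (1 + nsq v) ^ (-(γ / 2)) ≤ (1 + nsq v) ^ (1 : ℝ) :=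
              Real.rpow_le_rpow_of_exponent_le (by linarith) (by linarith)
          _ = 1 + nsq v := Real.rpow_one _
      have g2 : (0 : ℝ) ^ γ ≤ 1 := by
        rcases eq_or_ne γ 0 with e | e
        · rw [e, Real.rpow_zero]
        · rw [Real.zero_rpow e]
          norm_num
      have g3 : (0 : ℝ) ≤ (0 : ℝ) ^ γ := Real.rpow_nonneg le_rfl _
      calc (0 : ℝ) ^ γ * (1 + nsq v) ^ (-(γ / 2)) ≤ 1 * (1 + nsq v) := by gcongr
        _ ≤ 2 * (1 + nsq (v - z)) * 1 := by linarith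
        _ ≤ 2 * (1 + nsq (v - z)) * (1 + (0 : ℝ) ^ γ) := by
            have : 0 ≤ 2 * (1 + nsq (v - z)) := by linarith
            gcongr
            linarith
    · have hz' : 0 < nsq z := lt_of_le_of_ne (sq_nonneg' z) (Ne.symm hz)
      have := leni_alg (t := -(γ / 2)) (a := nsq z) (b := nsq (v - z)) (c := nsq v)
        (by linarith) (by linarith) hz' hb hv (leni_sub v z)
      rw [neg_neg, ← leni_rp] at this
      exact this
  have hW' : 0 < Wp (q + 1) (v - z) := Wp_pos _ _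
  calc len z ^ γ * Wp (q + 1) (v - z)
      = (1 + nsq v) ^ (γ / 2) * ((len z ^ γ * (1 + nsq v) ^ (-(γ / 2))) * Wp (q + 1) (v - z)) := by
        have : (1 + nsq v) ^ (γ / 2) *
            ((len z ^ γ * (1 + nsq v) ^ (-(γ / 2))) * Wp (q + 1) (v - z)) =
            ((1 + nsq v) ^ (γ / 2) * (1 + nsq v) ^ (-(γ / 2))) *
              (len z ^ γ * Wp (q + 1) (v - z)) := by ring
        rw [this, ht, one_mul]
    _ ≤ (1 + nsq v) ^ (γ / 2) *
          ((2 * (1 + nsq (v - z)) * (1 + len z ^ γ)) * Wp (q + 1) (v - z)) := by gcongr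
    _ = (1 + nsq v) ^ (γ / 2) *
          (2 * (Wp (q + 1) (v - z) * (1 + nsq (v - z)) +
            len z ^ γ * (Wp (q + 1) (v - z) * (1 + nsq (v - z))))) := by ring
    _ = (1 + nsq v) ^ (γ / 2) * (2 * (Wp q (v - z) + len z ^ γ * Wp q (v - z))) := by
        rw [leni_W]
    _ ≤ _ := by
        refine mul_le_mul_of_nonneg_left ?_ hp.le
        linarith

theorem len_loc (hd : 2 ≤ d) (h1 : -2 < γ) (h2 : γ ≤ 0) {q : ℕ} (hq : d + 1 ≤ q) :
    ∃ K : ℝ, 0 ≤ K ∧ ∀ v : Vec d, Integrable (fun z => len z ^ γ * Wp q (v - z)) ∧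
      ∫ z, len z ^ γ * Wp q (v - z) ≤ K * (1 + nsq v) ^ (γ / 2) := by
  obtain ⟨p, rfl⟩ : ∃ p, q = p + 1 := ⟨q - 1, by omega⟩
  have iW : Integrable (Wp p : Vec d → ℝ) := leni_Wint (by omega)
  have iN := int_norm_rpow (d := d) hd h1 h2
  set A : ℝ := ∫ z : Vec d, Wp p z with hA
  set B : ℝ := ∫ z : Vec d, ‖z‖ ^ γ * ((1 + ‖z‖) ^ (d + 3))⁻¹ with hB
  have hA0 : 0 ≤ A := integral_nonneg fun z => (Wp_pos p z).le
  have hB0 : 0 ≤ B := integral_nonneg fun z => by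
    have := Real.rpow_nonneg (norm_nonneg z) γ
    positivity
  refine ⟨2 * (2 * A + 2 ^ (d + 3) * B), by positivity, fun v => ?_⟩
  have iWv : Integrable (fun z : Vec d => Wp p (v - z)) := iW.comp_sub_left v
  have iR : Integrable (fun z : Vec d => (1 + nsq v) ^ (γ / 2) *
      (2 * (2 * Wp p (v - z) + 2 ^ (d + 3) * (‖z‖ ^ γ * ((1 + ‖z‖) ^ (d + 3))⁻¹)))) :=
    (((iWv.const_mul 2).add (iN.const_mul (2 ^ (d + 3)))).const_mul 2).const_mul _
  have hm : Measurable fun z : Vec d => len z ^ γ * Wp (p + 1) (v - z) :=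
    (continuous_len.measurable.pow_const γ).mul
      ((Wp_cont (p + 1)).comp (continuous_const.sub continuous_id)).measurable
  have hi : Integrable (fun z : Vec d => len z ^ γ * Wp (p + 1) (v - z)) := by
    refine iR.mono' hm.aestronglyMeasurable (Eventually.of_forall fun z => ?_)
    rw [Real.norm_of_nonneg (mul_nonneg (Real.rpow_nonneg (len_nonneg z) γ) (Wp_pos _ _).le)]
    exact leni_pt h1 h2 p v z
  refine ⟨hi, ?_⟩
  calc ∫ z : Vec d, len z ^ γ * Wp (p + 1) (v - z)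
      ≤ ∫ z : Vec d, (1 + nsq v) ^ (γ / 2) *
      (2 * (2 * Wp p (v - z) + 2 ^ (d + 3) * (‖z‖ ^ γ * ((1 + ‖z‖) ^ (d + 3))⁻¹))) :=
        integral_mono hi iR fun z => leni_pt h1 h2 p v z
    _ = (1 + nsq v) ^ (γ / 2) * (2 * (2 * A + 2 ^ (d + 3) * B)) := by
        rw [integral_const_mul, integral_const_mul, integral_add (iWv.const_mul 2)
          (iN.const_mul (2 ^ (d + 3))), integral_const_mul, integral_const_mul,
          integral_sub_left_eq_self (fun z : Vec d => Wp p z)]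
    _ = 2 * (2 * A + 2 ^ (d + 3) * B) * (1 + nsq v) ^ (γ / 2) := by ring

end Pool.Agent.H48.LN
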