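import Pool.Agent.H48.LN.RegE
import Pool.Agent.H82.LK.Lim
import Pool.Agent.H82.LK.LFin

/-!
# Module LimE: the exact integration by parts

`reg_eq` with `ε = 1/(n+1) → 0`. Left side: exactly as in `lim_ibp` (H82/LK/Lim.lean; copy its private lemmas). Right side: dominated convergence, for `z ≠ 0`: `|φ z (d (nsq z + ε)^(γ/2) + nsq z γ (nsq z + ε)^(γ/2-1))| ≤ |φ z| (d + |γ|) (nsq z)^(γ/2)` (`γ ≤ 0`, `nsq z ≤ nsq z + ε`), `(nsq z)^(γ/2) = len z ^ γ`; the dominating function is integrable: `len_int` (H82/LK/LFin) with `v = 0`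
(`len (0 - z) = len z`; for `|φ|` use `Integrable.norm` of `len_int`). The limit is `φ z (d + γ) len z ^ γ`.
-/

set_option autoImplicit false

open MeasureTheory Set Filter Topology Pool.Agent.H25.Kin Pool.Agent.H48.PR Pool.Agent.H48.NE
open Pool.Agent.H48.PD (FB)
open Pool.Agent.H15.AV (ab)

namespace Pool.Agent.H48.LN

variable {d : ℕ} {γ : ℝ}

open Pool.Agent.H82.LK (regA)

private lemma LimE_rpow_le {ε : ℝ} (h2 : γ ≤ 0) (hε : 0 < ε) {z : Vec d} (hz : z ≠ 0) :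
    (nsq z + ε) ^ (γ / 2) ≤ nsq z ^ (γ / 2) :=
  Real.rpow_le_rpow_of_nonpos (sq_pos_of_ne hz) (by linarith) (by linarith)

private lemma LimE_len_rpow (γ : ℝ) (z : Vec d) : nsq z ^ (γ / 2) = len z ^ γ := by
  unfold len
  rw [Real.sqrt_eq_rpow, ← Real.rpow_mul (sq_nonneg' z)]
  congr 1
  ring

private lemma LimE_regA_le {ε : ℝ} (h1 : -2 < γ) (h2 : γ ≤ 0) (hε : 0 < ε) {z : Vec d}
    (hz : z ≠ 0) (i j : Fin d) : |regA γ ε z i j| ≤ 2 * (d + 1) * (1 + ‖z‖) ^ 2 := by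
  have h3 : |regA γ ε z i j| ≤ |landauA γ z i j| := by
    unfold regA landauA
    rw [abs_mul, abs_mul]
    refine mul_le_mul_of_nonneg_left ?_ (abs_nonneg _)
    have hn := sq_nonneg' z
    rw [abs_of_nonneg (Real.rpow_nonneg (by linarith) _), abs_of_nonneg (Real.rpow_nonneg hn _)]
    exact LimE_rpow_le h2 hε hz
  exact h3.trans (landauA_PG h1 h2 z i j)

private lemma LimE_cont_rpow (γ : ℝ) {ε : ℝ} (hε : 0 < ε) :
    Continuous fun z : Vec d => (nsq z + ε) ^ γ :=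
  (continuous_sq.add continuous_const).rpow_const fun z =>
    Or.inl (by
      have h3 := sq_nonneg' z
      have h4 : 0 < nsq z + ε := by linarith
      exact h4.ne')

private lemma LimE_regA_meas (γ : ℝ) {ε : ℝ} (hε : 0 < ε) (i j : Fin d) :
    Measurable fun z : Vec d => regA γ ε z i j := by
  unfold regA
  refine Measurable.mul (Measurable.sub ?_ ?_) (LimE_cont_rpow (γ / 2) hε).measurable
  · by_cases h : i = j
    · simpa [h] using (continuous_sq (d := d)).measurable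
    · simp [h]
  · fun_prop

private lemma LimE_dens_le {ε : ℝ} (h2 : γ ≤ 0) (hε : 0 < ε) {z : Vec d} (hz : z ≠ 0) :
    |d * (nsq z + ε) ^ (γ / 2) + nsq z * (γ * (nsq z + ε) ^ (γ / 2 - 1))| ≤
      ((d : ℝ) + |γ|) * len z ^ γ := by
  have hn : 0 < nsq z := sq_pos_of_ne hz
  have hp : 0 < nsq z + ε := by linarith
  have e1 : (nsq z + ε) ^ (γ / 2 - 1) = (nsq z + ε) ^ (γ / 2) / (nsq z + ε) := by
    rw [Real.rpow_sub hp, Real.rpow_one]
  have hA : 0 ≤ (nsq z + ε) ^ (γ / 2) := Real.rpow_nonneg hp.le _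
  have e2 : nsq z * (γ * (nsq z + ε) ^ (γ / 2 - 1)) =
      γ * ((nsq z / (nsq z + ε)) * (nsq z + ε) ^ (γ / 2)) := by
    rw [e1]; ring
  have e3 : nsq z / (nsq z + ε) ≤ 1 := by
    rw [div_le_one hp]; linarith
  have e3' : 0 ≤ nsq z / (nsq z + ε) := by positivity
  have e4 : |nsq z * (γ * (nsq z + ε) ^ (γ / 2 - 1))| ≤ |γ| * (nsq z + ε) ^ (γ / 2) := by
    rw [e2, abs_mul, abs_of_nonneg (mul_nonneg e3' hA)]
    refine mul_le_mul_of_nonneg_left ?_ (abs_nonneg _)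
    nlinarith
  have e5 : |(d : ℝ) * (nsq z + ε) ^ (γ / 2)| = (d : ℝ) * (nsq z + ε) ^ (γ / 2) :=
    abs_of_nonneg (by positivity)
  have e6 : (nsq z + ε) ^ (γ / 2) ≤ len z ^ γ := by
    rw [← LimE_len_rpow]; exact LimE_rpow_le h2 hε hz
  calc |d * (nsq z + ε) ^ (γ / 2) + nsq z * (γ * (nsq z + ε) ^ (γ / 2 - 1))|
      ≤ |(d : ℝ) * (nsq z + ε) ^ (γ / 2)| + |nsq z * (γ * (nsq z + ε) ^ (γ / 2 - 1))| :=
        abs_add_le _ _
    _ ≤ (d : ℝ) * (nsq z + ε) ^ (γ / 2) + |γ| * (nsq z + ε) ^ (γ / 2) := by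
        rw [e5]; exact add_le_add le_rfl e4
    _ = ((d : ℝ) + |γ|) * (nsq z + ε) ^ (γ / 2) := by ring
    _ ≤ ((d : ℝ) + |γ|) * len z ^ γ :=
        mul_le_mul_of_nonneg_left e6 (by positivity)

private lemma LimE_dens_lim {z : Vec d} (hz : z ≠ 0) :
    Tendsto (fun n : ℕ => d * (nsq z + 1 / ((n : ℝ) + 1)) ^ (γ / 2) +
      nsq z * (γ * (nsq z + 1 / ((n : ℝ) + 1)) ^ (γ / 2 - 1))) atTop
      (𝓝 (((d : ℝ) + γ) * len z ^ γ)) := by
  have hn : 0 < nsq z := sq_pos_of_ne hz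
  have h5 : Tendsto (fun n : ℕ => nsq z + 1 / ((n : ℝ) + 1)) atTop (𝓝 (nsq z + 0)) :=
    tendsto_const_nhds.add tendsto_one_div_add_atTop_nhds_zero_nat
  rw [add_zero] at h5
  have h6 := h5.rpow_const (p := γ / 2) (Or.inl hn.ne')
  have h7 := h5.rpow_const (p := γ / 2 - 1) (Or.inl hn.ne')
  have h8 := (h6.const_mul (d : ℝ)).add ((h7.const_mul γ).const_mul (nsq z))
  have h9 : (d : ℝ) * nsq z ^ (γ / 2) + nsq z * (γ * nsq z ^ (γ / 2 - 1)) =
      ((d : ℝ) + γ) * len z ^ γ := by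
    rw [← LimE_len_rpow, Real.rpow_sub hn, Real.rpow_one]
    field_simp
  rw [h9] at h8
  exact h8

private lemma LimE_len_zero_sub (z : Vec d) : len (0 - z) = len z := by
  unfold len nsq
  simp

theorem lim_eq (hd : 2 ≤ d) (h1 : -2 < γ) (h2 : γ ≤ 0) {φ : Vec d → ℝ} (hφ : Nice φ) :
    ∑ i, ∑ j, ∫ z, landauA γ z i j * pd i (pd j φ) z =
      -(((d : ℝ) - 1) * ((d : ℝ) + γ)) * ∫ z, φ z * len z ^ γ := by
  have : Nonempty (Fin d) := ⟨⟨0, by omega⟩⟩
  have hae : ∀ᵐ z : Vec d, z ≠ 0 := by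
    rw [ae_iff]
    simp
  have hint : Integrable fun z => φ z * len z ^ γ := by
    have h3 := Pool.Agent.H82.LK.len_int hd h1 h2 hφ 0
    simpa only [LimE_len_zero_sub] using h3
  have hL : Tendsto (fun n : ℕ => ∑ i, ∑ j, ∫ z, regA γ (1 / ((n : ℝ) + 1)) z i j *
      pd i (pd j φ) z) atTop (𝓝 (∑ i, ∑ j, ∫ z, landauA γ z i j * pd i (pd j φ) z)) := by
    refine tendsto_finsetSum _ fun i _ => tendsto_finsetSum _ fun j _ => ?_
    have hm2 : Measurable (pd i (pd j φ)) := measurable_fderiv_apply_const ℝ (pd j φ) _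
    have hrd : RD (pd i (pd j φ)) :=
      (hφ.pd_rd1 j).mono 1 fun v => by rw [one_mul]; exact pd_le i (pd j φ) v
    have hpg : PG fun z : Vec d => 2 * ((d : ℝ) + 1) * (1 + ‖z‖) ^ 2 := by
      refine ⟨2, 2 * ((d : ℝ) + 1), fun v => ?_⟩
      rw [Real.norm_eq_abs, abs_of_nonneg]
      have := w_pos v
      positivity
    have hmb : Measurable fun z : Vec d =>
        pd i (pd j φ) z * (2 * ((d : ℝ) + 1) * (1 + ‖z‖) ^ 2) := by
      fun_prop
    refine tendsto_integral_of_dominated_convergence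
      (fun z => ‖pd i (pd j φ) z * (2 * ((d : ℝ) + 1) * (1 + ‖z‖) ^ 2)‖) ?_ ?_ ?_ ?_
    · intro n
      exact ((LimE_regA_meas γ (by positivity) i j).mul hm2).aestronglyMeasurable
    · exact ((hrd.mul_PG hpg).integrable hmb.aestronglyMeasurable).norm
    · intro n
      filter_upwards [hae] with z hz
      have h3 := LimE_regA_le h1 h2 (by positivity : (0 : ℝ) < 1 / ((n : ℝ) + 1)) hz i j
      have h4 := w_pos z
      rw [norm_mul, norm_mul, mul_comm]
      refine mul_le_mul_of_nonneg_left ?_ (norm_nonneg _)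
      rw [Real.norm_eq_abs, Real.norm_eq_abs,
        abs_of_nonneg (by positivity : (0 : ℝ) ≤ 2 * ((d : ℝ) + 1) * (1 + ‖z‖) ^ 2)]
      exact h3
    · filter_upwards [hae] with z hz
      refine Tendsto.mul_const _ ?_
      unfold regA landauA
      refine Tendsto.const_mul _ ?_
      have h5 : Tendsto (fun n : ℕ => nsq z + 1 / ((n : ℝ) + 1)) atTop (𝓝 (nsq z + 0)) :=
        tendsto_const_nhds.add tendsto_one_div_add_atTop_nhds_zero_nat
      rw [add_zero] at h5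
      exact h5.rpow_const (Or.inl (sq_pos_of_ne hz).ne')
  have hR : Tendsto (fun n : ℕ => -((d : ℝ) - 1) * ∫ z, φ z *
      (d * (nsq z + 1 / ((n : ℝ) + 1)) ^ (γ / 2) +
        nsq z * (γ * (nsq z + 1 / ((n : ℝ) + 1)) ^ (γ / 2 - 1)))) atTop
      (𝓝 (-((d : ℝ) - 1) * ∫ z, φ z * (((d : ℝ) + γ) * len z ^ γ))) := by
    refine Tendsto.const_mul _ ?_
    refine tendsto_integral_of_dominated_convergence
      (fun z => ((d : ℝ) + |γ|) * ‖φ z * len z ^ γ‖) ?_ ?_ ?_ ?_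
    · intro n
      have hε : (0 : ℝ) < 1 / ((n : ℝ) + 1) := by positivity
      have c1 := LimE_cont_rpow (d := d) (γ / 2) hε
      have c2 := LimE_cont_rpow (d := d) (γ / 2 - 1) hε
      exact (hφ.cont.mul ((c1.const_mul (d : ℝ)).add
        (continuous_sq.mul (c2.const_mul γ)))).aestronglyMeasurable
    · exact hint.norm.const_mul _
    · intro n
      filter_upwards [hae] with z hz
      have hε : (0 : ℝ) < 1 / ((n : ℝ) + 1) := by positivity
      have h3 := LimE_dens_le (γ := γ) h2 hε hz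
      have hl := Real.rpow_nonneg (len_nonneg z) γ
      rw [norm_mul, norm_mul, Real.norm_eq_abs (len z ^ γ), abs_of_nonneg hl,
        Real.norm_eq_abs (_ + _)]
      calc ‖φ z‖ * _ ≤ ‖φ z‖ * (((d : ℝ) + |γ|) * len z ^ γ) :=
            mul_le_mul_of_nonneg_left h3 (norm_nonneg _)
        _ = ((d : ℝ) + |γ|) * (‖φ z‖ * len z ^ γ) := by ring
    · filter_upwards [hae] with z hz
      exact (LimE_dens_lim hz).const_mul _
  have hE := tendsto_nhds_unique (hL.congr fun n : ℕ =>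
    reg_eq (by omega) h1 h2 hφ (by positivity : (0 : ℝ) < 1 / ((n : ℝ) + 1))) hR
  rw [hE]
  have h10 : ∫ z, φ z * (((d : ℝ) + γ) * len z ^ γ) = ((d : ℝ) + γ) * ∫ z, φ z * len z ^ γ := by
    rw [← integral_const_mul]
    congr 1
    funext z
    ring
  rw [h10]
  ring

end Pool.Agent.H48.LN
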