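import Pool.Agent.H48.LN.KMd
import Pool.Agent.H48.LN.Dif
import Pool.Agent.H48.LN.EllM

/-!
# Module ModL: modulus of continuity of the perturbation of a Maxwellian

`M = mx a k u`, `R = R₂ + 1` (`R₂ ≥ 0` without loss). `lam` of `ellM` (radius `R`), `C₀, m₀` of `hK`, `e = lam/C₀`: `Λ₁ ≤ 1`, `r₀`; `r = min (1/2) (r₀/2)`. Let `t ∈ [1,T)`, `g = (f - M)/Λ`: `|g| ≤ Wp p ≤ 1`, `C2On T g` (`mx_nice` smooth), periodic. `A s x v = ab γ (f s x) · · v` (symmetric: `landauA` is). For `s ∈ [t-r²,t] ⊂ (0,T)` and `len (v - v₀) ≤ r`, `len v₀ ≤ R₂`: ellipticity, trace, oscillation: `ellM` with `F = f s x`, `G = f s y` (`CW p Λ₁`: continuity of the slices and the bound; `len (v-w) ≤ 2r ≤ r₀`).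
The equation: `transport g = (1/Λ) transport f = (1/Λ) landauQ γ (f s x) v` (the transport of the constant in `(t,x)` function `M(v)` is `0`), `dif_eq` with `G = M`, `mx_QL`: `= ctr f g + (1/Λ)(ctr (f-M) M + cb f (f-M) + cb (f-M) M)`, `ctr f g = Σ A ∂∂(g s x)`; the rest is `≤ K` by `ab_bd`, `cb_bd`, `mx_hs`, `mx_cw` (`f` is `CW p (A_M+1)`): `G = max 1 K`, `K ≤ G ≤ G/r²`.
Conclusion of `hK` with `η' = min η 1`: `ρ₀ = c r³`, `c = (lam η'/G)^m₀/C₀`, multiply by `Λ`.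
-/

set_option autoImplicit false

open MeasureTheory Set Filter Topology Pool.Agent.H25.Kin Pool.Agent.H48.PR Pool.Agent.H48.NE
open Pool.Agent.H48.PD (FB)
open Pool.Agent.H15.AV (ab)

namespace Pool.Agent.H48.LN

variable {d : ℕ} {γ : ℝ}

private lemma ModL_tr {T : ℝ} {Q₁ Q₂ f F : ℝ → Vec d → Vec d → ℝ} (hf : IsClassicalSol T Q₁ f)
    (hF : IsClassicalSol T Q₂ F) (c : ℝ) {t : ℝ} (ht : t ∈ Ioo 0 T) (x v : Vec d) :
    transport (fun s y w => c * (f s y w - F s y w)) t x v =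
      c * (transport f t x v - transport F t x v) := by
  have d1 : DifferentiableAt ℝ (unc f) (t, x, v) := (hf.cda ht x v).differentiableAt (by norm_num)
  have d2 : DifferentiableAt ℝ (unc F) (t, x, v) := (hF.cda ht x v).differentiableAt (by norm_num)
  have e : HasFDerivAt (unc (fun s y w => c * (f s y w - F s y w)))
      (c • (fderiv ℝ (unc f) (t, x, v) - fderiv ℝ (unc F) (t, x, v))) (t, x, v) :=
    (d1.hasFDerivAt.sub d2.hasFDerivAt).const_mul c
  unfold transport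
  rw [e.fderiv]
  rfl

private lemma ModL_c2 {T : ℝ} {Q₁ Q₂ f F : ℝ → Vec d → Vec d → ℝ} (hf : IsClassicalSol T Q₁ f)
    (hF : IsClassicalSol T Q₂ F) (c : ℝ) : C2On T (fun s y w => c * (f s y w - F s y w)) :=
  contDiffOn_const.mul (hf.isC2.sub hF.isC2)

private lemma ModL_symm (γ : ℝ) (g : Vec d → ℝ) (i j : Fin d) (v : Vec d) :
    ab γ g i j v = ab γ g j i v := by
  unfold ab conv
  refine integral_congr_ae (Eventually.of_forall fun z => ?_)
  simp only
  have : landauA γ z i j = landauA γ z j i := by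
    unfold landauA
    by_cases h : i = j
    · subst h
      rfl
    · rw [if_neg h, if_neg (Ne.symm h), mul_comm (z i)]
  rw [this]

private lemma ModL_len_add (u v : Vec d) : len (u + v) ≤ len u + len v :=
  Pool.Agent.H48.PL.len_add_le u v

private lemma ModL_W {p : ℕ} (hp : 1 ≤ p) (v : Vec d) : (1 + nsq v) * Wp p v ≤ 1 := by
  obtain ⟨q, rfl⟩ := Nat.exists_eq_add_of_le hp
  have h := Wp_mul (1 + q) v
  have hn := sq_nonneg' v
  have hW := Wp_pos (1 + q) v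
  have h1 : (1 + nsq v) ^ 1 ≤ (1 + nsq v) ^ (1 + q) :=
    pow_le_pow_right₀ (by linarith) (by omega)
  rw [pow_one] at h1
  calc (1 + nsq v) * Wp (1 + q) v ≤ (1 + nsq v) ^ (1 + q) * Wp (1 + q) v :=
        mul_le_mul_of_nonneg_right h1 hW.le
    _ = 1 := by rw [mul_comm]; exact h

/-- the remaining terms of the equation of `f - M` -/
private lemma ModL_rest (hd : 2 ≤ d) (h1 : -2 < γ) (h2 : γ ≤ 0) {p : ℕ} (hp : d + 2 ≤ p) {a k : ℝ}
    (ha : 0 < a) (hk : 0 < k) (u : Vec d) : ∃ K : ℝ, 0 ≤ K ∧ ∀ (F : Vec d → ℝ) (Λ : ℝ), 0 < Λ →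
      Λ ≤ 1 → Nice F → (∀ v, |F v - mx a k u v| ≤ Λ * Wp p v) → ∀ v,
      |landauQ γ F v - ctr γ F (fun w => F w - mx a k u w) v| ≤ K * Λ := by
  obtain ⟨Ka, hKa, hab⟩ := ab_bd (d := d) h1 h2 hp
  obtain ⟨Kc, hKc, hcb⟩ := cb_bd hd h1 h2 hp
  obtain ⟨Kh, hKh, hhs⟩ := mx_hs ha hk u p
  obtain ⟨A, hA, hcw⟩ := mx_cw ha hk u p
  refine ⟨d * (d * (Ka * Kh)) + Kc * (A + 1) + Kc * A, by positivity, ?_⟩
  intro F Λ hΛ hΛ1 hF hFM v
  have hM := mx_nice ha hk u
  have hD : CW p Λ (fun w => F w - mx a k u w) := ⟨hF.cont.sub hM.cont, hFM⟩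
  have hFc : CW p (A + 1) F := by
    refine ⟨hF.cont, fun w => ?_⟩
    have e1 := hFM w
    have e2 := hcw.le w
    have e3 := Wp_pos p w
    have e4 : |F w| ≤ |F w - mx a k u w| + |mx a k u w| := by
      have := abs_add_le (F w - mx a k u w) (mx a k u w)
      rwa [sub_add_cancel] at this
    nlinarith [mul_le_mul_of_nonneg_right hΛ1 e3.le]
  have hv := sq_nonneg' v
  have hpw : (1 + nsq v) ^ (γ / 2) ≤ 1 :=
    Real.rpow_le_one_of_one_le_of_nonpos (by linarith) (by linarith)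
  have hpw0 : 0 ≤ (1 + nsq v) ^ (γ / 2) := by positivity
  have hW0 := Wp_pos p v
  have hW1 := Wp_le_one p v
  have hWW := ModL_W (by omega : 1 ≤ p) v
  have eq := dif_eq hd h1 h2 hF hM v
  rw [mx_QL ha hk u v, sub_zero] at eq
  rw [eq]
  -- the three terms
  have t1 : |ctr γ (fun w => F w - mx a k u w) (mx a k u) v| ≤ d * (d * (Ka * Kh)) * Λ := by
    unfold ctr
    have hs : ∀ i j : Fin d, |ab γ (fun w => F w - mx a k u w) i j v * pd i (pd j (mx a k u)) v| ≤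
        Ka * Kh * Λ := by
      intro i j
      rw [abs_mul]
      have b1 := hab Λ _ hD i j v
      have b2 := hhs i j v
      calc |ab γ (fun w => F w - mx a k u w) i j v| * |pd i (pd j (mx a k u)) v|
          ≤ (Ka * Λ * (1 + nsq v)) * (Kh * Wp p v) :=
            mul_le_mul b1 b2 (abs_nonneg _) (by positivity)
        _ = Ka * Kh * Λ * ((1 + nsq v) * Wp p v) := by ring
        _ ≤ Ka * Kh * Λ * 1 := mul_le_mul_of_nonneg_left hWW (by positivity)
        _ = Ka * Kh * Λ := mul_one _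
    refine (Finset.abs_sum_le_sum_abs _ _).trans ?_
    have hs2 : ∀ i : Fin d, |∑ j, ab γ (fun w => F w - mx a k u w) i j v *
        pd i (pd j (mx a k u)) v| ≤ d * (Ka * Kh * Λ) := by
      intro i
      refine (Finset.abs_sum_le_sum_abs _ _).trans ?_
      refine (Finset.sum_le_sum fun j _ => hs i j).trans ?_
      simp
    refine (Finset.sum_le_sum fun i _ => hs2 i).trans ?_
    simp only [Finset.sum_const, Finset.card_univ, Fintype.card_fin, nsmul_eq_mul]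
    exact le_of_eq (by ring)
  have t2 : |cb γ F v * (F v - mx a k u v)| ≤ Kc * (A + 1) * Λ := by
    rw [abs_mul]
    have b1 := hcb (A + 1) F hFc v
    have b2 := hFM v
    calc |cb γ F v| * |F v - mx a k u v| ≤ (Kc * (A + 1) * (1 + nsq v) ^ (γ / 2)) * (Λ * Wp p v) :=
          mul_le_mul b1 b2 (abs_nonneg _) (by positivity)
      _ ≤ (Kc * (A + 1) * 1) * (Λ * 1) := by
          refine mul_le_mul (mul_le_mul_of_nonneg_left hpw (by positivity))
            (mul_le_mul_of_nonneg_left hW1 hΛ.le) (by positivity) (by positivity)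
      _ = Kc * (A + 1) * Λ := by ring
  have t3 : |cb γ (fun w => F w - mx a k u w) v * mx a k u v| ≤ Kc * A * Λ := by
    rw [abs_mul]
    have b1 := hcb Λ _ hD v
    have b2 := hcw.le v
    calc |cb γ (fun w => F w - mx a k u w) v| * |mx a k u v|
        ≤ (Kc * Λ * (1 + nsq v) ^ (γ / 2)) * (A * Wp p v) :=
          mul_le_mul b1 b2 (abs_nonneg _) (by positivity)
      _ ≤ (Kc * Λ * 1) * (A * 1) := by
          refine mul_le_mul (mul_le_mul_of_nonneg_left hpw (by positivity))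
            (mul_le_mul_of_nonneg_left hW1 hA) (by positivity) (by positivity)
      _ = Kc * A * Λ := by ring
  have e5 : ctr γ F (fun w => F w - mx a k u w) v +
      ctr γ (fun w => F w - mx a k u w) (mx a k u) v + cb γ F v * (F v - mx a k u v) +
      cb γ (fun w => F w - mx a k u w) v * mx a k u v -
      ctr γ F (fun w => F w - mx a k u w) v =
      ctr γ (fun w => F w - mx a k u w) (mx a k u) v + cb γ F v * (F v - mx a k u v) +
      cb γ (fun w => F w - mx a k u w) v * mx a k u v := by ring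
  rw [e5]
  refine (abs_add_three _ _ _).trans ?_
  nlinarith

theorem modL (hK : KMod d) (hd : 2 ≤ d) (h1 : -2 < γ) (h2 : γ ≤ 0) {p : ℕ} (hp : d + 2 ≤ p) {a k : ℝ}
    (ha : 0 < a) (hk : 0 < k) (u : Vec d) (R₂ : ℝ) : ∃ Λ₁ > 0, ∀ η > 0, ∃ ρ₀ > 0,
      ∀ (T : ℝ) (f : ℝ → Vec d → Vec d → ℝ), IsLandauSol γ T f → ∀ Λ : ℝ, 0 < Λ → Λ ≤ Λ₁ →
      (∀ t ∈ Ico 0 T, ∀ x v, |f t x v - mx a k u v| ≤ Λ * Wp p v) →
      ∀ t ∈ Ico 1 T, ∀ x y v w, len v ≤ R₂ → len (x - y) ≤ ρ₀ → len (v - w) ≤ ρ₀ →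
        |(f t x v - mx a k u v) - (f t y w - mx a k u w)| ≤ η * Λ := by
  obtain ⟨C₀, hC₀, m₀, hK⟩ := hK
  obtain ⟨lam, hlam, hlam1, hell⟩ := ellM hd h1 h2 hp ha hk u (R₂ + 1)
  obtain ⟨Λe, hΛe, r₀, hr₀, hell⟩ := hell (lam ^ 2 / C₀) (by positivity)
  obtain ⟨K, hK0, hrest⟩ := ModL_rest hd h1 h2 hp ha hk u
  have hC0 : 0 < C₀ := by linarith
  refine ⟨min Λe 1, lt_min hΛe one_pos, fun η hη => ?_⟩
  set G : ℝ := max 1 K with hG
  have hG1 : 1 ≤ G := le_max_left _ _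
  have hGK : K ≤ G := le_max_right _ _
  set r : ℝ := min (1 / 2) (r₀ / 2) with hr
  have hr0 : 0 < r := lt_min (by norm_num) (by linarith)
  have hr1 : r ≤ 1 / 2 := min_le_left _ _
  have hr2 : r ≤ r₀ / 2 := min_le_right _ _
  set η' : ℝ := min η 1 with hη'
  have hη0 : 0 < η' := lt_min hη one_pos
  have hη1 : η' ≤ 1 := min_le_right _ _
  set c : ℝ := (lam * η' / G) ^ m₀ / C₀ with hc
  have hc0 : 0 < c := by positivity
  refine ⟨c * r ^ 3, by positivity, ?_⟩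
  intro T f hf Λ hΛ hΛ1 hfM t ht x y v w hv hxy hvw
  have hMs := mx_solL (γ := γ) ha hk u T
  have hΛe' : Λ ≤ Λe := hΛ1.trans (min_le_left _ _)
  have hΛ1' : Λ ≤ 1 := hΛ1.trans (min_le_right _ _)
  have hr2' : r ^ 2 ≤ 1 / 4 := by nlinarith
  have hM := mx_nice ha hk u
  -- times in the cylinder
  have hs : ∀ s ∈ Icc (t - r ^ 2) t, s ∈ Ioo 0 T := fun s hs =>
    ⟨by linarith [hs.1, ht.1], by linarith [hs.2, ht.2]⟩
  -- velocities
  have hvel : ∀ v' : Vec d, len (v' - v) ≤ r → len v' ≤ R₂ + 1 := by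
    intro v' hv'
    have := ModL_len_add (v' - v) v
    rw [sub_add_cancel] at this
    linarith
  have hCW : ∀ s ∈ Icc (t - r ^ 2) t, ∀ x', CW p Λe (fun v' => f s x' v' - mx a k u v') := by
    intro s hs' x'
    refine ⟨(hf.nice (hs s hs') x').cont.sub hM.cont, fun v' => ?_⟩
    refine (hfM s ⟨(hs s hs').1.le, (hs s hs').2⟩ x' v').trans ?_
    exact mul_le_mul_of_nonneg_right hΛe' (Wp_pos p v').le
  have key := hK lam G η' r T t hlam hlam1 hG1 hη0 hη1 hr0 (by linarith) (by linarith [ht.1]) ht.2 v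
    (fun s y w => Λ⁻¹ * (f s y w - mx a k u w)) (fun s x v i j => ab γ (f s x) i j v)
    (ModL_c2 hf hMs Λ⁻¹) ?_ ?_ ?_ ?_ ?_ x y w ?_ ?_
  · have e : Λ⁻¹ * (f t x v - mx a k u v) - Λ⁻¹ * (f t y w - mx a k u w) =
        Λ⁻¹ * ((f t x v - mx a k u v) - (f t y w - mx a k u w)) := by ring
    replace key : |Λ⁻¹ * (f t x v - mx a k u v) - Λ⁻¹ * (f t y w - mx a k u w)| ≤ η' := key
    rw [e, abs_mul, abs_of_pos (inv_pos.2 hΛ)] at key
    have k2 : |(f t x v - mx a k u v) - (f t y w - mx a k u w)| ≤ η' * Λ := by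
      have := mul_le_mul_of_nonneg_left key hΛ.le
      rw [← mul_assoc, mul_inv_cancel₀ hΛ.ne', one_mul] at this
      linarith
    exact k2.trans (mul_le_mul_of_nonneg_right (min_le_left _ _) hΛ.le)
  · intro s hs' x' v' i
    show Λ⁻¹ * (f s (x' + Pi.single i 1) v' - mx a k u v') = Λ⁻¹ * (f s x' v' - mx a k u v')
    rw [hf.periodic s ⟨hs'.1.le, hs'.2⟩ x' v' i]
  · intro s hs' x' v' _
    show |Λ⁻¹ * (f s x' v' - mx a k u v')| ≤ 1
    rw [abs_mul, abs_of_pos (inv_pos.2 hΛ)]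
    have h3 := hfM s ⟨(hs s hs').1.le, (hs s hs').2⟩ x' v'
    have h4 := Wp_le_one p v'
    calc Λ⁻¹ * |f s x' v' - mx a k u v'| ≤ Λ⁻¹ * (Λ * Wp p v') :=
          mul_le_mul_of_nonneg_left h3 (inv_pos.2 hΛ).le
      _ = Wp p v' := by rw [← mul_assoc, inv_mul_cancel₀ hΛ.ne', one_mul]
      _ ≤ 1 := h4
  · intro s hs' x' v' hv'
    refine ⟨fun i j => ModL_symm γ _ i j v', ?_⟩
    have h3 := hell (f s x') (f s x') (hCW s hs' x') (hCW s hs' x') v' v' (hvel v' hv') (by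
      rw [sub_self, len_zero]; exact hr₀.le)
    exact ⟨h3.1, h3.2.1⟩
  · intro s hs' x' v' y' w' hv' hw' ξ
    refine (hell (f s x') (f s y') (hCW s hs' x') (hCW s hs' y') v' w' (hvel v' hv') ?_).2.2 ξ
    have h3 := ModL_len_add (v' - v) (v - w')
    rw [sub_add_sub_cancel, len_comm v w'] at h3
    linarith
  · intro s hs' x' v' hv'
    have hsT := hs s hs'
    have hF := hf.nice hsT x'
    have e1 := ModL_tr hf hMs Λ⁻¹ hsT x' v'
    have e2 : transport f s x' v' = landauQ γ (f s x') v' := hf.solves s hsT x' v'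
    have e3 : transport (fun _ _ => mx a k u) s x' v' = 0 := by
      have := hMs.solves s hsT x' v'
      rw [this]
      exact mx_QL ha hk u v'
    rw [e2, e3, sub_zero] at e1
    have e4 : (∑ i, ∑ j, ab γ (f s x') i j v' *
        pd i (pd j (fun w => Λ⁻¹ * (f s x' w - mx a k u w))) v') =
        Λ⁻¹ * ctr γ (f s x') (fun w => f s x' w - mx a k u w) v' :=
      ctr_smul (γ := γ) (f s x') (hF.smooth.sub hM.smooth) Λ⁻¹ v'
    rw [e1, e4, ← mul_sub, abs_mul, abs_of_pos (inv_pos.2 hΛ)]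
    have h3 := hrest (f s x') Λ hΛ hΛ1' hF (hfM s ⟨hsT.1.le, hsT.2⟩ x') v'
    have h4 : G ≤ G / r ^ 2 := by
      rw [le_div_iff₀ (by positivity)]
      nlinarith
    calc Λ⁻¹ * |landauQ γ (f s x') v' - ctr γ (f s x') (fun w => f s x' w - mx a k u w) v'|
        ≤ Λ⁻¹ * (K * Λ) := mul_le_mul_of_nonneg_left h3 (inv_pos.2 hΛ).le
      _ = K := by field_simp
      _ ≤ G / r ^ 2 := hGK.trans h4
  · exact hxy
  · rw [len_comm]
    refine hvw.trans ?_
    refine mul_le_mul_of_nonneg_left ?_ hc0.le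
    calc r ^ 3 = r * (r ^ 2) := by ring
      _ ≤ r * 1 := mul_le_mul_of_nonneg_left (by linarith) hr0.le
      _ = r := mul_one r

end Pool.Agent.H48.LN
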