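import Pool.Agent.H48.LN.Dif
import Pool.Agent.H48.LN.MxL
import Pool.Agent.H48.LN.Drf

/-!
# Module OpG: the operator at touching points with a Maxwellian, large velocities

As in `op_all` (module OpA: read its header): `landauQ F v = ctr F r + ctr r M + cb F r(v) + cb r M(v)`, `r = F - M`, but keep `ctr F r + cb F r(v) ≤ Λ (ctr F (Wp p) + cb F Wp p)` together (for `r(v) = Λ Wp p v`): `≤ -c (1+nsq v)^(γ/2) Λ Wp p v` by `drift` (`g = F`, `q = p`, `A = A_M + 1`, mass `∫ F ≥ ∫ M - Λ ∫ Wp p ≥ m/2` if `Λ ≤ Λ₂`); the rest `|ctr r M| + |cb r M| ≤ K'' Λ Wp (p+1) v ≤ K'' Λ Wp p v/(1+nsq v)` (`mx_hs`, `mx_cw` with `q = p+2`), and `K''/(1+nsq v) < (c/2) (1+nsq v)^(γ/2)` for `len v ≥ R₂` because `γ/2 > -1`. The case `r(v) = -Λ Wp p v` the same with `-r`.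
-/

set_option autoImplicit false

open MeasureTheory Set Filter Topology Pool.Agent.H25.Kin Pool.Agent.H48.PR Pool.Agent.H48.NE
open Pool.Agent.H48.PD (FB)
open Pool.Agent.H15.AV (ab)

namespace Pool.Agent.H48.LN

variable {d : ℕ} {γ : ℝ}

/-- the weights are integrable -/
private lemma opG_Wint {q : ℕ} (hq : d + 1 ≤ 2 * q) : Integrable (Wp q : Vec d → ℝ) := by
  refine Integrable.mono' ((integrable_wt (d := d)).const_mul ((2 : ℝ) ^ q))
    (wp_smooth q).continuous.aestronglyMeasurable (Eventually.of_forall fun v => ?_)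
  have hn := norm_nonneg v
  have h1 : (1 + ‖v‖) ^ 2 ≤ 2 * (1 + nsq v) := by
    have := norm_sq_le_sq v
    nlinarith [sq_nonneg (1 - ‖v‖)]
  have h2 : (1 + ‖v‖) ^ (d + 1) ≤ 2 ^ q * (1 + nsq v) ^ q := by
    calc (1 + ‖v‖) ^ (d + 1) ≤ (1 + ‖v‖) ^ (2 * q) := pow_le_pow_right₀ (by linarith) hq
      _ = ((1 + ‖v‖) ^ 2) ^ q := pow_mul _ _ _
      _ ≤ (2 * (1 + nsq v)) ^ q := pow_le_pow_left₀ (by positivity) h1 q
      _ = 2 ^ q * (1 + nsq v) ^ q := mul_pow _ _ _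
  have h3 : 0 < (1 + nsq v) ^ q := by
    have := sq_nonneg' v
    positivity
  rw [Real.norm_of_nonneg (Wp_pos q v).le]
  show ((1 + nsq v) ^ q)⁻¹ ≤ 2 ^ q * ((1 + ‖v‖) ^ (d + 1))⁻¹
  rw [← div_eq_mul_inv, inv_eq_one_div, div_le_div_iff₀ h3 (by positivity)]
  linarith

private lemma opG_tot {p : ℕ} (hp : d + 1 ≤ p) {L : ℝ} {F G : Vec d → ℝ}
    (hF : Integrable F) (hG : Integrable G) (hd : ∀ v, |G v - F v| ≤ L * Wp p v) :
    (∫ v, F v) - L * ∫ v : Vec d, Wp p v ≤ ∫ v, G v := by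
  have hi : Integrable (Wp p : Vec d → ℝ) := opG_Wint (by omega)
  rw [← integral_const_mul, ← integral_sub hF (hi.const_mul L)]
  refine integral_mono (hF.sub (hi.const_mul L)) hG fun v => ?_
  have := (abs_le.1 (hd v)).1
  show F v - L * Wp p v ≤ G v
  linarith

private lemma opG_step (p : ℕ) (v : Vec d) : (1 + nsq v) * Wp (p + 1) v = Wp p v := by
  have h : 0 < 1 + nsq v := by
    have := sq_nonneg' v
    linarith
  unfold Wp
  rw [pow_succ]
  field_simp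

/-- the rest: `|ctr r M| + |cb r M|` -/
private lemma opG_rest (hd : 2 ≤ d) (h1 : -2 < γ) (h2 : γ ≤ 0) {p : ℕ} (hp : d + 3 ≤ p) {a k : ℝ} (ha : 0 < a)
    (hk : 0 < k) (u : Vec d) : ∃ K : ℝ, 0 ≤ K ∧ ∀ Λ : ℝ, 0 ≤ Λ → ∀ g : Vec d → ℝ, CW p Λ g → ∀ v : Vec d,
      |ctr γ g (mx a k u) v| + |cb γ g v * mx a k u v| ≤ K * Λ * Wp (p + 1) v := by
  obtain ⟨Ka, hKa0, hKa⟩ := ab_bd (d := d) (γ := γ) h1 h2 (q := p) (by omega)
  obtain ⟨Kc, hKc0, hKc⟩ := cb_bd (d := d) (γ := γ) hd h1 h2 (q := p) (by omega)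
  obtain ⟨Kh, hKh0, hKh⟩ := mx_hs (d := d) ha hk u (p + 2)
  obtain ⟨Km, hKm0, hKm⟩ := mx_cw (d := d) ha hk u (p + 1)
  refine ⟨(d : ℝ) * ((d : ℝ) * (Ka * Kh)) + Kc * Km, by positivity, fun Λ hΛ g hg v => ?_⟩
  have hn : 0 ≤ nsq v := sq_nonneg' v
  have hW1 : 0 < Wp (p + 1) v := Wp_pos _ _
  have hW2 : 0 < Wp (p + 2) v := Wp_pos _ _
  have e1 : |ctr γ g (mx a k u) v| ≤ (d : ℝ) * ((d : ℝ) * (Ka * Kh)) * Λ * Wp (p + 1) v := by
    unfold ctr
    refine (Finset.abs_sum_le_sum_abs _ _).trans ?_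
    have : ∀ i ∈ (Finset.univ : Finset (Fin d)), |∑ j, ab γ g i j v * pd i (pd j (mx a k u)) v| ≤
        (d : ℝ) * (Ka * Kh * Λ * Wp (p + 1) v) := by
      intro i _
      refine (Finset.abs_sum_le_sum_abs _ _).trans ?_
      have h3 : ∀ j ∈ (Finset.univ : Finset (Fin d)), |ab γ g i j v * pd i (pd j (mx a k u)) v| ≤
          Ka * Kh * Λ * Wp (p + 1) v := by
        intro j _
        rw [abs_mul]
        calc |ab γ g i j v| * |pd i (pd j (mx a k u)) v| ≤
            (Ka * Λ * (1 + nsq v)) * (Kh * Wp (p + 2) v) :=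
              mul_le_mul (hKa Λ g hg i j v) (hKh i j v) (abs_nonneg _) (by positivity)
          _ = Ka * Kh * Λ * ((1 + nsq v) * Wp (p + 1 + 1) v) := by ring
          _ = _ := by rw [opG_step]
      refine (Finset.sum_le_sum h3).trans (le_of_eq ?_)
      rw [Finset.sum_const, Finset.card_univ, Fintype.card_fin, nsmul_eq_mul]
    refine (Finset.sum_le_sum this).trans (le_of_eq ?_)
    rw [Finset.sum_const, Finset.card_univ, Fintype.card_fin, nsmul_eq_mul]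
    ring
  have e2 : |cb γ g v * mx a k u v| ≤ Kc * Km * Λ * Wp (p + 1) v := by
    rw [abs_mul]
    have h3 : (1 + nsq v) ^ (γ / 2) ≤ 1 :=
      Real.rpow_le_one_of_one_le_of_nonpos (by linarith) (by linarith)
    have h4 : |cb γ g v| ≤ Kc * Λ := by
      refine (hKc Λ g hg v).trans ?_
      have : 0 ≤ Kc * Λ := by positivity
      nlinarith
    calc |cb γ g v| * |mx a k u v| ≤ (Kc * Λ) * (Km * Wp (p + 1) v) :=
        mul_le_mul h4 (hKm.le v) (abs_nonneg _) (by positivity)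
      _ = _ := by ring
  calc _ ≤ (d : ℝ) * ((d : ℝ) * (Ka * Kh)) * Λ * Wp (p + 1) v + Kc * Km * Λ * Wp (p + 1) v := add_le_add e1 e2
    _ = _ := by ring

theorem op_large (hd : 2 ≤ d) (h1 : -2 < γ) (h2 : γ ≤ 0) {p : ℕ} (hp : d + 3 ≤ p) {a k : ℝ} (ha : 0 < a)
    (hk : 0 < k) (u : Vec d) : ∃ Λ₂ > 0, ∃ R₂ : ℝ, ∀ Λ : ℝ, 0 < Λ → Λ ≤ Λ₂ → ∀ F : Vec d → ℝ, Nice F →
      (∀ v, 0 ≤ F v) → (∀ v, |F v - mx a k u v| ≤ Λ * Wp p v) → ∀ v : Vec d, R₂ ≤ len v →
      (F v - mx a k u v = Λ * Wp p v → landauQ γ F v < 0) ∧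
      (F v - mx a k u v = -(Λ * Wp p v) → 0 < landauQ γ F v) := by
  set M : Vec d → ℝ := mx a k u with hM
  have hMN : Nice M := mx_nice ha hk u
  obtain ⟨AM, hAM0, hAM⟩ := mx_cw (d := d) ha hk u p
  have hmass := mx_mass (d := d) ha hk u
  have hWi : Integrable (Wp p : Vec d → ℝ) := opG_Wint (by omega)
  have hWn : 0 ≤ ∫ v : Vec d, Wp p v := integral_nonneg fun v => (Wp_pos p v).le
  obtain ⟨c, hc, R, hR⟩ := drift (d := d) (γ := γ) hd h1 h2 (p := p) (q := p) (by omega) hp (AM + 1)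
    (m := (∫ v, M v) / 2) (by rw [hM]; linarith)
  obtain ⟨K, hK0, hK⟩ := opG_rest (d := d) (γ := γ) hd h1 h2 hp ha hk u
  obtain ⟨T0, hT0⟩ := ((tendsto_rpow_atTop (show (0 : ℝ) < γ / 2 + 1 by linarith)).eventually_gt_atTop
    (K / c)).exists_forall_of_atTop
  refine ⟨min 1 ((∫ v, M v) / 2 / ((∫ v : Vec d, Wp p v) + 1)),
    lt_min one_pos (div_pos (by rw [hM]; linarith) (by linarith)), max R (max T0 1), ?_⟩
  intro Λ hΛ hΛ2 F hF hF0 hd' v hv
  have hΛ1 : Λ ≤ 1 := hΛ2.trans (min_le_left _ _)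
  have hΛm : Λ * ∫ v : Vec d, Wp p v ≤ (∫ v, M v) / 2 := by
    have h3 := hΛ2.trans (min_le_right _ _)
    rw [le_div_iff₀ (by linarith)] at h3
    nlinarith
  have hRv : R ≤ len v := (le_max_left _ _).trans hv
  have hTv : T0 ≤ len v := (le_max_left _ _).trans ((le_max_right _ _).trans hv)
  have h1v : 1 ≤ len v := (le_max_right _ _).trans ((le_max_right _ _).trans hv)
  have hns : len v ≤ 1 + nsq v := by
    rw [← len_sq]
    nlinarith
  have hn0 : 0 < 1 + nsq v := by linarith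
  have hFc : CW p (AM + 1) F := by
    refine ⟨hF.cont, fun w => ?_⟩
    have h3 := hd' w
    have h4 := hAM.le w
    have h5 := Wp_pos p w
    have h6 : |F w| ≤ |F w - M w| + |M w| := by
      have := abs_add_le (F w - M w) (M w)
      rwa [sub_add_cancel] at this
    nlinarith
  have hFm : (∫ v, M v) / 2 ≤ ∫ v, F v := by
    have hFi : Integrable F := hF.rd.integrable hF.cont.aestronglyMeasurable
    have hMi : Integrable M := hMN.rd.integrable hMN.cont.aestronglyMeasurable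
    have := opG_tot (p := p) (by omega) hMi hFi hd'
    linarith
  have hdr := hR F hFc hF0 hFm v hRv
  have hr : CW p Λ (fun w => F w - M w) := ⟨hF.cont.sub hMN.cont, hd'⟩
  have hrest := hK Λ hΛ.le _ hr v
  have hdif := dif_eq (γ := γ) hd h1 h2 hF hMN v
  have hQM : landauQ γ M v = 0 := mx_QL ha hk u v
  rw [hQM, sub_zero] at hdif
  have hkey : K * Wp (p + 1) v < c * (1 + nsq v) ^ (γ / 2) * Wp p v := by
    have h3 := hT0 (1 + nsq v) (hTv.trans hns)
    rw [Real.rpow_add hn0, Real.rpow_one, div_lt_iff₀ hc] at h3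
    rw [← opG_step p v]
    have h5 := Wp_pos (p + 1) v
    calc K * Wp (p + 1) v < ((1 + nsq v) ^ (γ / 2) * (1 + nsq v) * c) * Wp (p + 1) v :=
        mul_lt_mul_of_pos_right h3 h5
      _ = _ := by ring
  have hkey2 : K * Λ * Wp (p + 1) v < Λ * (c * (1 + nsq v) ^ (γ / 2) * Wp p v) := by
    have := mul_lt_mul_of_pos_left hkey hΛ
    linarith
  have hsm : ContDiff ℝ 2 (fun w => F w - M w) := hF.smooth.sub hMN.smooth
  have hWs : ContDiff ℝ 2 (fun w : Vec d => Λ * Wp p w) := contDiff_const.mul (wp_smooth p)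
  have a1 := abs_le.1 ((le_add_of_nonneg_right (abs_nonneg _)).trans hrest)
  constructor
  · intro htou
    have hφ : ctr γ F (fun w => (F w - M w) - Λ * Wp p w) v ≤ 0 := by
      refine ctr_nonpos h1 h2 hF hF0 (hsm.sub hWs) fun w => ?_
      show F w - M w - Λ * Wp p w ≤ F v - M v - Λ * Wp p v
      rw [htou]
      have := (abs_le.1 (hd' w)).2
      linarith
    rw [ctr_sub F hsm hWs v, ctr_smul F (wp_smooth p) Λ v] at hφ
    rw [hdif, htou]
    have h7 : ctr γ (fun w => F w - M w) M v + cb γ (fun w => F w - M w) v * M v ≤ K * Λ * Wp (p + 1) v :=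
      (add_le_add (le_abs_self _) (le_abs_self _)).trans hrest
    have h8 := mul_le_mul_of_nonneg_left hdr hΛ.le
    nlinarith
  · intro htou
    have hφ : ctr γ F (fun w => (-1 : ℝ) * (F w - M w) - Λ * Wp p w) v ≤ 0 := by
      refine ctr_nonpos h1 h2 hF hF0 ((contDiff_const.mul hsm).sub hWs) fun w => ?_
      show (-1 : ℝ) * (F w - M w) - Λ * Wp p w ≤ (-1 : ℝ) * (F v - M v) - Λ * Wp p v
      rw [htou]
      have := (abs_le.1 (hd' w)).1
      linarith
    rw [ctr_sub F (contDiff_const.mul hsm) hWs v, ctr_smul F hsm (-1) v, ctr_smul F (wp_smooth p) Λ v] at hφ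
    rw [hdif, htou]
    have h7 : -(K * Λ * Wp (p + 1) v) ≤ ctr γ (fun w => F w - M w) M v + cb γ (fun w => F w - M w) v * M v := by
      have h9 := neg_abs_le (ctr γ (fun w => F w - M w) M v)
      have h10 := neg_abs_le (cb γ (fun w => F w - M w) v * M v)
      linarith
    have h8 := mul_le_mul_of_nonneg_left hdr hΛ.le
    nlinarith

end Pool.Agent.H48.LN
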