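import Pool.Agent.H48.LN.BootL
import Pool.Agent.H48.LN.OpG
import Pool.Agent.H48.LN.StL
import Pool.Agent.H48.LN.DcL

/-!
# Module NearL: stability of Maxwellians for the Landau equation

As `near_eq20` (H15/NE0/Near0.lean). `Λ₂, R₂` of `op_large`; `Λ₁` of `bootL` with this `R₂`; `Λ = min Λ₁ Λ₂ η ..`; `ε₁` of `bootL`; `ε` = minimum of the `ε` of `stbL` (for `η := Λ/2`), of `re_smallW` (for `ε₁`) and `Λ/2`. For `t < min T 2`: `|f - M| ≤ Λ/2 Wp p` (`stbL`, `sol_restrict`). If `|f - M| < Λ Wp p` fails at some time: `tch2` with the constant `Λ` and `g = M`: `t₀ ≥ 2`, `x₀, v₀`. `bootL` for `f` restricted to `[0,t₀)` and continuity in `t`: `|f t₀ x₀ v₀ - M v₀| ≤ Λ/2 Wp p v₀` if `len v₀ ≤ R₂`: contradiction. If `R₂ ≤ len v₀`: `op_large` and the sign of the derivative along the characteristic: contradiction (end of the proof of `near_eq20`).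
-/

set_option autoImplicit false

open MeasureTheory Set Filter Topology Pool.Agent.H25.Kin Pool.Agent.H48.PR Pool.Agent.H48.NE
open Pool.Agent.H48.PD (FB)
open Pool.Agent.H15.AV (ab)

namespace Pool.Agent.H48.LN

variable {d : ℕ} {γ : ℝ}

private lemma nrL_der {g : ℝ → ℝ} {g' : ℝ} (hg : HasDerivAt g g' 0) (h0 : g 0 = 0)
    (h : ∀ᶠ τ in 𝓝[>] (0 : ℝ), 0 ≤ g (-τ)) : g' ≤ 0 := by
  have h1 : HasDerivAt (fun τ : ℝ => -g (-τ)) g' 0 := by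
    have hn : HasDerivAt (fun τ : ℝ => -τ) (-1) 0 := hasDerivAt_neg' (0 : ℝ)
    have hd' : HasDerivAt g g' (-(0 : ℝ)) := by rwa [neg_zero]
    have h3 := (hd'.comp (0 : ℝ) hn).neg
    rw [mul_neg, mul_one, neg_neg] at h3
    exact h3
  have h2 := h1.tendsto_slope_zero_right
  refine le_of_tendsto h2 ?_
  filter_upwards [h, self_mem_nhdsWithin] with τ h3 h4
  have h4' : 0 < τ := h4
  rw [zero_add, smul_eq_mul, neg_zero, h0, neg_zero, sub_zero]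
  exact mul_nonpos_of_nonneg_of_nonpos (inv_nonneg.2 h4'.le) (by linarith)

private lemma nrL_cmp {φ : ℝ → ℝ} {φ' c : ℝ} (hφ : HasDerivAt φ φ' 0)
    (h0 : φ 0 = c) (h : ∀ᶠ τ in 𝓝[>] (0 : ℝ), φ (-τ) ≤ c) : 0 ≤ φ' := by
  have h1 : -φ' ≤ 0 := by
    refine nrL_der (g := fun τ => c - φ τ) (hφ.const_sub c) ?_ ?_
    · show c - φ 0 = 0
      rw [h0, sub_self]
    · filter_upwards [h] with τ hτ
      show 0 ≤ c - φ (-τ)
      linarith
  linarith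

/-- continuity in time -/
private lemma nrL_tc {T : ℝ} {Q f : ℝ → Vec d → Vec d → ℝ} (hf : IsClassicalSol T Q f)
    (x v : Vec d) : ContinuousOn (fun t : ℝ => f t x v) (Ico 0 T) := by
  have h3 : ContinuousOn (fun t : ℝ => unc f (t, x, v)) (Ico 0 T) :=
    ContinuousOn.comp (show ContinuousOn (unc f) (Ico 0 T ×ˢ univ) from hf.isCont)
      (Continuous.continuousOn (by fun_prop)) fun t ht => ⟨ht, mem_univ _⟩
  exact h3

/-- extension of bounds by continuity in time -/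
private lemma nrL_ext {T : ℝ} {g : ℝ → ℝ} (hc : ContinuousOn g (Ico 0 T)) {t₁ t₀ : ℝ}
    (h0 : 0 ≤ t₁) (h1 : t₁ < t₀) (h2 : t₀ < T) {c : ℝ} (h : ∀ t ∈ Ico t₁ t₀, g t ≤ c) :
    g t₀ ≤ c := by
  have hne : (𝓝[Ico t₁ t₀] t₀).NeBot := by
    rw [← mem_closure_iff_nhdsWithin_neBot, closure_Ico h1.ne]
    exact ⟨h1.le, le_rfl⟩
  have hs : Ico t₁ t₀ ⊆ Ico 0 T := fun t ht' => ⟨h0.trans ht'.1, ht'.2.trans h2⟩
  have l1 : Tendsto g (𝓝[Ico t₁ t₀] t₀) (𝓝 (g t₀)) :=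
    (hc t₀ ⟨h0.trans h1.le, h2⟩).mono hs
  refine le_of_tendsto l1 ?_
  filter_upwards [self_mem_nhdsWithin] with t ht'
  exact h t ht'

theorem near_eqL (hK : KMod d) (hd : 2 ≤ d) (h1 : -2 < γ) (h2 : γ ≤ 0) {p : ℕ} (hp : d + 3 ≤ p)
    {a k : ℝ} (ha : 0 < a) (hk : 0 < k) (u : Vec d) {η : ℝ} (hη : 0 < η) : ∃ ε > 0,
      ∀ (T : ℝ) (f : ℝ → Vec d → Vec d → ℝ), IsLandauSol γ T f →
      (∀ x v, |f 0 x v - mx a k u v| ≤ ε * Wp p v) →
      ∀ t ∈ Ico 0 T, ∀ x v, |f t x v - mx a k u v| ≤ η * Wp p v := by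
  obtain ⟨Λ₂, hΛ₂, R₂, hop⟩ := op_large hd h1 h2 hp ha hk u
  obtain ⟨Λ₁, hΛ₁, hbt⟩ := bootL hK hd h1 h2 (p := p) (by omega) ha hk u R₂
  obtain ⟨Λ, hΛ, hL1, hL2, hLη⟩ : ∃ Λ : ℝ, 0 < Λ ∧ Λ ≤ Λ₁ ∧ Λ ≤ Λ₂ ∧ Λ ≤ η :=
    ⟨min (min Λ₁ Λ₂) η, lt_min (lt_min hΛ₁ hΛ₂) hη, (min_le_left _ _).trans (min_le_left _ _),
      (min_le_left _ _).trans (min_le_right _ _), min_le_right _ _⟩
  obtain ⟨ε₁, hε₁, hbc⟩ := hbt Λ hΛ hL1
  obtain ⟨ε₂, hε₂, hsm⟩ := re_smallW (p := p) (by omega) ha hk u hε₁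
  obtain ⟨ε₃, hε₃, hst⟩ := stbL hd h1 h2 (p := p) (by omega) ha hk u (half_pos hΛ)
  refine ⟨min ε₂ ε₃, lt_min hε₂ hε₃, fun T f hf hd0 => ?_⟩
  have hf' : IsClassicalSol T (fun t x => landauQ γ (f t x)) f := hf
  have hg : IsClassicalSol T (fun _ _ => landauQ γ (mx a k u)) (fun _ _ => mx a k u) :=
    mx_solL ha hk u T
  have hshort := hst (min T 2) f (min_le_right _ _)
    (Pool.Agent.H48.PI.sol_restrict hf' (min_le_left _ _))
    (fun x v => (hd0 x v).trans (mul_le_mul_of_nonneg_right (min_le_right _ _) (Wp_pos p v).le))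
  intro t ht x v
  refine le_trans ?_ (mul_le_mul_of_nonneg_right hLη (Wp_pos p v).le)
  by_contra hcon
  push Not at hcon
  have hT0 : (0 : ℝ) ∈ Ico 0 T := ⟨le_rfl, ht.1.trans_lt ht.2⟩
  have hhalf : ∀ w : Vec d, Λ / 2 * Wp p w < Λ * Wp p w := fun w => by
    have := Wp_pos p w
    nlinarith
  obtain ⟨t₀, ht₀, x₀, v₀, heq, hlt, hle⟩ := Pool.Agent.H48.PS.tch2 hf' hg p ht.1 ht.2
    (B := fun _ => Λ) continuousOn_const (fun τ _ => hΛ)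
    (fun y w => (hshort 0 ⟨le_rfl, lt_min hT0.2 (by norm_num)⟩ y w).trans_lt (hhalf w))
    ⟨t, ⟨ht.1, le_rfl⟩, x, v, hcon.le⟩
  have ht₀T : t₀ ∈ Ioo 0 T := ⟨ht₀.1, ht₀.2.trans_lt ht.2⟩
  have ht₀C : t₀ ∈ Ico 0 T := ⟨ht₀.1.le, ht₀T.2⟩
  have hfr : IsClassicalSol t₀ (fun t x => landauQ γ (f t x)) f :=
    Pool.Agent.H48.PI.sol_restrict hf' ht₀T.2.le
  have hbelow : ∀ τ ∈ Ico 0 t₀, ∀ y w, |f τ y w - mx a k u w| ≤ Λ * Wp p w :=
    fun τ hτ y w => (hlt τ hτ y w).le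
  have hW := Wp_pos p v₀
  have hnot : ¬ |f t₀ x₀ v₀ - mx a k u v₀| ≤ Λ / 2 * Wp p v₀ := fun h3 => by
    have h4 := hhalf v₀
    linarith [heq]
  rcases lt_or_ge t₀ 2 with h2t | h2t
  · exact hnot (hshort t₀ ⟨ht₀.1.le, lt_min ht₀T.2 h2t⟩ x₀ v₀)
  rcases le_total (len v₀) R₂ with hv | hv
  · apply hnot
    have hre : RE a k u (f 0) ≤ ε₁ := hsm (f 0) (Pool.Agent.H15.AV.sol_slice hf' hT0)
      fun y w => (hd0 y w).trans (mul_le_mul_of_nonneg_right (min_le_left _ _) (Wp_pos p w).le)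
    have hb1 := hbc t₀ f hfr hbelow hre
    have hc1 : ContinuousOn (fun τ => |f τ x₀ v₀ - mx a k u v₀|) (Ico 0 T) :=
      ((nrL_tc hf' x₀ v₀).sub continuousOn_const).abs
    exact nrL_ext (t₁ := 1) (g := fun τ => |f τ x₀ v₀ - mx a k u v₀|) hc1 zero_le_one
      (by linarith) ht₀T.2 fun τ hτ => hb1 τ hτ x₀ v₀ hv
  · have hopv := hop Λ hΛ hL2 (f t₀ x₀) (IsClassicalSol.nice hf' ht₀T x₀)
      (fun w => hf'.nonneg t₀ ht₀C x₀ w) (fun w => hle x₀ w) v₀ hv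
    have hdf := Pool.Agent.H82.BK.char_deriv hf' ht₀T x₀ v₀
    have hnear : ∀ᶠ τ in 𝓝[>] (0 : ℝ), |f (t₀ + -τ) (x₀ + (-τ) • v₀) v₀ -
        mx a k u v₀| ≤ Λ * Wp p v₀ := by
      filter_upwards [Ioo_mem_nhdsGT ht₀.1] with τ hτ
      exact hbelow (t₀ + -τ) ⟨by linarith [hτ.2], by linarith [hτ.1]⟩ _ v₀
    rcases abs_cases (f t₀ x₀ v₀ - mx a k u v₀) with ⟨h3, -⟩ | ⟨h3, -⟩
    · rw [h3] at heq
      have h4 := nrL_cmp (c := Λ * Wp p v₀) (hdf.sub_const (mx a k u v₀)) (by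
        show f (t₀ + 0) (x₀ + (0 : ℝ) • v₀) v₀ - mx a k u v₀ = Λ * Wp p v₀
        rw [add_zero, zero_smul, add_zero]
        exact heq) (by
        filter_upwards [hnear] with τ hτ
        exact (le_abs_self _).trans hτ)
      exact absurd (hopv.1 heq) (not_lt.2 h4)
    · rw [h3, neg_sub] at heq
      have h4 := nrL_cmp (c := Λ * Wp p v₀) (hdf.const_sub (mx a k u v₀)) (by
        show mx a k u v₀ - f (t₀ + 0) (x₀ + (0 : ℝ) • v₀) v₀ = Λ * Wp p v₀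
        rw [add_zero, zero_smul, add_zero]
        exact heq) (by
        filter_upwards [hnear] with τ hτ
        rw [abs_sub_comm] at hτ
        exact (le_abs_self _).trans hτ)
      have h5 := hopv.2 (by linarith)
      linarith

end Pool.Agent.H48.LN
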