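import Pool.Agent.H48.LN.Dif
import Pool.Agent.H48.LN.HsW
import Pool.Agent.H48.LN.MxL

/-!
# Module OpA: the operator at touching points with a Maxwellian, all velocities

`M = mx a k u`, `r = F - M`, `|r| ≤ Λ Wp p`. `dif_eq` with `G = M` and `mx_QL`: `landauQ F v = ctr F r + ctr r M + cb F r(v) + cb r M(v)`; `r` is `CW p Λ`, `F` is `CW p (A + Λ)` (`mx_cw`; `p ≥ d + 2`).
If `r(v) = Λ Wp p v`: `φ = r - Λ Wp p ≤ 0 = φ(v)`, so `ctr F φ v ≤ 0` (`ctr_nonpos`), `ctr F r ≤ Λ ctr F (Wp p) ≤ Λ Σ |ab F| |∂∂Wp| ≤ Λ d² K (A+Λ)(1+nsq v) 8(p+1)² Wp p v/(1+nsq v)` (`ctr_sub`, `ctr_smul`, `ab_bd`, `wp_pd_le`). `|ctr r M| ≤ d² K Λ (1+nsq v) K' Wp (p+1) v = d² K K' Λ Wp p v` (`mx_hs` with `q = p+1`). `cb F r ≤ K (A+Λ) Λ Wp p v`, `|cb r M| ≤ K Λ M(v) ≤ K K' Λ Wp p v` (`(1+nsq v)^(γ/2) ≤ 1`).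
If `r(v) = -Λ Wp p v`: `φ = -r - Λ Wp p`, the same with signs.
-/

set_option autoImplicit false

open MeasureTheory Set Filter Topology Pool.Agent.H25.Kin Pool.Agent.H48.PR Pool.Agent.H48.NE
open Pool.Agent.H48.PD (FB)
open Pool.Agent.H15.AV (ab)

namespace Pool.Agent.H48.LN

variable {d : ℕ} {γ : ℝ}

private lemma opA_step (p : ℕ) (v : Vec d) : (1 + nsq v) * Wp (p + 1) v = Wp p v := by
  have h : 0 < 1 + nsq v := by
    have := sq_nonneg' v
    linarith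
  unfold Wp
  rw [pow_succ]
  field_simp

/-- the rest: `|ctr r M| + |cb r M|` -/
private lemma opA_rest (hd : 2 ≤ d) (h1 : -2 < γ) (h2 : γ ≤ 0) {p : ℕ} (hp : d + 2 ≤ p) {a k : ℝ} (ha : 0 < a)
    (hk : 0 < k) (u : Vec d) : ∃ K : ℝ, 0 ≤ K ∧ ∀ Λ : ℝ, 0 ≤ Λ → ∀ g : Vec d → ℝ, CW p Λ g → ∀ v : Vec d,
      |ctr γ g (mx a k u) v| + |cb γ g v * mx a k u v| ≤ K * Λ * Wp p v := by
  obtain ⟨Ka, hKa0, hKa⟩ := ab_bd (d := d) (γ := γ) h1 h2 (q := p) hp
  obtain ⟨Kc, hKc0, hKc⟩ := cb_bd (d := d) (γ := γ) hd h1 h2 (q := p) hp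
  obtain ⟨Kh, hKh0, hKh⟩ := mx_hs (d := d) ha hk u (p + 1)
  obtain ⟨Km, hKm0, hKm⟩ := mx_cw (d := d) ha hk u p
  refine ⟨(d : ℝ) * ((d : ℝ) * (Ka * Kh)) + Kc * Km, by positivity, fun Λ hΛ g hg v => ?_⟩
  have hn : 0 ≤ nsq v := sq_nonneg' v
  have hW1 : 0 < Wp p v := Wp_pos _ _
  have hW2 : 0 < Wp (p + 1) v := Wp_pos _ _
  have e1 : |ctr γ g (mx a k u) v| ≤ (d : ℝ) * ((d : ℝ) * (Ka * Kh)) * Λ * Wp p v := by
    unfold ctr
    refine (Finset.abs_sum_le_sum_abs _ _).trans ?_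
    have : ∀ i ∈ (Finset.univ : Finset (Fin d)), |∑ j, ab γ g i j v * pd i (pd j (mx a k u)) v| ≤
        (d : ℝ) * (Ka * Kh * Λ * Wp p v) := by
      intro i _
      refine (Finset.abs_sum_le_sum_abs _ _).trans ?_
      have h3 : ∀ j ∈ (Finset.univ : Finset (Fin d)), |ab γ g i j v * pd i (pd j (mx a k u)) v| ≤
          Ka * Kh * Λ * Wp p v := by
        intro j _
        rw [abs_mul]
        calc |ab γ g i j v| * |pd i (pd j (mx a k u)) v| ≤
            (Ka * Λ * (1 + nsq v)) * (Kh * Wp (p + 1) v) :=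
              mul_le_mul (hKa Λ g hg i j v) (hKh i j v) (abs_nonneg _) (by positivity)
          _ = Ka * Kh * Λ * ((1 + nsq v) * Wp (p + 1) v) := by ring
          _ = _ := by rw [opA_step]
      refine (Finset.sum_le_sum h3).trans (le_of_eq ?_)
      rw [Finset.sum_const, Finset.card_univ, Fintype.card_fin, nsmul_eq_mul]
    refine (Finset.sum_le_sum this).trans (le_of_eq ?_)
    rw [Finset.sum_const, Finset.card_univ, Fintype.card_fin, nsmul_eq_mul]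
    ring
  have e2 : |cb γ g v * mx a k u v| ≤ Kc * Km * Λ * Wp p v := by
    rw [abs_mul]
    have h3 : (1 + nsq v) ^ (γ / 2) ≤ 1 :=
      Real.rpow_le_one_of_one_le_of_nonpos (by linarith) (by linarith)
    have h4 : |cb γ g v| ≤ Kc * Λ := by
      refine (hKc Λ g hg v).trans ?_
      have : 0 ≤ Kc * Λ := by positivity
      nlinarith
    calc |cb γ g v| * |mx a k u v| ≤ (Kc * Λ) * (Km * Wp p v) :=
        mul_le_mul h4 (hKm.le v) (abs_nonneg _) (by positivity)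
      _ = _ := by ring
  calc _ ≤ (d : ℝ) * ((d : ℝ) * (Ka * Kh)) * Λ * Wp p v + Kc * Km * Λ * Wp p v := add_le_add e1 e2
    _ = _ := by ring

/-- the main part: `|ctr F (Wp p)| + |cb F|` for `F` of class `CW p A` -/
private lemma opA_wp (hd : 2 ≤ d) (h1 : -2 < γ) (h2 : γ ≤ 0) {p : ℕ} (hp : d + 2 ≤ p) :
    ∃ K : ℝ, 0 ≤ K ∧ ∀ A : ℝ, 0 ≤ A → ∀ F : Vec d → ℝ, CW p A F → ∀ v : Vec d,
      |ctr γ F (Wp p) v| ≤ K * A * Wp p v ∧ |cb γ F v| ≤ K * A := by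
  obtain ⟨Ka, hKa0, hKa⟩ := ab_bd (d := d) (γ := γ) h1 h2 (q := p) hp
  obtain ⟨Kc, hKc0, hKc⟩ := cb_bd (d := d) (γ := γ) hd h1 h2 (q := p) hp
  refine ⟨(d : ℝ) * ((d : ℝ) * (Ka * (8 * ((p : ℝ) + 1) ^ 2))) + Kc, by positivity,
    fun A hA F hF v => ?_⟩
  have hn : 0 ≤ nsq v := sq_nonneg' v
  have hn1 : 0 < 1 + nsq v := by linarith
  have hW1 : 0 < Wp p v := Wp_pos _ _
  constructor
  · have e1 : |ctr γ F (Wp p) v| ≤ (d : ℝ) * ((d : ℝ) * (Ka * (8 * ((p : ℝ) + 1) ^ 2))) * A * Wp p v := by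
      unfold ctr
      refine (Finset.abs_sum_le_sum_abs _ _).trans ?_
      have : ∀ i ∈ (Finset.univ : Finset (Fin d)), |∑ j, ab γ F i j v * pd i (pd j (Wp p)) v| ≤
          (d : ℝ) * (Ka * (8 * ((p : ℝ) + 1) ^ 2) * A * Wp p v) := by
        intro i _
        refine (Finset.abs_sum_le_sum_abs _ _).trans ?_
        have h3 : ∀ j ∈ (Finset.univ : Finset (Fin d)), |ab γ F i j v * pd i (pd j (Wp p)) v| ≤
            Ka * (8 * ((p : ℝ) + 1) ^ 2) * A * Wp p v := by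
          intro j _
          rw [abs_mul]
          calc |ab γ F i j v| * |pd i (pd j (Wp p)) v| ≤
              (Ka * A * (1 + nsq v)) * (8 * ((p : ℝ) + 1) ^ 2 * (Wp p v / (1 + nsq v))) :=
                mul_le_mul (hKa A F hF i j v) (wp_pd_le p i j v) (abs_nonneg _) (by positivity)
            _ = _ := by field_simp
        refine (Finset.sum_le_sum h3).trans (le_of_eq ?_)
        rw [Finset.sum_const, Finset.card_univ, Fintype.card_fin, nsmul_eq_mul]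
      refine (Finset.sum_le_sum this).trans (le_of_eq ?_)
      rw [Finset.sum_const, Finset.card_univ, Fintype.card_fin, nsmul_eq_mul]
      ring
    refine e1.trans ?_
    have : 0 ≤ Kc * A * Wp p v := by positivity
    linarith
  · have h3 : (1 + nsq v) ^ (γ / 2) ≤ 1 :=
      Real.rpow_le_one_of_one_le_of_nonpos (by linarith) (by linarith)
    have h4 : |cb γ F v| ≤ Kc * A := by
      refine (hKc A F hF v).trans ?_
      have : 0 ≤ Kc * A := by positivity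
      nlinarith
    have : 0 ≤ (d : ℝ) * ((d : ℝ) * (Ka * (8 * ((p : ℝ) + 1) ^ 2))) * A := by positivity
    linarith

theorem op_all (hd : 2 ≤ d) (h1 : -2 < γ) (h2 : γ ≤ 0) {p : ℕ} (hp : d + 2 ≤ p) {a k : ℝ} (ha : 0 < a)
    (hk : 0 < k) (u : Vec d) : ∃ K : ℝ, 0 ≤ K ∧ ∀ Λ : ℝ, 0 ≤ Λ → Λ ≤ 1 → ∀ F : Vec d → ℝ, Nice F →
      (∀ v, 0 ≤ F v) → (∀ v, |F v - mx a k u v| ≤ Λ * Wp p v) → ∀ v : Vec d,
      (F v - mx a k u v = Λ * Wp p v → landauQ γ F v ≤ K * Λ * Wp p v) ∧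
      (F v - mx a k u v = -(Λ * Wp p v) → -(K * Λ * Wp p v) ≤ landauQ γ F v) := by
  set M : Vec d → ℝ := mx a k u with hM
  have hMN : Nice M := mx_nice ha hk u
  obtain ⟨AM, hAM0, hAM⟩ := mx_cw (d := d) ha hk u p
  obtain ⟨K, hK0, hK⟩ := opA_rest (d := d) (γ := γ) hd h1 h2 hp ha hk u
  obtain ⟨K', hK'0, hK'⟩ := opA_wp (d := d) (γ := γ) hd h1 h2 hp
  refine ⟨2 * (K' * (AM + 1)) + K, by positivity, ?_⟩
  intro Λ hΛ hΛ1 F hF hF0 hd' v
  have hFc : CW p (AM + 1) F := by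
    refine ⟨hF.cont, fun w => ?_⟩
    have h3 := hd' w
    have h4 := hAM.le w
    have h5 := Wp_pos p w
    have h6 : |F w| ≤ |F w - M w| + |M w| := by
      have := abs_add_le (F w - M w) (M w)
      rwa [sub_add_cancel] at this
    nlinarith
  have hW : 0 < Wp p v := Wp_pos p v
  obtain ⟨hA1, hA2⟩ := hK' (AM + 1) (by linarith) F hFc v
  have hr : CW p Λ (fun w => F w - M w) := ⟨hF.cont.sub hMN.cont, hd'⟩
  have hrest := hK Λ hΛ _ hr v
  have hdif := dif_eq (γ := γ) hd h1 h2 hF hMN v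
  have hQM : landauQ γ M v = 0 := mx_QL ha hk u v
  rw [hQM, sub_zero] at hdif
  have hsm : ContDiff ℝ 2 (fun w => F w - M w) := hF.smooth.sub hMN.smooth
  have hWs : ContDiff ℝ 2 (fun w : Vec d => Λ * Wp p w) := contDiff_const.mul (wp_smooth p)
  have hc1 : Λ * ctr γ F (Wp p) v ≤ Λ * (K' * (AM + 1) * Wp p v) :=
    mul_le_mul_of_nonneg_left ((le_abs_self _).trans hA1) hΛ
  have hc2 : |cb γ F v * (Λ * Wp p v)| ≤ K' * (AM + 1) * (Λ * Wp p v) := by
    rw [abs_mul, abs_of_nonneg (by positivity : 0 ≤ Λ * Wp p v)]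
    exact mul_le_mul_of_nonneg_right hA2 (by positivity)
  constructor
  · intro htou
    have hφ : ctr γ F (fun w => (F w - M w) - Λ * Wp p w) v ≤ 0 := by
      refine ctr_nonpos h1 h2 hF hF0 (hsm.sub hWs) fun w => ?_
      show F w - M w - Λ * Wp p w ≤ F v - M v - Λ * Wp p v
      rw [htou]
      have := (abs_le.1 (hd' w)).2
      linarith
    rw [ctr_sub F hsm hWs v, ctr_smul F (wp_smooth p) Λ v] at hφ
    rw [hdif, htou]
    have h7 : ctr γ (fun w => F w - M w) M v + cb γ (fun w => F w - M w) v * M v ≤ K * Λ * Wp p v :=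
      (add_le_add (le_abs_self _) (le_abs_self _)).trans hrest
    have h8 := (le_abs_self _).trans hc2
    have h9 : (2 * (K' * (AM + 1)) + K) * Λ * Wp p v =
        Λ * (K' * (AM + 1) * Wp p v) + K' * (AM + 1) * (Λ * Wp p v) + K * Λ * Wp p v := by ring
    rw [h9]
    linarith
  · intro htou
    have hφ : ctr γ F (fun w => (-1 : ℝ) * (F w - M w) - Λ * Wp p w) v ≤ 0 := by
      refine ctr_nonpos h1 h2 hF hF0 ((contDiff_const.mul hsm).sub hWs) fun w => ?_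
      show (-1 : ℝ) * (F w - M w) - Λ * Wp p w ≤ (-1 : ℝ) * (F v - M v) - Λ * Wp p v
      rw [htou]
      have := (abs_le.1 (hd' w)).1
      linarith
    rw [ctr_sub F (contDiff_const.mul hsm) hWs v, ctr_smul F hsm (-1) v, ctr_smul F (wp_smooth p) Λ v] at hφ
    rw [hdif, htou]
    have h7 : -(K * Λ * Wp p v) ≤ ctr γ (fun w => F w - M w) M v + cb γ (fun w => F w - M w) v * M v := by
      have h9 := neg_abs_le (ctr γ (fun w => F w - M w) M v)
      have h10 := neg_abs_le (cb γ (fun w => F w - M w) v * M v)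
      linarith
    have h8 := (le_abs_self _).trans hc2
    have h9 : (2 * (K' * (AM + 1)) + K) * Λ * Wp p v =
        Λ * (K' * (AM + 1) * Wp p v) + K' * (AM + 1) * (Λ * Wp p v) + K * Λ * Wp p v := by ring
    rw [h9, mul_neg]
    linarith

end Pool.Agent.H48.LN
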