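import Pool.Agent.H48.LN.Defs
import Pool.Agent.H82.LK.Reg

/-!
# Module RegE: the exact integration by parts with the regularized matrix

Copy the proof of `reg_ibp` (H82/LK/Reg.lean) up to the statement `s4` (that statement is the theorem); the sign of `φ` is not used there. The private lemmas of that file (`PD`, `wt_PD`, `regA_PD`, `sum_pd_regA`, `zh_PD`, `sum_pd_zh`, `pd_PG`, `pd_measurable`, ..) must be copied, with the prefix `RegE_`.
-/

set_option autoImplicit false

open MeasureTheory Set Filter Topology Pool.Agent.H25.Kin Pool.Agent.H48.PR Pool.Agent.H48.NE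
open Pool.Agent.H48.PD (FB)
open Pool.Agent.H15.AV (ab)

namespace Pool.Agent.H48.LN

variable {d : ℕ} {γ : ℝ}

open Pool.Agent.H82.LK (regA)

/-- differentiable, of polynomial growth together with the derivative -/
private structure RegE_PD (f : Vec d → ℝ) : Prop where
  diff : Differentiable ℝ f
  pg : PG f
  pg1 : PG (fderiv ℝ f)

private theorem RegE_norm_smul {h : Vec d → ℝ} {k : Vec d → (Vec d →L[ℝ] ℝ)} (hh : PG h)
    (hk : PG k) : PG (fun v => h v • k v) := by
  obtain ⟨N, C, hC0, hC⟩ := hh.pos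
  obtain ⟨M, D, hD0, hD⟩ := hk.pos
  refine ⟨N + M, C * D, fun v => ?_⟩
  calc ‖h v • k v‖ = ‖h v‖ * ‖k v‖ := norm_smul _ _
    _ ≤ (C * (1 + ‖v‖) ^ N) * (D * (1 + ‖v‖) ^ M) := by
        gcongr
        · exact hC v
        · exact hD v
    _ = C * D * (1 + ‖v‖) ^ (N + M) := by ring

private theorem RegE_PD.const (c : ℝ) : RegE_PD (fun _ : Vec d => c) := by
  refine ⟨differentiable_const c, PG.const c, ?_⟩
  have : fderiv ℝ (fun _ : Vec d => c) = fun _ => 0 := by
    funext v
    simp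
  rw [this]
  exact PG.const 0

private theorem RegE_PD.coord (i : Fin d) : RegE_PD (fun v : Vec d => v i) := by
  have h1 : ∀ v : Vec d, HasFDerivAt (fun v : Vec d => v i)
      (ContinuousLinearMap.proj (R := ℝ) (φ := fun _ : Fin d => ℝ) i) v := fun v =>
    (ContinuousLinearMap.proj (R := ℝ) (φ := fun _ : Fin d => ℝ) i).hasFDerivAt
  refine ⟨fun v => (h1 v).differentiableAt, PG.coord i, ?_⟩
  have : fderiv ℝ (fun v : Vec d => v i) = fun _ =>
      ContinuousLinearMap.proj (R := ℝ) (φ := fun _ : Fin d => ℝ) i := by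
    funext v
    exact (h1 v).fderiv
  rw [this]
  exact PG.const _

private theorem RegE_PD.add {f g : Vec d → ℝ} (hf : RegE_PD f) (hg : RegE_PD g) : RegE_PD (fun v => f v + g v) := by
  refine ⟨hf.diff.add hg.diff, hf.pg.add hg.pg, ?_⟩
  have : fderiv ℝ (fun v => f v + g v) = fun v => fderiv ℝ f v + fderiv ℝ g v := by
    funext v
    exact ((hf.diff v).hasFDerivAt.add (hg.diff v).hasFDerivAt).fderiv
  rw [this]
  exact hf.pg1.add hg.pg1

private theorem RegE_PD.mul {f g : Vec d → ℝ} (hf : RegE_PD f) (hg : RegE_PD g) : RegE_PD (fun v => f v * g v) := by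
  refine ⟨hf.diff.mul hg.diff, hf.pg.mul hg.pg, ?_⟩
  have : fderiv ℝ (fun v => f v * g v) = fun v => f v • fderiv ℝ g v + g v • fderiv ℝ f v := by
    funext v
    exact ((hf.diff v).hasFDerivAt.mul (hg.diff v).hasFDerivAt).fderiv
  rw [this]
  exact (RegE_norm_smul hf.pg hg.pg1).add (RegE_norm_smul hg.pg hf.pg1)

private theorem RegE_PD.neg {f : Vec d → ℝ} (hf : RegE_PD f) : RegE_PD (fun v => -f v) := by
  have := (RegE_PD.const (d := d) (-1)).mul hf
  simpa using this

private theorem RegE_PD.sub {f g : Vec d → ℝ} (hf : RegE_PD f) (hg : RegE_PD g) : RegE_PD (fun v => f v - g v) := by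
  have := hf.add hg.neg
  simpa [sub_eq_add_neg] using this

private theorem RegE_PD.nsq : RegE_PD (fun v : Vec d => nsq v) := by
  have h1 : ∀ s : Finset (Fin d), RegE_PD (fun v : Vec d => ∑ i ∈ s, v i ^ 2) := by
    intro s
    classical
    induction s using Finset.induction_on with
    | empty => simpa using RegE_PD.const (d := d) (0 : ℝ)
    | insert a s ha ih =>
      have h2 := ((RegE_PD.coord a).mul (RegE_PD.coord a)).add ih
      simpa [Finset.sum_insert ha, pow_two] using h2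
  exact h1 Finset.univ

private theorem RegE_pd_add' {f g : Vec d → ℝ} (hf : RegE_PD f) (hg : RegE_PD g) (i : Fin d) (v : Vec d) :
    pd i (fun v => f v + g v) v = pd i f v + pd i g v := by
  unfold pd
  have := ((hf.diff v).hasFDerivAt.add (hg.diff v).hasFDerivAt).fderiv
  change fderiv ℝ (fun v => f v + g v) v = _ at this
  rw [this]
  rfl

private theorem RegE_pd_sub' {f g : Vec d → ℝ} (hf : RegE_PD f) (hg : RegE_PD g) (i : Fin d) (v : Vec d) :
    pd i (fun v => f v - g v) v = pd i f v - pd i g v := by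
  unfold pd
  have := ((hf.diff v).hasFDerivAt.sub (hg.diff v).hasFDerivAt).fderiv
  change fderiv ℝ (fun v => f v - g v) v = _ at this
  rw [this]
  rfl

private theorem RegE_pd_mul' {f g : Vec d → ℝ} (hf : RegE_PD f) (hg : RegE_PD g) (i : Fin d) (v : Vec d) :
    pd i (fun v => f v * g v) v = pd i f v * g v + f v * pd i g v := by
  unfold pd
  have := ((hf.diff v).hasFDerivAt.mul (hg.diff v).hasFDerivAt).fderiv
  change fderiv ℝ (fun v => f v * g v) v = _ at this
  rw [this]
  simp only [ContinuousLinearMap.add_apply, ContinuousLinearMap.smul_apply, smul_eq_mul]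
  ring

private theorem RegE_pd_const' (c : ℝ) (i : Fin d) (v : Vec d) :
    pd i (fun _ : Vec d => c) v = 0 := by
  unfold pd
  simp

private theorem RegE_pd_coord' (i j : Fin d) (v : Vec d) :
    pd i (fun v : Vec d => v j) v = if i = j then 1 else 0 := by
  unfold pd
  have h1 : HasFDerivAt (fun v : Vec d => v j)
      (ContinuousLinearMap.proj (R := ℝ) (φ := fun _ : Fin d => ℝ) j) v :=
    (ContinuousLinearMap.proj (R := ℝ) (φ := fun _ : Fin d => ℝ) j).hasFDerivAt
  rw [h1.fderiv, ContinuousLinearMap.proj_apply, Pi.single_apply]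
  simp only [eq_comm]

private theorem RegE_pd_nsq' (i : Fin d) (v : Vec d) : pd i (fun v : Vec d => nsq v) v = 2 * v i := by
  have h1 : ∀ s : Finset (Fin d), RegE_PD (fun v : Vec d => ∑ k ∈ s, v k ^ 2) ∧
      pd i (fun v : Vec d => ∑ k ∈ s, v k ^ 2) v = ∑ k ∈ s, if i = k then 2 * v k else 0 := by
    intro s
    classical
    induction s using Finset.induction_on with
    | empty =>
      refine ⟨by simpa using RegE_PD.const (d := d) (0 : ℝ), ?_⟩
      simpa using RegE_pd_const' (d := d) 0 i v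
    | insert a s ha ih =>
      have h2 := ((RegE_PD.coord a).mul (RegE_PD.coord a)).add ih.1
      have h3 := RegE_pd_add' ((RegE_PD.coord a).mul (RegE_PD.coord a)) ih.1 i v
      rw [RegE_pd_mul' (RegE_PD.coord a) (RegE_PD.coord a), RegE_pd_coord', ih.2] at h3
      refine ⟨by simpa [Finset.sum_insert ha, pow_two] using h2, ?_⟩
      have e : (fun v : Vec d => ∑ k ∈ insert a s, v k ^ 2) =
          fun v => v a * v a + ∑ k ∈ s, v k ^ 2 := by
        funext w
        rw [Finset.sum_insert ha, pow_two]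
      rw [e, h3, Finset.sum_insert ha]
      congr 1
      split_ifs <;> ring
  have h2 := (h1 Finset.univ).2
  rw [Finset.sum_ite_eq, if_pos (Finset.mem_univ i)] at h2
  exact h2

section weight

variable {γ ε : ℝ}

private theorem RegE_base_pos (hε : 0 < ε) (z : Vec d) : 0 < nsq z + ε := by
  have := sq_nonneg' z
  linarith

private theorem RegE_rpow_PG (hε : 0 < ε) {b : ℝ} (hb : b ≤ 0) :
    PG (fun z : Vec d => (nsq z + ε) ^ b) := by
  refine ⟨0, ε ^ b, fun z => ?_⟩
  rw [pow_zero, mul_one, Real.norm_eq_abs, abs_of_nonneg (Real.rpow_nonneg (RegE_base_pos hε z).le _)]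
  refine Real.rpow_le_rpow_of_nonpos hε ?_ hb
  have := sq_nonneg' z
  linarith

private theorem RegE_wt_hasFDerivAt (hε : 0 < ε) (γ : ℝ) (z : Vec d) :
    HasFDerivAt (fun z : Vec d => (nsq z + ε) ^ (γ / 2))
      ((γ / 2 * (nsq z + ε) ^ (γ / 2 - 1)) • fderiv ℝ (fun v : Vec d => nsq v) z) z := by
  have h1 : HasFDerivAt (fun z : Vec d => nsq z + ε)
      (fderiv ℝ (fun v : Vec d => nsq v) z) z := by
    have := (RegE_PD.nsq.diff z).hasFDerivAt (𝕜 := ℝ)
    exact this.add_const ε
  have h2 := h1.rpow_const (p := γ / 2) (Or.inl (RegE_base_pos hε z).ne')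
  exact h2

private theorem RegE_wt_PD (hε : 0 < ε) (h2 : γ ≤ 0) :
    RegE_PD (fun z : Vec d => (nsq z + ε) ^ (γ / 2)) := by
  refine ⟨fun z => (RegE_wt_hasFDerivAt hε γ z).differentiableAt, RegE_rpow_PG hε (by linarith), ?_⟩
  have e : fderiv ℝ (fun z : Vec d => (nsq z + ε) ^ (γ / 2)) = fun z =>
      (γ / 2 * (nsq z + ε) ^ (γ / 2 - 1)) • fderiv ℝ (fun v : Vec d => nsq v) z := by
    funext z
    exact (RegE_wt_hasFDerivAt hε γ z).fderiv
  rw [e]
  exact RegE_norm_smul ((PG.const (γ / 2)).mul (RegE_rpow_PG hε (by linarith))) RegE_PD.nsq.pg1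

private theorem RegE_pd_wt (hε : 0 < ε) (γ : ℝ) (i : Fin d) (z : Vec d) :
    pd i (fun z : Vec d => (nsq z + ε) ^ (γ / 2)) z =
      γ * (nsq z + ε) ^ (γ / 2 - 1) * z i := by
  have h1 : pd i (fun z : Vec d => (nsq z + ε) ^ (γ / 2)) z =
      (γ / 2 * (nsq z + ε) ^ (γ / 2 - 1)) * pd i (fun v : Vec d => nsq v) z := by
    unfold pd
    rw [(RegE_wt_hasFDerivAt hε γ z).fderiv]
    rfl
  rw [h1, RegE_pd_nsq']
  ring

private theorem RegE_coef_PD (i j : Fin d) :
    RegE_PD (fun z : Vec d => (if i = j then nsq z else 0) - z i * z j) := by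
  have h1 : RegE_PD (fun z : Vec d => (if i = j then nsq z else 0)) := by
    by_cases h : i = j
    · simpa [h] using RegE_PD.nsq (d := d)
    · simpa [h] using RegE_PD.const (d := d) 0
  exact h1.sub ((RegE_PD.coord i).mul (RegE_PD.coord j))

private theorem RegE_pd_coef (i j : Fin d) (z : Vec d) :
    pd i (fun z : Vec d => (if i = j then nsq z else 0) - z i * z j) z =
      (if i = j then 2 * z i else 0) - (z j + if i = j then z i else 0) := by
  have h1 : RegE_PD (fun z : Vec d => (if i = j then nsq z else 0)) := by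
    by_cases h : i = j
    · simpa [h] using RegE_PD.nsq (d := d)
    · simpa [h] using RegE_PD.const (d := d) 0
  rw [RegE_pd_sub' h1 ((RegE_PD.coord i).mul (RegE_PD.coord j)), RegE_pd_mul' (RegE_PD.coord i) (RegE_PD.coord j), RegE_pd_coord',
    RegE_pd_coord']
  have h2 : pd i (fun z : Vec d => (if i = j then nsq z else 0)) z =
      if i = j then 2 * z i else 0 := by
    by_cases h : i = j
    · simp only [h, if_true]
      exact RegE_pd_nsq' j z
    · simp only [h, if_false]
      exact RegE_pd_const' 0 i z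
  rw [h2]
  congr 1
  rw [if_pos rfl, one_mul]
  split_ifs <;> simp

private theorem RegE_regA_PD (hε : 0 < ε) (h2 : γ ≤ 0) (i j : Fin d) :
    RegE_PD (fun z : Vec d => regA γ ε z i j) := (RegE_coef_PD i j).mul (RegE_wt_PD hε h2)

private theorem RegE_pd_regA (hε : 0 < ε) (h2 : γ ≤ 0) (i j : Fin d) (z : Vec d) :
    pd i (fun z : Vec d => regA γ ε z i j) z =
      ((if i = j then 2 * z i else 0) - (z j + if i = j then z i else 0)) *
        (nsq z + ε) ^ (γ / 2) +
      ((if i = j then nsq z else 0) - z i * z j) * (γ * (nsq z + ε) ^ (γ / 2 - 1) * z i) := by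
  have h := RegE_pd_mul' (RegE_coef_PD i j) (RegE_wt_PD hε h2) i z
  rw [RegE_pd_coef, RegE_pd_wt hε] at h
  exact h

private theorem RegE_sum_pd_regA (hε : 0 < ε) (h2 : γ ≤ 0) (j : Fin d) (z : Vec d) :
    ∑ i, pd i (fun z : Vec d => regA γ ε z i j) z =
      -((d : ℝ) - 1) * (z j * (nsq z + ε) ^ (γ / 2)) := by
  simp_rw [RegE_pd_regA hε h2]
  rw [Finset.sum_add_distrib, ← Finset.sum_mul]
  have h3 : ∑ i : Fin d, ((if i = j then 2 * z i else 0) - (z j + if i = j then z i else 0)) =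
      -((d : ℝ) - 1) * z j := by
    rw [Finset.sum_sub_distrib, Finset.sum_add_distrib, Finset.sum_ite_eq', Finset.sum_ite_eq',
      if_pos (Finset.mem_univ j), if_pos (Finset.mem_univ j)]
    simp
    ring
  have h4 : ∑ i : Fin d, ((if i = j then nsq z else 0) - z i * z j) *
      (γ * (nsq z + ε) ^ (γ / 2 - 1) * z i) = 0 := by
    have h5 : ∀ i : Fin d, ((if i = j then nsq z else 0) - z i * z j) *
        (γ * (nsq z + ε) ^ (γ / 2 - 1) * z i) = (γ * (nsq z + ε) ^ (γ / 2 - 1)) *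
          ((if i = j then nsq z * z i else 0) - z i ^ 2 * z j) := by
      intro i
      split_ifs <;> ring
    simp_rw [h5]
    rw [← Finset.mul_sum, Finset.sum_sub_distrib, Finset.sum_ite_eq',
      if_pos (Finset.mem_univ j), ← Finset.sum_mul]
    have h6 : ∑ i : Fin d, z i ^ 2 = nsq z := rfl
    rw [h6, sub_self, mul_zero]
  rw [h3, h4, add_zero]
  ring

private theorem RegE_zh_PD (hε : 0 < ε) (h2 : γ ≤ 0) (j : Fin d) :
    RegE_PD (fun z : Vec d => z j * (nsq z + ε) ^ (γ / 2)) := (RegE_PD.coord j).mul (RegE_wt_PD hε h2)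

private theorem RegE_pd_zh (hε : 0 < ε) (h2 : γ ≤ 0) (j : Fin d) (z : Vec d) :
    pd j (fun z : Vec d => z j * (nsq z + ε) ^ (γ / 2)) z =
      (nsq z + ε) ^ (γ / 2) + z j ^ 2 * (γ * (nsq z + ε) ^ (γ / 2 - 1)) := by
  have h := RegE_pd_mul' (RegE_PD.coord j) (RegE_wt_PD hε h2) j z
  rw [RegE_pd_coord', if_pos rfl, RegE_pd_wt hε] at h
  rw [h]
  ring

private theorem RegE_sum_pd_zh (hε : 0 < ε) (h2 : γ ≤ 0) (z : Vec d) :
    ∑ j, pd j (fun z : Vec d => z j * (nsq z + ε) ^ (γ / 2)) z =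
      d * (nsq z + ε) ^ (γ / 2) + nsq z * (γ * (nsq z + ε) ^ (γ / 2 - 1)) := by
  simp_rw [RegE_pd_zh hε h2]
  rw [Finset.sum_add_distrib, ← Finset.sum_mul]
  have h6 : ∑ i : Fin d, z i ^ 2 = nsq z := rfl
  rw [h6]
  simp

end weight

private theorem RegE_pd_measurable (i : Fin d) (f : Vec d → ℝ) : Measurable (pd i f) :=
  measurable_fderiv_apply_const ℝ f _

private theorem RegE_pd_PG {f : Vec d → ℝ} (hf : RegE_PD f) (i : Fin d) : PG (pd i f) := by
  obtain ⟨N, C, hC⟩ := hf.pg1
  exact ⟨N, C, fun v => (pd_le i f v).trans (hC v)⟩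

theorem reg_eq (hd : 1 ≤ d) (h1 : -2 < γ) (h2 : γ ≤ 0) {φ : Vec d → ℝ} (hφ : Nice φ) {ε : ℝ}
    (hε : 0 < ε) :
    ∑ i, ∑ j, ∫ z, regA γ ε z i j * pd i (pd j φ) z =
      -((d : ℝ) - 1) * ∫ z, φ z * (d * (nsq z + ε) ^ (γ / 2) +
        nsq z * (γ * (nsq z + ε) ^ (γ / 2 - 1))) := by
  -- first integration by parts
  have s1 : ∀ i j : Fin d, ∫ z, regA γ ε z i j * pd i (pd j φ) z =
      -∫ z, pd j φ z * pd i (fun z : Vec d => regA γ ε z i j) z := by
    intro i j
    have hA := RegE_regA_PD (d := d) hε h2 i j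
    rw [← ibp (hφ.pd_diff j) (hφ.pd_RD j) (hφ.pd_rd1 j) hA.diff hA.pg hA.pg1 i]
    refine integral_congr_ae (Filter.Eventually.of_forall fun z => ?_)
    exact mul_comm _ _
  have i1 : ∀ i j : Fin d, Integrable fun z =>
      pd j φ z * pd i (fun z : Vec d => regA γ ε z i j) z := by
    intro i j
    refine ((hφ.pd_RD j).mul_PG (RegE_pd_PG (RegE_regA_PD hε h2 i j) i)).integrable ?_
    exact ((hφ.pd_cont j).measurable.mul (RegE_pd_measurable i _)).aestronglyMeasurable
  have s2 : ∀ j : Fin d, ∑ i, ∫ z, regA γ ε z i j * pd i (pd j φ) z =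
      ((d : ℝ) - 1) * ∫ z, pd j φ z * (z j * (nsq z + ε) ^ (γ / 2)) := by
    intro j
    simp_rw [s1]
    rw [Finset.sum_neg_distrib, ← integral_finsetSum _ (fun i _ => i1 i j)]
    have e : ∀ z : Vec d, ∑ i, pd j φ z * pd i (fun z : Vec d => regA γ ε z i j) z =
        -((d : ℝ) - 1) * (pd j φ z * (z j * (nsq z + ε) ^ (γ / 2))) := by
      intro z
      rw [← Finset.mul_sum, RegE_sum_pd_regA hε h2]
      ring
    simp_rw [e]
    rw [integral_const_mul]
    ring
  -- second integration by parts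
  have s3 : ∀ j : Fin d, ∫ z, pd j φ z * (z j * (nsq z + ε) ^ (γ / 2)) =
      -∫ z, φ z * pd j (fun z : Vec d => z j * (nsq z + ε) ^ (γ / 2)) z := by
    intro j
    have hA := RegE_zh_PD (d := d) hε h2 j
    exact ibp hφ.diff hφ.rd hφ.rd1 hA.diff hA.pg hA.pg1 j
  have i3 : ∀ j : Fin d, Integrable fun z =>
      φ z * pd j (fun z : Vec d => z j * (nsq z + ε) ^ (γ / 2)) z := by
    intro j
    refine (hφ.rd.mul_PG (RegE_pd_PG (RegE_zh_PD hε h2 j) j)).integrable ?_
    exact (hφ.cont.measurable.mul (RegE_pd_measurable j _)).aestronglyMeasurable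
  have s4 : ∑ i, ∑ j, ∫ z, regA γ ε z i j * pd i (pd j φ) z =
      -((d : ℝ) - 1) * ∫ z, φ z * (d * (nsq z + ε) ^ (γ / 2) +
        nsq z * (γ * (nsq z + ε) ^ (γ / 2 - 1))) := by
    rw [Finset.sum_comm]
    simp_rw [s2, s3]
    rw [← Finset.mul_sum, Finset.sum_neg_distrib, ← integral_finsetSum _ (fun j _ => i3 j)]
    have e : ∀ z : Vec d, ∑ j, φ z * pd j (fun z : Vec d => z j * (nsq z + ε) ^ (γ / 2)) z =
        φ z * (d * (nsq z + ε) ^ (γ / 2) + nsq z * (γ * (nsq z + ε) ^ (γ / 2 - 1))) := by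
      intro z
      rw [← Finset.mul_sum, RegE_sum_pd_zh hε h2]
    simp_rw [e]
    ring
  exact s4

end Pool.Agent.H48.LN
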